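import Pool.Agent.H4G.Cone.Defs

/-!
# The k-fold exits in reduced data (helper96, idea of helper65)
-/

set_option autoImplicit false

namespace Pool.Agent.H4G

/-- the vector of a `k`-fold exit: `U_j + k (i U_j + (o a0 + t e0 + i f0) Q)`,
`U_j = U - j (a0 + e0) Q` -/
def QWk (a0 e0 f0 : ℤ) (U Q : Z2) (j t i o k : ℤ) : Z2 :=
  (U - (j * (a0 + e0)) • Q) + k • (i • (U - (j * (a0 + e0)) • Q) +
    (o * a0 + t * e0 + i * f0) • Q)

/-- the conditions of a `k`-fold exit -/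
structure QCk (A e f t i o k : ℤ) : Prop where
  o1 : o = 1 ∨ o = -1
  i0 : 0 ≤ i
  cop : IsCoprime t i
  k1 : 1 ≤ k
  lo : k * (i * A) < o * (t * e + i * f)
  hi : o * (t * e + i * f) ≤ e

/-- all `k`-fold exits have `gcd ≥ c` -/
def QSk (h a0 e0 f0 : ℤ) (U Q : Z2) (c : ℤ) : Prop :=
  ∀ j t i o k : ℤ, QCk (h * a0) (h * e0) (h * f0) t i o k → c ≤ gcv (QWk a0 e0 f0 U Q j t i o k)

end Pool.Agent.H4G
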