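import Pool.Agent.H4G.Cone.KFold
import Pool.Agent.H4G.Cone.DefsK
import Pool.Agent.H4G.Asym.R1

/-!
# The core inequality of k-fold exits (helper65)
-/

set_option autoImplicit false

namespace Pool.Agent.H4G

theorem gcv_smul (c : ℤ) (W : Z2) : gcv (c • W) = c.natAbs * gcv W := by
  rw [gcv, gcv, Prod.smul_fst, Prod.smul_snd, smul_eq_mul, smul_eq_mul, Int.gcd_mul_left]

/-- the divisors of `Y + z Z` for a good `z` -/
theorem exists_gcv {J X : ℕ} (hC : Cap J X) {Y Z : Z2} (h0 : cr Y Z ≠ 0)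
    (hX : |cr Y Z| ≤ (X : ℤ)) (z0 : ℤ) :
    ∃ z : ℤ, z0 ≤ z ∧ z < z0 + J ∧ ∀ d : ℤ, DV d (Y + z • Z) → DV d Y ∧ DV d Z := by
  obtain ⟨G, hG⟩ : ∃ G : ℕ, G = Nat.gcd (gcv Y) (gcv Z) := ⟨_, rfl⟩
  have hG0 : G ≠ 0 := by
    intro h
    rw [h] at hG
    have h1 : gcv Y = 0 := Nat.eq_zero_of_gcd_eq_zero_left hG.symm
    have h2 : Y.1 = 0 ∧ Y.2 = 0 := by
      rw [gcv] at h1; exact Int.gcd_eq_zero_iff.1 h1
    exact h0 (by rw [cr, h2.1, h2.2]; ring)
  have hGY : DV (G : ℤ) Y := dv_iff_gcv.2 (by rw [hG]; exact_mod_cast Nat.gcd_dvd_left _ _)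
  have hGZ : DV (G : ℤ) Z := dv_iff_gcv.2 (by rw [hG]; exact_mod_cast Nat.gcd_dvd_right _ _)
  obtain ⟨Y0, hY⟩ : ∃ Y0 : Z2, Y = (G : ℤ) • Y0 := by
    obtain ⟨⟨s, hs⟩, ⟨t, ht⟩⟩ := hGY
    exact ⟨(s, t), Prod.ext hs ht⟩
  obtain ⟨Z0, hZ⟩ : ∃ Z0 : Z2, Z = (G : ℤ) • Z0 := by
    obtain ⟨⟨s, hs⟩, ⟨t, ht⟩⟩ := hGZ
    exact ⟨(s, t), Prod.ext hs ht⟩
  have hprim : ∀ p : ℕ, p.Prime → DV (p : ℤ) Y0 → DV (p : ℤ) Z0 → False := by
    intro p hp h1 h2
    have e1 : p * G ∣ gcv Y := by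
      rw [hY, gcv_smul, Int.natAbs_natCast, mul_comm]
      have := dv_iff_gcv.1 h1
      exact Nat.mul_dvd_mul_left _ (by exact_mod_cast this)
    have e2 : p * G ∣ gcv Z := by
      rw [hZ, gcv_smul, Int.natAbs_natCast, mul_comm]
      have := dv_iff_gcv.1 h2
      exact Nat.mul_dvd_mul_left _ (by exact_mod_cast this)
    have e3 : p * G ∣ G := by
      have := Nat.dvd_gcd e1 e2
      rwa [← hG] at this
    have e4 := Nat.le_of_dvd (Nat.pos_of_ne_zero hG0) e3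
    have := hp.two_le
    have h5 : 2 * G ≤ p * G := Nat.mul_le_mul_right _ this
    omega
  have hcr : cr Y Z = (G : ℤ) * ((G : ℤ) * cr Y0 Z0) := by
    rw [hY, hZ, cr_smul_left, cr_smul_right]
  have hM : (cr Y Z).natAbs ≠ 0 := by simpa using h0
  have hcard := hC _ hM (by
    have : ((cr Y Z).natAbs : ℤ) ≤ (X : ℤ) := by rw [Int.natCast_natAbs]; exact hX
    exact_mod_cast this)
  obtain ⟨z, hz1, hz2, hz3⟩ := sieve2 (cr Y Z).natAbs.primeFactors
    (fun p hp => Nat.prime_of_mem_primeFactors hp)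
    (fun p z => DV (p : ℤ) (Y0 + z • Z0)) (fun _ _ => False)
    (by
      intro p hp z z' h1 h2
      have hpp := Nat.prime_of_mem_primeFactors hp
      by_contra hd
      have h3 : DV (p : ℤ) ((z - z') • Z0) := by
        have := h1.sub h2
        have e1 : Y0 + z • Z0 - (Y0 + z' • Z0) = (z - z') • Z0 := by module
        rwa [e1] at this
      have hp' : Prime (p : ℤ) := Nat.prime_iff_prime_int.1 hpp
      have h4 : DV (p : ℤ) Z0 := by
        obtain ⟨a1, a2⟩ := h3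
        rw [Prod.smul_fst, smul_eq_mul] at a1
        rw [Prod.smul_snd, smul_eq_mul] at a2
        exact ⟨(hp'.dvd_or_dvd a1).resolve_left hd, (hp'.dvd_or_dvd a2).resolve_left hd⟩
      have h5 : DV (p : ℤ) Y0 := by
        have := h1.sub (h4.smul z)
        have e1 : Y0 + z • Z0 - z • Z0 = Y0 := by module
        rwa [e1] at this
      exact hprim p hpp h5 h4)
    (by intro p _ z z' h; exact h.elim) (Or.inr (fun _ h => h)) z0
  have hone : gcv (Y0 + z • Z0) = 1 := by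
    by_contra hne
    obtain ⟨p, hp, hpd⟩ := Nat.exists_prime_and_dvd hne
    have hD : DV (p : ℤ) (Y0 + z • Z0) := dv_iff_gcv.2 (by exact_mod_cast hpd)
    have e1 : (p : ℤ) ∣ cr Y Z := by
      have e2 := hD.cr_left Z0
      rw [cr_add_left, cr_smul_left, cr_self, mul_zero, add_zero] at e2
      rw [hcr]
      exact (e2.mul_left _).mul_left _
    have e2 : p ∈ (cr Y Z).natAbs.primeFactors := by
      rw [Nat.mem_primeFactors]
      exact ⟨hp, Int.natCast_dvd.1 e1, hM⟩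
    exact (hz3 p e2).1 hD
  refine ⟨z, hz1, ?_, ?_⟩
  · have : (4 ^ (cr Y Z).natAbs.primeFactors.card : ℤ) ≤ (J : ℤ) := by exact_mod_cast hcard
    linarith
  · intro d hd
    have e1 : Y + z • Z = (G : ℤ) • (Y0 + z • Z0) := by rw [hY, hZ]; module
    have e2 := dv_iff_gcv.1 hd
    rw [e1, gcv_smul, hone, mul_one, Int.natAbs_natCast] at e2
    exact ⟨hGY.of_dvd e2, hGZ.of_dvd e2⟩

section core
variable {h a0 e0 f0 D c : ℤ} {U Q : Z2}

/-- the relation of `exLXK` and `QSk` -/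
theorem qsk_of {A e f : ℤ} {V L P : Z2} {g : ℤ} (hA : 0 < A) (eA : A = h * a0) (ee : e = h * e0)
    (ef : f = h * f0) (eV : V = a0 • Q) (eL : L = e0 • Q) (eP : P = U + f0 • Q)
    (hs : ∀ j t i o k : ℤ, XCK A A e f e j t i o k → g ≤ gcv (XWK U V L P j t i o k)) :
    QSk h a0 e0 f0 U Q g := by
  intro j t i o k hq
  obtain ⟨ho, hi, hco, hk, h1, h3⟩ := hq
  subst eA ee ef eV eL eP
  have eF : XF (h * a0) (h * a0) (h * e0) (h * f0) (h * e0) j (t - i * j) i =
      t * (h * e0) + i * (h * f0) := by rw [XF]; ring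
  have hco' : IsCoprime (t - i * j) i := by
    have := hco.add_mul_left_left (-j)
    have e1 : t + i * -j = t - i * j := by ring
    rwa [e1] at this
  have h2 : 0 < o * (t * (h * e0) + i * (h * f0)) :=
    lt_of_le_of_lt (mul_nonneg (by omega) (mul_nonneg hi hA.le)) h1
  have hm := hs j (t - i * j) i o k ⟨ho, by omega, hi, hco', by rw [eF]; exact h1,
    by rw [eF]; exact h2, by rw [eF]; exact h3⟩
  have eW : XWK U (a0 • Q) (e0 • Q) (U + f0 • Q) j (t - i * j) i o k =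
      QWk a0 e0 f0 U Q j t i o k := by
    rw [XWK, QWk]; module
  rwa [eW] at hm

/-- **CORE INEQUALITY** -/
theorem QX.core (q : QX h a0 e0 f0 D U Q) {J X : ℕ} (hC : Cap J X)
    (hX : D * (h * (a0 + e0)) ≤ (X : ℤ)) (hS : QSk h a0 e0 f0 U Q c) {t i o : ℤ}
    (ho : o = 1 ∨ o = -1) (hi : 0 ≤ i) (hco : IsCoprime t i)
    (h1 : (J : ℤ) * (i * (h * a0)) < o * (t * (h * e0) + i * (h * f0)))
    (h3 : o * (t * (h * e0) + i * (h * f0)) ≤ h * e0) :
    ∃ d : ℤ, c ≤ d ∧ d ∣ (gcv U : ℤ) ∧ d ∣ a0 + e0 ∧ d ∣ a0 + o * (t * e0 + i * f0) := by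
  have hh := q.ph
  have ha := q.pa
  have he := q.pe
  have hD := q.pD
  have hoo : o * o = 1 := by rcases ho with rfl | rfl <;> norm_num
  have hiA : 0 ≤ i * (h * a0) := by positivity
  have hF : 0 < o * (t * (h * e0) + i * (h * f0)) :=
    lt_of_le_of_lt (mul_nonneg (Int.natCast_nonneg J) hiA) h1
  have eF : o * (t * (h * e0) + i * (h * f0)) = h * (o * (t * e0 + i * f0)) := by ring
  have hF0 : 0 < o * (t * e0 + i * f0) := by
    rw [eF] at hF
    exact (mul_pos_iff_of_pos_left hh).1 hF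
  have hF1 : o * (t * e0 + i * f0) ≤ e0 := by
    rw [eF] at h3
    exact le_of_mul_le_mul_left h3 hh
  -- the choice of `j`
  have c1 : cr U (-(a0 + e0) • Q) = -(D * (h * (a0 + e0))) := by
    rw [cr_smul_right, q.cUQ]; ring
  have hpos : 0 < D * (h * (a0 + e0)) := by positivity
  obtain ⟨j, -, -, hj⟩ := exists_gcv hC (Y := U) (Z := -(a0 + e0) • Q)
    (by rw [c1]; linarith) (by rw [c1, abs_neg, abs_of_pos hpos]; exact hX) 0
  obtain ⟨Uj, hUj⟩ : ∃ Uj : Z2, Uj = U - (j * (a0 + e0)) • Q := ⟨_, rfl⟩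
  have eUj : U + j • (-(a0 + e0) • Q) = Uj := by rw [hUj]; module
  rw [eUj] at hj
  have c2 : cr Uj Q = D * h := by
    rw [hUj, cr_sub_left, cr_smul_left, cr_self, q.cUQ]; ring
  -- the choice of `k`
  obtain ⟨Z, hZ⟩ : ∃ Z : Z2, Z = i • Uj + (o * a0 + t * e0 + i * f0) • Q := ⟨_, rfl⟩
  have c3 : cr Uj Z = o * (D * (h * (a0 + o * (t * e0 + i * f0)))) := by
    rw [hZ, cr_add_right, cr_smul_right, cr_smul_right, cr_self, c2]
    linear_combination (-(D * h * (t * e0 + i * f0))) * hoo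
  have hpos2 : 0 < D * (h * (a0 + o * (t * e0 + i * f0))) := by positivity
  have habs : |cr Uj Z| = D * (h * (a0 + o * (t * e0 + i * f0))) := by
    rw [c3]
    rcases ho with rfl | rfl
    · rw [one_mul, abs_of_pos (by simpa using hpos2)]
    · rw [neg_one_mul, abs_neg, abs_of_pos (by simpa using hpos2)]
  obtain ⟨k, hk1, hk2, hk⟩ := exists_gcv hC (Y := Uj) (Z := Z)
    (by
      intro h9
      rw [h9, abs_zero] at habs
      linarith)
    (by
      rw [habs]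
      refine le_trans (mul_le_mul_of_nonneg_left (mul_le_mul_of_nonneg_left ?_ hh.le) hD.le) hX
      linarith) 1
  have hkJ : k ≤ (J : ℤ) := by omega
  have hm := hS j t i o k ⟨ho, hi, hco, hk1,
    lt_of_le_of_lt (mul_le_mul_of_nonneg_right hkJ hiA) h1, h3⟩
  rw [QWk, ← hUj, ← hZ] at hm
  obtain ⟨d, hd⟩ : ∃ d : ℤ, d = (gcv (Uj + k • Z) : ℤ) := ⟨_, rfl⟩
  have hdW : DV d (Uj + k • Z) := by rw [hd]; exact dv_gcv _
  obtain ⟨g1, g2⟩ := hk d hdW
  obtain ⟨g3, g4⟩ := hj d g1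
  -- `d` is prime to `Q`
  have hco2 : IsCoprime d (gcv Q : ℤ) := by
    rw [Int.isCoprime_iff_gcd_eq_one]
    by_contra hne
    have e1 : ((Int.gcd d (gcv Q : ℤ) : ℕ) : ℤ) ∣ d := Int.gcd_dvd_left _ _
    have e2 : ((Int.gcd d (gcv Q : ℤ) : ℕ) : ℤ) ∣ (gcv Q : ℤ) := Int.gcd_dvd_right _ _
    have e3 := q.prim _ (g3.of_dvd e1) (dv_iff_gcv.2 e2)
    have e4 : Int.gcd d (gcv Q : ℤ) ∣ 1 := by exact_mod_cast e3
    exact hne (Nat.dvd_one.1 e4)
  have key : ∀ m : ℤ, DV d (m • Q) → d ∣ m := by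
    intro m hm
    have e1 := dv_iff_gcv.1 hm
    rw [gcv_smul] at e1
    push_cast at e1
    have e2 := hco2.dvd_of_dvd_mul_right e1
    rwa [dvd_abs] at e2
  refine ⟨d, by rw [hd]; exact hm, dv_iff_gcv.1 g3, ?_, ?_⟩
  · have := key _ g4
    rwa [dvd_neg] at this
  · have e1 : DV d ((o * a0 + t * e0 + i * f0) • Q) := by
      have := g2.sub (g1.smul i)
      have e2 : Z - i • Uj = (o * a0 + t * e0 + i * f0) • Q := by rw [hZ]; module
      rwa [e2] at this
    have e3 := (key _ e1).mul_left o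
    have e4 : o * (o * a0 + t * e0 + i * f0) = a0 + o * (t * e0 + i * f0) := by
      linear_combination a0 * hoo
    rwa [e4] at e3

/-- E4': the case `s1 = 0` -/
theorem QX.szeroK (q : QX h a0 e0 f0 D U Q) {J X : ℕ} (hC : Cap J X)
    (hX : D * (h * (a0 + e0)) ≤ (X : ℤ)) (hS : QSk h a0 e0 f0 U Q c) {q0 s z0 : ℤ}
    (hq : 2 ≤ q0) (hco : IsCoprime s q0) (ee : e0 = q0 * z0) (ef : f0 = s * z0)
    (hs : (J : ℤ) * (q0 * q0 * (h * a0)) < h * z0) : c ≤ 1 := by
  have hh := q.ph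
  have ha := q.pa
  have he := q.pe
  have hz0 : 0 < z0 := by
    rw [ee] at he
    exact (mul_pos_iff_of_pos_left (by omega)).1 he
  -- `s i' = 1 mod q0`
  obtain ⟨x, y, hxy⟩ := hco
  obtain ⟨i', hi'⟩ : ∃ i' : ℤ, i' = x % q0 := ⟨_, rfl⟩
  have hi0 : 0 ≤ i' := by rw [hi']; exact Int.emod_nonneg _ (by omega)
  have hi1 : i' < q0 := by rw [hi']; exact Int.emod_lt_of_pos _ (by omega)
  obtain ⟨c', hc'⟩ : ∃ c' : ℤ, s * i' - q0 * c' = 1 := by
    refine ⟨-(y + s * (x / q0)), ?_⟩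
    have e1 := Int.emod_add_mul_ediv x q0
    rw [hi']
    linear_combination s * e1 + hxy
  obtain ⟨t, ht⟩ : ∃ t : ℤ, t = -(q0 - 1) * c' - s := ⟨_, rfl⟩
  obtain ⟨i, hi⟩ : ∃ i : ℤ, i = (q0 - 1) * i' + q0 := ⟨_, rfl⟩
  have hcoti : IsCoprime t i := by
    refine ⟨-i', -c', ?_⟩
    rw [ht, hi]
    linear_combination hc'
  have hi2 : 0 ≤ i := by
    rw [hi]
    have : 0 ≤ (q0 - 1) * i' := mul_nonneg (by omega) hi0
    omega
  have hi3 : i ≤ q0 * q0 := by
    rw [hi]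
    have : (q0 - 1) * i' ≤ (q0 - 1) * q0 := mul_le_mul_of_nonneg_left hi1.le (by omega)
    linarith
  have eF : t * e0 + i * f0 = (q0 - 1) * z0 := by
    rw [ht, hi, ee, ef]
    linear_combination ((q0 - 1) * z0) * hc'
  have eF' : (1 : ℤ) * (t * (h * e0) + i * (h * f0)) = h * ((q0 - 1) * z0) := by
    rw [← eF]; ring
  obtain ⟨d, hd1, hd2, hd3, hd4⟩ := q.core hC hX hS (t := t) (i := i) (o := 1) (Or.inl rfl) hi2
    hcoti
    (by
      rw [eF']
      have e1 : (J : ℤ) * (i * (h * a0)) ≤ J * (q0 * q0 * (h * a0)) :=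
        mul_le_mul_of_nonneg_left (mul_le_mul_of_nonneg_right hi3 (by positivity))
          (Int.natCast_nonneg J)
      have e2 : h * z0 ≤ h * ((q0 - 1) * z0) := by
        refine mul_le_mul_of_nonneg_left ?_ hh.le
        have : 1 * z0 ≤ (q0 - 1) * z0 := mul_le_mul_of_nonneg_right (by omega) hz0.le
        linarith
      linarith)
    (by
      rw [eF', ee]
      refine mul_le_mul_of_nonneg_left ?_ hh.le
      exact mul_le_mul_of_nonneg_right (by omega) hz0.le)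
  rw [eF] at hd4
  have g1 : d ∣ z0 := by
    have := dvd_sub hd3 hd4
    rw [ee] at this
    have e1 : a0 + q0 * z0 - (a0 + 1 * ((q0 - 1) * z0)) = z0 := by ring
    rwa [e1] at this
  have g2 : d ∣ e0 := by rw [ee]; exact g1.mul_left _
  have g3 : d ∣ f0 := by rw [ef]; exact g1.mul_left _
  have g4 : d ∣ a0 := by
    have := dvd_sub hd3 g2
    have e1 : a0 + e0 - e0 = a0 := by ring
    rwa [e1] at this
  have g5 := q.cop d g4 g2 g3
  have := Int.le_of_dvd one_pos g5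
  linarith

/-- E4' with the hypotheses of the assembly -/
theorem QX.szero_k (q : QX h a0 e0 f0 D U Q) {J X : ℕ} (hJ : 1 ≤ J) (hC : Cap J X)
    (hX : 64 * D * (h * e0) ^ 4 ≤ (X : ℤ)) (hS : QSk h a0 e0 f0 U Q c) {q0 s z0 : ℤ}
    (ee : e0 = q0 * z0) (ef : f0 = s * z0) (hco : IsCoprime s q0) (hq : 2 ≤ q0)
    (hq2 : q0 < 8 * ((J : ℤ) + 1)) (hs : (8 * ((J : ℤ) + 1)) ^ 4 * (h * a0) ≤ h * e0) :
    c ≤ 1 := by
  have hh := q.ph
  have ha := q.pa
  have he := q.pe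
  have hD := q.pD
  have hJ1 : (1 : ℤ) ≤ (J : ℤ) := by exact_mod_cast hJ
  obtain ⟨K, hK⟩ : ∃ K : ℤ, K = 8 * ((J : ℤ) + 1) := ⟨_, rfl⟩
  rw [← hK] at hq2 hs
  have hJK : (J : ℤ) < K := by omega
  have hA : 0 < h * a0 := by positivity
  have he' : 0 < h * e0 := by positivity
  have e1 : (J : ℤ) * (q0 * q0 * q0 * (h * a0)) < K ^ 4 * (h * a0) := by
    have hK0 : 0 < K := by omega
    have hq0 : 0 < q0 := by omega
    have a1 : q0 * q0 ≤ K * K := mul_le_mul hq2.le hq2.le (by omega) (by omega)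
    have a2 : q0 * q0 * q0 ≤ K * K * K := mul_le_mul a1 hq2.le (by omega) (by positivity)
    have a3 : (J : ℤ) * (q0 * q0 * q0) ≤ J * (K * K * K) := mul_le_mul_of_nonneg_left a2 (by omega)
    have a4 : (J : ℤ) * (K * K * K) < K * (K * K * K) :=
      mul_lt_mul_of_pos_right hJK (by positivity)
    have a5 : (J : ℤ) * (q0 * q0 * q0) * (h * a0) < K * (K * K * K) * (h * a0) :=
      mul_lt_mul_of_pos_right (lt_of_le_of_lt a3 a4) hA
    have a6 : K * (K * K * K) * (h * a0) = K ^ 4 * (h * a0) := by ring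
    have a7 : (J : ℤ) * (q0 * q0 * q0) * (h * a0) = (J : ℤ) * (q0 * q0 * q0 * (h * a0)) := by ring
    linarith
  refine q.szeroK hC ?_ hS hq hco ee ef ?_
  · have a1 : h * a0 ≤ h * e0 := by
      have : 1 ≤ K ^ 4 := one_le_pow₀ (by omega)
      have := mul_le_mul_of_nonneg_right this hA.le
      linarith
    have a2 : D * (h * (a0 + e0)) ≤ D * (2 * (h * e0)) :=
      mul_le_mul_of_nonneg_left (by linarith) hD.le
    have a3 : h * e0 ≤ (h * e0) ^ 4 := by
      have : 1 ≤ (h * e0) ^ 3 := one_le_pow₀ (by omega)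
      have := mul_le_mul_of_nonneg_right this he'.le
      linarith
    have a4 : D * (2 * (h * e0)) ≤ D * (64 * (h * e0) ^ 4) :=
      mul_le_mul_of_nonneg_left (by linarith) hD.le
    linarith
  · have a1 : q0 * ((J : ℤ) * (q0 * q0 * (h * a0))) < q0 * (h * z0) := by
      have b1 : q0 * ((J : ℤ) * (q0 * q0 * (h * a0))) = (J : ℤ) * (q0 * q0 * q0 * (h * a0)) := by
        ring
      have b2 : q0 * (h * z0) = h * e0 := by rw [ee]; ring
      rw [b1, b2]
      linarith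
    exact lt_of_mul_lt_mul_left a1 (by omega)

/-- the case `b' = A`: `a0 = 1` -/
theorem QX.a0one (q : QX h a0 e0 f0 D U Q) {J X : ℕ} (hC : Cap J X)
    (hX : D * (h * (a0 + e0)) ≤ (X : ℤ)) (hS : QSk h a0 e0 f0 U Q (h * a0))
    (hU : (gcv U : ℤ) = h * a0) (hf0 : 0 ≤ f0) (hf1 : f0 ≤ e0)
    (hs : 2 * ((J : ℤ) * (h * a0)) < h * e0) : a0 = 1 := by
  have hh := q.ph
  have ha := q.pa
  have he := q.pe
  have hA : 0 < h * a0 := by positivity
  have hfe : h * f0 ≤ h * e0 := mul_le_mul_of_nonneg_left hf1 hh.le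
  have hf : 0 ≤ h * f0 := by positivity
  have fin : ∀ d : ℤ, h * a0 ≤ d → d ∣ (gcv U : ℤ) → a0 ∣ d := by
    intro d h1 h2
    rw [hU] at h2
    have h3 := Int.le_of_dvd hA h2
    have h4 : d = h * a0 := le_antisymm h3 h1
    rw [h4]
    exact Dvd.intro_left h rfl
  have key : a0 ∣ 1 := by
    rcases lt_or_ge ((J : ℤ) * (h * a0)) (h * f0) with hc | hc
    · obtain ⟨d, hd1, hd2, hd3, hd4⟩ := q.core hC hX hS (t := 0) (i := 1) (o := 1) (Or.inl rfl)
        zero_le_one isCoprime_one_right (by linarith) (by linarith)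
      have g1 := fin d hd1 hd2
      have g2 : a0 ∣ e0 := (dvd_add_right (dvd_refl a0)).1 (g1.trans hd3)
      have g3 : a0 ∣ f0 := by
        have := (dvd_add_right (dvd_refl a0)).1 (g1.trans hd4)
        have e1 : (1 : ℤ) * (0 * e0 + 1 * f0) = f0 := by ring
        rwa [e1] at this
      exact q.cop a0 (dvd_refl _) g2 g3
    · obtain ⟨d, hd1, hd2, hd3, hd4⟩ := q.core hC hX hS (t := -1) (i := 1) (o := -1)
        (Or.inr rfl) zero_le_one isCoprime_one_right (by linarith) (by linarith)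
      have g1 := fin d hd1 hd2
      have g2 : a0 ∣ e0 := (dvd_add_right (dvd_refl a0)).1 (g1.trans hd3)
      have g3 : a0 ∣ f0 := by
        have := (dvd_add_right (dvd_refl a0)).1 (g1.trans hd4)
        have e1 : (-1 : ℤ) * (-1 * e0 + 1 * f0) = e0 - f0 := by ring
        rw [e1] at this
        have e2 := dvd_sub g2 this
        have e3 : e0 - (e0 - f0) = f0 := by ring
        rwa [e3] at e2
      exact q.cop a0 (dvd_refl _) g2 g3
  exact Int.eq_one_of_dvd_one ha.le key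

end core

end Pool.Agent.H4G
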