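import Pool.Agent.H4G.Asym.Defs
import Pool.Agent.H4G.Arith.Full

/-!
# Definitions for the case `A = b` of the reduction to `b = 1`, all `N` (helper96)
-/

set_option autoImplicit false

namespace Pool.Agent.H4G

/-- The reduced data of one side of a state with `A = b`: `A = h a0`, `e = h e0`, `f = h f0`, and the
vectors of products are `U`, `V = a0 Q`, `L = e0 Q`, `P = U + f0 Q`. -/
structure QX (h a0 e0 f0 D : ℤ) (U Q : Z2) : Prop where
  ph : 0 < h
  pa : 0 < a0
  pe : 0 < e0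
  pD : 0 < D
  cop : ∀ d : ℤ, d ∣ a0 → d ∣ e0 → d ∣ f0 → d ∣ 1
  cUQ : cr U Q = D * h
  prim : ∀ d : ℤ, DV d U → DV d Q → d ∣ 1

/-- the vector of an exit -/
def QW (a0 e0 f0 : ℤ) (U Q : Z2) (j t i o : ℤ) : Z2 :=
  (1 + i) • U + (o * a0 + t * e0 + i * f0 - j * (1 + i) * (a0 + e0)) • Q

/-- the conditions of an exit -/
structure QC (A e f t i o : ℤ) : Prop where
  o1 : o = 1 ∨ o = -1
  i0 : 0 ≤ i
  cop : IsCoprime t i
  lo : i * A < o * (t * e + i * f)
  hi : o * (t * e + i * f) ≤ e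

/-- all exits have `gcd ≥ c` -/
def QS (h a0 e0 f0 : ℤ) (U Q : Z2) (c : ℤ) : Prop :=
  ∀ j t i o : ℤ, QC (h * a0) (h * e0) (h * f0) t i o → c ≤ gcv (QW a0 e0 f0 U Q j t i o)

/-- FRAME: a state with `A = b = β` (`β` a lower bound of all gaps of the class), of area `a'` on the
right, and with the smallest `b'` among the equivalent states of this kind with the same `a'`. -/
structure FM (S : PSt) (β b' a' : ℤ) : Prop where
  ok : S.Ok
  full : S.Full
  hA : cr S.u S.v = β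
  hb : IsC S.L S.v β
  hb' : IsC S.L' S.u b'
  ha' : IsArea S.L' a'
  lb : ∀ (T : PSt) (c : ℤ), SEq S T → IsC T.L T.v c → β ≤ c
  min : ∀ (T : PSt) (c' : ℤ), SEq S T → cr T.u T.v = β → IsC T.L T.v β → IsArea T.L' a' →
    IsC T.L' T.u c' → b' ≤ c'

end Pool.Agent.H4G
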