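import Pool.Agent.H4G.Cone.Defs

/-!
# Row E1 of line C1: the reduced data of one side of a state with `A = b` (helper98)
-/

set_option autoImplicit false

namespace Pool.Agent.H4G

theorem par_zero {U V T : Z2} (h0 : cr U V ≠ 0) (h1 : cr U T = 0) (h2 : cr T V = 0) : T = 0 := by
  have h3 := cr_dep T U V
  rw [cr_swap V T, h2, cr_swap T U, h1, neg_zero, zero_smul, zero_smul, add_zero, add_zero] at h3
  have : cr U V • T = cr U V • (0 : Z2) := by rw [h3, smul_zero]
  exact smul_inj h0 this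

theorem exists_gcd3 {A e f : ℤ} (hA : 0 < A) (he : 0 < e) : ∃ h a0 e0 f0 x y z : ℤ, 0 < h ∧
    0 < a0 ∧ 0 < e0 ∧ A = h * a0 ∧ e = h * e0 ∧ f = h * f0 ∧ x * a0 + y * e0 + z * f0 = 1 := by
  set g : ℤ := (Int.gcd A e : ℤ) with hg
  have hg0 : 0 < g := by
    rw [hg]; exact_mod_cast Int.gcd_pos_of_ne_zero_left _ hA.ne'
  set h : ℤ := (Int.gcd g f : ℤ) with hh
  have hh0 : 0 < h := by
    rw [hh]; exact_mod_cast Int.gcd_pos_of_ne_zero_left _ hg0.ne'
  have d1 : h ∣ g := Int.gcd_dvd_left _ _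
  have d2 : h ∣ f := Int.gcd_dvd_right _ _
  have d3 : h ∣ A := d1.trans (Int.gcd_dvd_left _ _)
  have d4 : h ∣ e := d1.trans (Int.gcd_dvd_right _ _)
  obtain ⟨a0, ha0⟩ := d3
  obtain ⟨e0, he0⟩ := d4
  obtain ⟨f0, hf0⟩ := d2
  have e1 := Int.gcd_eq_gcd_ab A e
  have e2 := Int.gcd_eq_gcd_ab g f
  rw [← hg] at e1
  rw [← hh] at e2
  refine ⟨h, a0, e0, f0, Int.gcdA A e * Int.gcdA g f, Int.gcdB A e * Int.gcdA g f,
    Int.gcdB g f, hh0, ?_, ?_, ha0, he0, hf0, ?_⟩
  · rw [ha0] at hA; exact (mul_pos_iff_of_pos_left hh0).1 hA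
  · rw [he0] at he; exact (mul_pos_iff_of_pos_left hh0).1 he
  · have e3 : h * (Int.gcdA A e * Int.gcdA g f * a0 + Int.gcdB A e * Int.gcdA g f * e0 +
        Int.gcdB g f * f0) = h * 1 := by
      calc h * (Int.gcdA A e * Int.gcdA g f * a0 + Int.gcdB A e * Int.gcdA g f * e0 +
            Int.gcdB g f * f0)
          = (h * a0) * Int.gcdA A e * Int.gcdA g f + (h * e0) * Int.gcdB A e * Int.gcdA g f +
            (h * f0) * Int.gcdB g f := by ring
        _ = (A * Int.gcdA A e + e * Int.gcdB A e) * Int.gcdA g f + f * Int.gcdB g f := by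
            rw [← ha0, ← he0, ← hf0]; ring
        _ = h * 1 := by rw [← e1, ← e2, mul_one]
    exact mul_left_cancel₀ hh0.ne' e3

section arith
variable {A h a0 e0 f0 e f a D : ℤ} {U Q V L P : Z2} {J X : ℕ}

/-- E1 -/
theorem LX.toQX (hx : LX A A e f e D U V L P) : ∃ (h a0 e0 f0 : ℤ) (Q : Z2),
    QX h a0 e0 f0 D U Q ∧ A = h * a0 ∧ e = h * e0 ∧ f = h * f0 ∧ V = a0 • Q ∧ L = e0 • Q ∧
    P = U + f0 • Q ∧ ∀ j t i o : ℤ, QC A e f t i o → XC A A e f e j (t - i * j) i o ∧
      XW U V L P j (t - i * j) i o = QW a0 e0 f0 U Q j t i o := by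
  obtain ⟨h, a0, e0, f0, x, y, z, hh, ha, he, rA, re, rf, hb⟩ := exists_gcd3 (f := f) hx.A0 hx.e0
  set R : Z2 := P - U with hR
  set Q : Z2 := x • V + y • L + z • R with hQ
  have hUV := hx.hUV
  have hUL := hx.hUL
  have hLV := hx.hLV
  have hUR : cr U R = D * f := by rw [hR, cr_sub_right, hx.hUP, cr_self]; ring
  have hRV : cr R V = 0 := by rw [hR, cr_sub_left, hx.hPV, hx.hUV]; ring
  have hRL : cr R L = 0 := by rw [hR, cr_sub_left, hx.hPL, hx.hUL]; ring
  have hne : cr U V ≠ 0 := by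
    rw [hUV]; exact (mul_pos hx.D0 hx.A0).ne'
  have hUQ : cr U Q = D * h := by
    rw [hQ, cr_add_right, cr_add_right, cr_smul_right, cr_smul_right, cr_smul_right, hUV, hUL,
      hUR, rA, re, rf]
    linear_combination (D * h) * hb
  have hQV : cr Q V = 0 := by
    rw [hQ, cr_add_left, cr_add_left, cr_smul_left, cr_smul_left, cr_smul_left, cr_self, hLV,
      hRV]; ring
  have eV : V = a0 • Q := by
    have := par_zero (T := V - a0 • Q) hne
      (by rw [cr_sub_right, cr_smul_right, hUV, hUQ, rA]; ring)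
      (by rw [cr_sub_left, cr_smul_left, cr_self, hQV]; ring)
    exact sub_eq_zero.1 this
  have eL : L = e0 • Q := by
    have := par_zero (T := L - e0 • Q) hne
      (by rw [cr_sub_right, cr_smul_right, hUL, hUQ, re]; ring)
      (by rw [cr_sub_left, cr_smul_left, hLV, hQV]; ring)
    exact sub_eq_zero.1 this
  have eR : R = f0 • Q := by
    have := par_zero (T := R - f0 • Q) hne
      (by rw [cr_sub_right, cr_smul_right, hUR, hUQ, rf]; ring)
      (by rw [cr_sub_left, cr_smul_left, hRV, hQV]; ring)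
    exact sub_eq_zero.1 this
  have eP : P = U + f0 • Q := by rw [← eR, hR]; abel
  refine ⟨h, a0, e0, f0, Q, ⟨hh, ha, he, hx.D0, ?_, hUQ, ?_⟩, rA, re, rf, eV, eL, eP, ?_⟩
  · intro d h1 h2 h3
    rw [← hb]
    exact dvd_add (dvd_add (h1.mul_left _) (h2.mul_left _)) (h3.mul_left _)
  · intro d h1 h2
    refine hx.prim d h1 ?_ ?_ ?_
    · rw [eV]; exact ⟨by simpa using h2.1.mul_left a0, by simpa using h2.2.mul_left a0⟩
    · rw [eL]; exact ⟨by simpa using h2.1.mul_left e0, by simpa using h2.2.mul_left e0⟩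
    · rw [eP]
      exact ⟨by simpa using dvd_add h1.1 (h2.1.mul_left f0),
        by simpa using dvd_add h1.2 (h2.2.mul_left f0)⟩
  · intro j t i o hq
    have eF : XF A A e f e j (t - i * j) i = t * e + i * f := by
      unfold XF; ring
    refine ⟨⟨hq.o1, hq.i0, ?_, ?_, ?_⟩, ?_⟩
    · obtain ⟨α, β, hab⟩ := hq.cop
      exact ⟨α, β + α * j, by linear_combination hab⟩
    · rw [eF]; exact hq.lo
    · rw [eF]; exact hq.hi
    · unfold XW QW
      rw [eV, eL, eP]
      module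

end arith

end Pool.Agent.H4G
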