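import Pool.Agent.H4G.Cone.Defs
import Pool.Agent.H4G.Asym.Fat1
import Pool.Agent.H4G.Asym.R6

/-!
# Rows E2, E3: long lines, Dirichlet (helper41)
-/

set_option autoImplicit false

namespace Pool.Agent.H4G

variable {h a0 e0 f0 D : ℤ} {U Q : Z2}

theorem DV.prime_smul_or {p : ℕ} (hp : p.Prime) {c : ℤ} {x : Z2} (hd : DV (p : ℤ) (c • x)) :
    (p : ℤ) ∣ c ∨ DV (p : ℤ) x := by
  by_cases hc : (p : ℤ) ∣ c
  · exact Or.inl hc
  · exact Or.inr (DV.prime_smul hp hd hc)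

theorem DV.smul_of_dvd {d c : ℤ} (hc : d ∣ c) (x : Z2) : DV d (c • x) :=
  ⟨by rw [Prod.smul_fst, smul_eq_mul]; exact hc.mul_right _,
   by rw [Prod.smul_snd, smul_eq_mul]; exact hc.mul_right _⟩

theorem not_dvd_one_prime {p : ℕ} (hp : p.Prime) (h1 : (p : ℤ) ∣ 1) : False := by
  have h2 : p ∣ 1 := by exact_mod_cast h1
  exact hp.one_lt.ne' (Nat.dvd_one.1 h2)

theorem QX.dvd_Dh (q : QX h a0 e0 f0 D U Q) {p : ℕ} (hQ : DV (p : ℤ) Q) : (p : ℤ) ∣ D * h := by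
  have := hQ.cr_right U
  rw [q.cUQ] at this
  exact this

/-- the choice of `j` -/
theorem QX.exj (q : QX h a0 e0 f0 D U Q) (o : ℤ) : ∃ j : ℤ, ∀ p : ℕ, p.Prime →
    ¬ (DV (p : ℤ) (e0 • Q) ∧ DV (p : ℤ) (U - (j * (a0 + e0)) • Q + f0 • Q) ∧
      DV (p : ℤ) (U - (j * (a0 + e0)) • Q + (o * a0) • Q)) := by
  have hne : e0 * (D * h) ≠ 0 := (mul_pos q.pe (mul_pos q.pD q.ph)).ne'
  obtain ⟨j, -, -, hj⟩ := sieve2 ((e0 * (D * h)).natAbs.primeFactors)
    (fun p hp => Nat.prime_of_mem_primeFactors hp)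
    (fun p j => DV (p : ℤ) (e0 • Q) ∧ DV (p : ℤ) (U - (j * (a0 + e0)) • Q + f0 • Q) ∧
      DV (p : ℤ) (U - (j * (a0 + e0)) • Q + (o * a0) • Q))
    (fun _ _ => False)
    (fun p hp z z' hz hz' => by
      have hpp := Nat.prime_of_mem_primeFactors hp
      by_contra hd
      -- (z - z') s0 Q
      have h1 : DV (p : ℤ) ((z - z') • ((a0 + e0) • Q)) := by
        have h2 := hz'.2.1.sub hz.2.1
        have e1 : U - (z' * (a0 + e0)) • Q + f0 • Q - (U - (z * (a0 + e0)) • Q + f0 • Q) =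
          (z - z') • ((a0 + e0) • Q) := by module
        rwa [e1] at h2
      have h2 : DV (p : ℤ) ((a0 + e0) • Q) := DV.prime_smul hpp h1 hd
      have h3 : DV (p : ℤ) (U + (o * a0) • Q) := by
        have h4 := hz.2.2.add (h2.smul z)
        have e1 : U - (z * (a0 + e0)) • Q + (o * a0) • Q + z • ((a0 + e0) • Q) =
          U + (o * a0) • Q := by module
        rwa [e1] at h4
      have h4 : DV (p : ℤ) (U + f0 • Q) := by
        have h4 := hz.2.1.add (h2.smul z)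
        have e1 : U - (z * (a0 + e0)) • Q + f0 • Q + z • ((a0 + e0) • Q) = U + f0 • Q := by
          module
        rwa [e1] at h4
      have h5 : DV (p : ℤ) (a0 • Q) := by
        have h6 := h2.sub hz.1
        have e1 : (a0 + e0) • Q - e0 • Q = a0 • Q := by module
        rwa [e1] at h6
      have h6 : DV (p : ℤ) U := by
        have h7 := h3.sub (h5.smul o)
        have e1 : U + (o * a0) • Q - o • (a0 • Q) = U := by module
        rwa [e1] at h7
      have h7 : DV (p : ℤ) (f0 • Q) := by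
        have h8 := h4.sub h6
        have e1 : U + f0 • Q - U = f0 • Q := by module
        rwa [e1] at h8
      by_cases hQ : DV (p : ℤ) Q
      · exact not_dvd_one_prime hpp (q.prim p h6 hQ)
      · exact not_dvd_one_prime hpp (q.cop p ((DV.prime_smul_or hpp h5).resolve_right hQ)
          ((DV.prime_smul_or hpp hz.1).resolve_right hQ)
          ((DV.prime_smul_or hpp h7).resolve_right hQ)))
    (fun p _ z z' hz _ => hz.elim) (Or.inr fun _ hz => hz) 0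
  refine ⟨j, fun p hp hbad => ?_⟩
  have hmem : (p : ℤ) ∣ e0 * (D * h) := by
    rcases DV.prime_smul_or hp hbad.1 with h1 | h1
    · exact h1.mul_right _
    · exact (q.dvd_Dh h1).mul_left _
  exact (hj p (mem_pf hp hne hmem)).1 hbad


theorem e2_n1 {J i1 A e : ℤ} (hJ : 1 ≤ J) (hi : 0 < i1) (hA : 0 < A)
    (h : 8 * (J + 1) * i1 * A ≤ e) : i1 * A ≤ e := by
  have h1 : 0 < i1 * A := mul_pos hi hA
  nlinarith

theorem e2_n2 {i1 e D h X : ℤ} (hD : 0 < D) (hi0 : 0 < i1) (he1 : 1 ≤ e) (hh : 0 < h)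
    (hi1e' : i1 ≤ e) (hDh : D * h ≤ D * e) (hX : 64 * D * e ^ 4 ≤ X) :
    2 * i1 * (D * h) ≤ X := by
  have h1 : i1 * (D * h) ≤ e * (D * e) := mul_le_mul hi1e' hDh (by positivity) (by linarith)
  have h2 : D * e ^ 2 ≤ D * e ^ 4 :=
    mul_le_mul_of_nonneg_left (pow_le_pow_right₀ he1 (by norm_num)) hD.le
  have h3 : 0 ≤ D * e ^ 4 := by positivity
  have h4 : e * (D * e) = D * e ^ 2 := by ring
  linarith

theorem e2_n3 {τ0 e D S s A1 X : ℤ} (hD : 0 < D) (hτ : 0 < τ0) (he1 : 1 ≤ e) (hs0 : 0 ≤ s)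
    (hA0 : 0 ≤ A1) (hs : s ≤ e) (hA : A1 ≤ e) (h1 : τ0 ≤ e) (hS : S = s + A1 + τ0 * e)
    (hX : 64 * D * e ^ 4 ≤ X) : D * S * τ0 ≤ X := by
  have h2 : τ0 * e ≤ e * e := mul_le_mul_of_nonneg_right h1 (by linarith)
  have h4 : e * 1 ≤ e * e := mul_le_mul_of_nonneg_left he1 (by linarith)
  have h3 : S ≤ 3 * e ^ 2 := by
    have h5 : e ^ 2 = e * e := by ring
    rw [hS, h5]; linarith
  have h5 : D * S * τ0 ≤ D * (3 * e ^ 2) * e :=
    mul_le_mul (mul_le_mul_of_nonneg_left h3 hD.le) h1 hτ.le (by positivity)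
  have h6 : D * e ^ 3 ≤ D * e ^ 4 :=
    mul_le_mul_of_nonneg_left (pow_le_pow_right₀ he1 (by norm_num)) hD.le
  have h7 : 0 ≤ D * e ^ 4 := by positivity
  have h8 : D * (3 * e ^ 2) * e = 3 * (D * e ^ 3) := by ring
  linarith

theorem e2_n4 {i1 k B : ℤ} (hi : 0 < i1) (h : -(B / i1) ≤ k) : 0 ≤ B + k * i1 := by
  have h1 : -(B / i1) * i1 ≤ k * i1 := mul_le_mul_of_nonneg_right h hi.le
  have h2 := Int.mul_ediv_add_emod B i1
  have h3 := Int.emod_nonneg B hi.ne'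
  have h4 : -(B / i1) * i1 = -(i1 * (B / i1)) := by ring
  linarith

theorem e2_n5 {i1 k B J : ℤ} (hi : 0 < i1) (h : k ≤ -(B / i1) + J - 1) :
    B + k * i1 ≤ J * i1 := by
  have h1 : k * i1 ≤ (-(B / i1) + J - 1) * i1 := mul_le_mul_of_nonneg_right h hi.le
  have h2 := Int.mul_ediv_add_emod B i1
  have h3 := Int.emod_lt_of_pos B hi
  have h4 : (-(B / i1) + J - 1) * i1 = -(i1 * (B / i1)) + J * i1 - i1 := by ring
  linarith

theorem e2_n6 {i i1 J A s τ0 e : ℤ} (hi0 : 0 ≤ i) (hi1 : 0 < i1) (hJ : 1 ≤ J) (hA : 0 < A)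
    (hs0 : 0 ≤ s) (hiJ : i ≤ J * i1) (hs : s ≤ i1 * A) (hi1e : 8 * (J + 1) * i1 * A ≤ e)
    (he : 0 < e) (hτ1 : i1 ≤ 2 * τ0) : i1 * (i * A) < τ0 * e - i * s := by
  have h2 : i * (i1 * A + s) ≤ J * i1 * (2 * (i1 * A)) :=
    mul_le_mul hiJ (by linarith) (by positivity) (by positivity)
  have h3 : i1 * (8 * (J + 1) * i1 * A) ≤ i1 * e := mul_le_mul_of_nonneg_left hi1e hi1.le
  have h4 : i1 * e ≤ 2 * τ0 * e := mul_le_mul_of_nonneg_right hτ1 he.le
  have h5 : 0 < i1 * (i1 * A) := by positivity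
  have h6 : 0 ≤ J * (i1 * (i1 * A)) := by positivity
  have h7 : i1 * (8 * (J + 1) * i1 * A) = 8 * (J * (i1 * (i1 * A))) + 8 * (i1 * (i1 * A)) := by
    ring
  have h8 : J * i1 * (2 * (i1 * A)) = 2 * (J * (i1 * (i1 * A))) := by ring
  have h9 : i * (i1 * A + s) = i1 * (i * A) + i * s := by ring
  linarith

/-- **E2**: a long line gives an exit with `gcd = 1` -/
theorem QX.s1 {J X : ℕ} (q : QX h a0 e0 f0 D U Q) (hJ : 1 ≤ J) (hC : Cap J X)
    (hX : 64 * D * (h * e0) ^ 4 ≤ (X : ℤ)) {i1 k0 : ℤ} (hco : IsCoprime k0 i1)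
    (hi1 : 8 * ((J : ℤ) + 1) ≤ i1) (hi1e : 8 * ((J : ℤ) + 1) * i1 * (h * a0) ≤ h * e0)
    (hs : |i1 * (h * f0) - k0 * (h * e0)| ≤ 8 * ((J : ℤ) + 1) * (h * a0)) :
    ∃ j t i o : ℤ, QC (h * a0) (h * e0) (h * f0) t i o ∧ gcv (QW a0 e0 f0 U Q j t i o) = 1 := by
  have hh := q.ph
  have ha := q.pa
  have he0 := q.pe
  have hD := q.pD
  have hJ1 : (1 : ℤ) ≤ (J : ℤ) := by exact_mod_cast hJ
  obtain ⟨A, hA⟩ : ∃ A, A = h * a0 := ⟨_, rfl⟩
  obtain ⟨e, he⟩ : ∃ e, e = h * e0 := ⟨_, rfl⟩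
  obtain ⟨f, hf⟩ : ∃ f, f = h * f0 := ⟨_, rfl⟩
  rw [← hA, ← he] at hi1e
  rw [← hA, ← he, ← hf] at hs
  rw [← he] at hX
  rw [← hA, ← he, ← hf]
  have hApos : 0 < A := by rw [hA]; exact mul_pos hh ha
  have hepos : 0 < e := by rw [he]; exact mul_pos hh he0
  have hi1pos : 0 < i1 := by linarith
  obtain ⟨v0, u0, huv⟩ := hco
  -- v0 * k0 + u0 * i1 = 1
  obtain ⟨s1, hs1⟩ : ∃ s1, s1 = i1 * f - k0 * e := ⟨_, rfl⟩
  rw [← hs1] at hs
  obtain ⟨σ, hσ⟩ : ∃ σ, σ = i1 * f0 - k0 * e0 := ⟨_, rfl⟩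
  have hsσ : s1 = h * σ := by rw [hs1, hσ, hf, he]; ring
  obtain ⟨o, ho, hos⟩ : ∃ o : ℤ, (o = 1 ∨ o = -1) ∧ o * s1 = -|s1| := by
    rcases le_total s1 0 with h1 | h1
    · exact ⟨1, Or.inl rfl, by rw [abs_of_nonpos h1]; ring⟩
    · exact ⟨-1, Or.inr rfl, by rw [abs_of_nonneg h1]; ring⟩
  have hoo : o * o = 1 := by rcases ho with rfl | rfl <;> norm_num
  have hs1' : s1 = -(o * |s1|) := by
    have : o * (o * s1) = o * (-|s1|) := by rw [hos]
    rw [← mul_assoc, hoo, one_mul] at this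
    linarith [mul_neg o |s1|]
  have habs0 : 0 ≤ |s1| := abs_nonneg _
  have hi1A : |s1| ≤ i1 * A := hs.trans (mul_le_mul_of_nonneg_right hi1 hApos.le)
  -- sizes
  have hA1 : 1 ≤ A := hApos
  have he1 : 1 ≤ e := hepos
  have hDh : D * h ≤ D * e := by
    refine mul_le_mul_of_nonneg_left ?_ hD.le
    rw [he]
    exact le_mul_of_one_le_right hh.le he0
  have hi1le : i1 * A ≤ e := e2_n1 hJ1 hi1pos hApos hi1e
  have hi1e' : i1 ≤ e := (le_mul_of_one_le_right hi1pos.le hA1).trans hi1le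
  have hsle : |s1| ≤ e := hi1A.trans hi1le
  obtain ⟨j, hj⟩ := q.exj o
  obtain ⟨Xj, hXj⟩ : ∃ Xj, Xj = U - (j * (a0 + e0)) • Q := ⟨_, rfl⟩
  rw [← hXj] at hj
  obtain ⟨R, hR⟩ : ∃ R, R = i1 • Xj + σ • Q := ⟨_, rfl⟩
  obtain ⟨T, hT⟩ : ∃ T, T = v0 • Xj + (u0 * e0 + v0 * f0) • Q := ⟨_, rfl⟩
  obtain ⟨Uj, hUj⟩ : ∃ Uj, Uj = Xj + (o * a0) • Q := ⟨_, rfl⟩
  have hcXQ : cr Xj Q = D * h := by
    rw [hXj, cr_sub_left, cr_smul_left, cr_self, q.cUQ]; ring
  have hcQX : cr Q Xj = -(D * h) := by rw [cr_swap, hcXQ]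
  have hcRQ : cr R Q = i1 * (D * h) := by
    rw [hR, cr_add_left, cr_smul_left, cr_smul_left, cr_self, hcXQ]; ring
  -- the vector on the line
  have hW : ∀ τ k : ℤ, QW a0 e0 f0 U Q j (τ * u0 - k * k0) (τ * v0 + k * i1) o =
      Uj + τ • T + k • R := by
    intro τ k
    rw [hUj, hT, hR, hXj, hσ]
    unfold QW
    module
  -- (tau0)
  have hM1 : 0 < 2 * i1 * (D * h) := by positivity
  have hM1X : 2 * i1 * (D * h) ≤ (X : ℤ) := e2_n2 hD hi1pos he1 hh hi1e' hDh hX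
  obtain ⟨τ0, ht1, ht2, ht⟩ := sieve2 ((2 * i1 * (D * h)).natAbs.primeFactors)
    (fun p hp => Nat.prime_of_mem_primeFactors hp)
    (fun p z => DV (p : ℤ) R ∧ DV (p : ℤ) (Uj + (o * z) • T))
    (fun p z => p = 2 ∧ ¬ DV (2 : ℤ) R ∧ (2 : ℤ) ∣ z)
    (fun p hp z z' hz hz' => by
      have hpp := Nat.prime_of_mem_primeFactors hp
      by_contra hd
      have h1 : DV (p : ℤ) ((z - z') • (o • T)) := by
        have h2 := hz.2.sub hz'.2
        have e1 : Uj + (o * z) • T - (Uj + (o * z') • T) = (z - z') • (o • T) := by module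
        rwa [e1] at h2
      have h2 : DV (p : ℤ) (o • T) := DV.prime_smul hpp h1 hd
      have h3 : DV (p : ℤ) T := by
        have h4 := h2.smul o
        have e1 : o • (o • T) = T := by rw [smul_smul, hoo, one_smul]
        rwa [e1] at h4
      have h4 : DV (p : ℤ) Uj := by
        have h5 := hz.2.sub (h3.smul (o * z))
        have e1 : Uj + (o * z) • T - (o * z) • T = Uj := by module
        rwa [e1] at h5
      -- X + f0 Q = u0 R + k0 T, e0 Q = i1 T - v0 R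
      have h5 : DV (p : ℤ) (Xj + f0 • Q) := by
        have h6 := (hz.1.smul u0).add (h3.smul k0)
        have e1 : u0 • R + k0 • T = (v0 * k0 + u0 * i1) • (Xj + f0 • Q) := by
          rw [hR, hT, hσ]; module
        rw [e1, huv, one_smul] at h6
        exact h6
      have h6 : DV (p : ℤ) (e0 • Q) := by
        have h7 := (h3.smul i1).sub (hz.1.smul v0)
        have e1 : i1 • T - v0 • R = (v0 * k0 + u0 * i1) • (e0 • Q) := by
          rw [hR, hT, hσ]; module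
        rw [e1, huv, one_smul] at h7
        exact h7
      rw [hUj] at h4
      exact hj p hpp ⟨h6, h5, h4⟩)
    (fun p _ z z' hz hz' => by
      obtain ⟨rfl, -, hz2⟩ := hz
      exact dvd_sub hz2 hz'.2.2)
    (by
      by_cases hR2 : DV (2 : ℤ) R
      · exact Or.inr fun z hz => hz.2.1 hR2
      · exact Or.inl fun z hz => hR2 hz.1) ((i1 + 1) / 2)
  have hτJ : τ0 ≤ (i1 + 1) / 2 + (J : ℤ) - 1 := by
    have := cap_use hC hM1 hM1X
    linarith
  have hτ1 : i1 ≤ 2 * τ0 := by omega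
  have hτ2 : τ0 ≤ i1 := by omega
  have hτpos : 0 < τ0 := by linarith
  have hτR : ∀ p : ℕ, p.Prime → DV (p : ℤ) R → ¬ DV (p : ℤ) (Uj + (o * τ0) • T) := by
    intro p hp h1 h2
    have h3 : (p : ℤ) ∣ 2 * i1 * (D * h) := by
      have h4 := h1.cr_left Q
      rw [hcRQ] at h4
      have e1 : 2 * i1 * (D * h) = (i1 * (D * h)) * 2 := by ring
      rw [e1]; exact h4.mul_right _
    exact (ht p (mem_pf hp hM1.ne' h3)).1 ⟨h1, h2⟩
  have hτ2' : ¬ DV (2 : ℤ) R → ¬ (2 : ℤ) ∣ τ0 := by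
    intro h1 h2
    have h3 : ((2 : ℕ) : ℤ) ∣ 2 * i1 * (D * h) := by
      rw [mul_assoc]; exact Dvd.intro _ rfl
    exact (ht 2 (mem_pf Nat.prime_two hM1.ne' h3)).2 ⟨rfl, h1, h2⟩
  -- (k)
  obtain ⟨S, hS⟩ : ∃ S, S = |s1| + i1 * A + τ0 * e := ⟨_, rfl⟩
  have hSpos : 0 < S := by rw [hS]; positivity
  have hM2 : 0 < D * S * τ0 := by positivity
  have hM2X : D * S * τ0 ≤ (X : ℤ) := e2_n3 hD hτpos he1 habs0
    (mul_pos hi1pos hApos).le hsle hi1le (hτ2.trans hi1e') hS hX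
  obtain ⟨k, hk1, hk2, hk⟩ := sieve2 ((D * S * τ0).natAbs.primeFactors)
    (fun p hp => Nat.prime_of_mem_primeFactors hp)
    (fun p k => ¬ DV (p : ℤ) R ∧ DV (p : ℤ) (Uj + (o * τ0) • T + k • R))
    (fun p k => (p : ℤ) ∣ τ0 ∧ (p : ℤ) ∣ o * τ0 * u0 - k * k0 ∧ (p : ℤ) ∣ o * τ0 * v0 + k * i1)
    (fun p hp z z' hz hz' => by
      have hpp := Nat.prime_of_mem_primeFactors hp
      by_contra hd
      have h1 : DV (p : ℤ) ((z - z') • R) := by
        have h2 := hz.2.sub hz'.2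
        have e1 : Uj + (o * τ0) • T + z • R - (Uj + (o * τ0) • T + z' • R) = (z - z') • R := by
          module
        rwa [e1] at h2
      exact hz.1 (DV.prime_smul hpp h1 hd))
    (fun p _ z z' hz hz' => by
      -- p | (z - z') k0 and (z - z') i1
      have h1 : (p : ℤ) ∣ (z - z') * k0 := by
        have h2 := dvd_sub hz'.2.1 hz.2.1
        have e1 : o * τ0 * u0 - z' * k0 - (o * τ0 * u0 - z * k0) = (z - z') * k0 := by ring
        rwa [e1] at h2
      have h2 : (p : ℤ) ∣ (z - z') * i1 := by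
        have h3 := dvd_sub hz.2.2 hz'.2.2
        have e1 : o * τ0 * v0 + z * i1 - (o * τ0 * v0 + z' * i1) = (z - z') * i1 := by ring
        rwa [e1] at h3
      have h3 := dvd_add (h1.mul_left v0) (h2.mul_left u0)
      have e1 : v0 * ((z - z') * k0) + u0 * ((z - z') * i1) = (z - z') * (v0 * k0 + u0 * i1) := by
        ring
      rw [e1, huv, mul_one] at h3
      exact h3)
    (by
      by_cases hR2 : DV (2 : ℤ) R
      · exact Or.inl fun z hz => hz.1 hR2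
      · exact Or.inr fun z hz => hτ2' hR2 hz.1) (-(o * τ0 * v0 / i1))
  have hkJ : k ≤ -(o * τ0 * v0 / i1) + (J : ℤ) - 1 := by
    have := cap_use hC hM2 hM2X
    linarith
  obtain ⟨t, htt⟩ : ∃ t, t = o * τ0 * u0 - k * k0 := ⟨_, rfl⟩
  obtain ⟨i, hii⟩ : ∃ i, i = o * τ0 * v0 + k * i1 := ⟨_, rfl⟩
  have hWt : QW a0 e0 f0 U Q j t i o = Uj + (o * τ0) • T + k • R := by
    rw [htt, hii]; exact hW (o * τ0) k
  have hline : i1 * t + k0 * i = o * τ0 := by
    rw [htt, hii]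
    have : i1 * (o * τ0 * u0 - k * k0) + k0 * (o * τ0 * v0 + k * i1) =
      o * τ0 * (v0 * k0 + u0 * i1) := by ring
    rw [this, huv, mul_one]
  -- 0 ≤ i < J i1
  have hi0 : 0 ≤ i := by
    rw [hii]; exact e2_n4 hi1pos hk1
  have hiJ : i ≤ (J : ℤ) * i1 := by
    rw [hii]; exact e2_n5 hi1pos hkJ
  -- i1 o F = tau0 e - i |s1|
  have hF : i1 * (o * (t * e + i * f)) = τ0 * e - i * |s1| := by
    have h1 : i1 * (t * e + i * f) = o * τ0 * e + i * s1 := by
      have : i1 * (t * e + i * f) = (i1 * t + k0 * i) * e + i * (i1 * f - k0 * e) := by ring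
      rw [this, hline, hs1]
    have h2 : i1 * (o * (t * e + i * f)) = o * (i1 * (t * e + i * f)) := by ring
    rw [h2, h1]
    have h3 : o * (o * τ0 * e + i * s1) = o * o * (τ0 * e) + i * (o * s1) := by ring
    rw [h3, hoo, hos]; ring
  refine ⟨j, t, i, o, ⟨ho, hi0, ?_, ?_, ?_⟩, ?_⟩
  · refine cop_of_primes fun p hp hpt hpi => ?_
    have h1 : (p : ℤ) ∣ o * τ0 := by
      rw [← hline]; exact dvd_add (hpt.mul_left _) (hpi.mul_left _)
    have h2 : (p : ℤ) ∣ τ0 := by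
      have h3 := h1.mul_left o
      have e1 : o * (o * τ0) = τ0 := by rw [← mul_assoc, hoo, one_mul]
      rwa [e1] at h3
    rw [htt] at hpt
    rw [hii] at hpi
    exact (hk p (mem_pf hp hM2.ne' (h2.mul_left _))).2 ⟨h2, hpt, hpi⟩
  · -- i A < o F
    have h1 : i1 * (i * A) < i1 * (o * (t * e + i * f)) := by
      rw [hF]
      exact e2_n6 hi0 hi1pos hJ1 hApos habs0 hiJ hi1A hi1e hepos hτ1
    exact lt_of_mul_lt_mul_left h1 hi1pos.le
  · have h1 : i1 * (o * (t * e + i * f)) ≤ i1 * e := by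
      rw [hF]
      have h2 : 0 ≤ i * |s1| := mul_nonneg hi0 habs0
      have h3 : τ0 * e ≤ i1 * e := mul_le_mul_of_nonneg_right hτ2 hepos.le
      linarith
    exact le_of_mul_le_mul_left h1 hi1pos
  · refine gcv_one fun p hp hWp => ?_
    rw [hWt] at hWp
    by_cases hRp : DV (p : ℤ) R
    · refine hτR p hp hRp ?_
      have h1 := hWp.sub (hRp.smul k)
      have e1 : Uj + (o * τ0) • T + k • R - k • R = Uj + (o * τ0) • T := by module
      rwa [e1] at h1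
    · have h1 := hWp.cr_left R
      have h2 : cr (Uj + (o * τ0) • T + k • R) R = -(o * (D * S)) := by
        have e1 : Uj + (o * τ0) • T + k • R =
            (1 + i) • Xj + (o * a0 + t * e0 + i * f0) • Q := by
          rw [← hWt, hXj]
          unfold QW
          module
        have h3 : i1 * (t * e + i * f) = o * τ0 * e + i * s1 := by
          have : i1 * (t * e + i * f) = (i1 * t + k0 * i) * e + i * (i1 * f - k0 * e) := by ring
          rw [this, hline, hs1]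
        rw [e1, hR]
        simp only [cr_add_left, cr_add_right, cr_smul_left, cr_smul_right, cr_self, hcXQ, hcQX]
        have h4 : i1 * (h * (t * e0 + i * f0)) = o * τ0 * e + i * (h * σ) := by
          rw [← hsσ, ← h3, he, hf]; ring
        have h5 : h * σ = -(o * |s1|) := by rw [← hsσ]; exact hs1'
        have e2 : i1 * ((1 + i) * 0 + (o * a0 + t * e0 + i * f0) * -(D * h)) +
            σ * ((1 + i) * (D * h) + (o * a0 + t * e0 + i * f0) * 0) =
            D * (h * σ) + D * (i * (h * σ)) -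
            D * (o * i1 * (h * a0)) - D * (i1 * (h * (t * e0 + i * f0))) := by ring
        rw [e2, h4, ← hA, h5, hS]
        ring
      rw [h2, Int.dvd_neg] at h1
      have h3 : (p : ℤ) ∣ D * S * τ0 := by
        have h4 := h1.mul_left o
        have e1 : o * (o * (D * S)) = D * S := by rw [← mul_assoc, hoo, one_mul]
        rw [e1] at h4
        exact h4.mul_right _
      exact (hk p (mem_pf hp hM2.ne' h3)).1 ⟨hRp, hWp⟩

/-- **E3**: Dirichlet -/
theorem QX.dir {J X : ℕ} (q : QX h a0 e0 f0 D U Q) (hJ : 1 ≤ J) (hC : Cap J X)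
    (hX : 64 * D * (h * e0) ^ 4 ≤ (X : ℤ)) (hQS : QS h a0 e0 f0 U Q 2)
    (he : 8 * ((J : ℤ) + 1) * (h * a0) ≤ h * e0) :
    ∃ i1 k0 : ℤ, 1 ≤ i1 ∧ i1 < 8 * ((J : ℤ) + 1) ∧ IsCoprime k0 i1 ∧
      |i1 * (h * f0) - k0 * (h * e0)| < 8 * ((J : ℤ) + 1) * (h * a0) := by
  have hApos : 0 < h * a0 := mul_pos q.ph q.pa
  have hepos : 0 < h * e0 := mul_pos q.ph q.pe
  have hJ0 : (0 : ℤ) ≤ (J : ℤ) := by positivity
  obtain ⟨B, hB⟩ : ∃ B, B = 8 * ((J : ℤ) + 1) * (h * a0) := ⟨_, rfl⟩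
  have hBpos : 0 < B := by rw [hB]; positivity
  obtain ⟨n, hn⟩ : ∃ n : ℕ, (n : ℤ) = h * e0 / B := by
    refine ⟨(h * e0 / B).toNat, ?_⟩
    rw [Int.toNat_of_nonneg (Int.ediv_nonneg hepos.le hBpos.le)]
  have hdm := Int.mul_ediv_add_emod (h * e0) B
  have hm1 := Int.emod_nonneg (h * e0) hBpos.ne'
  have hm2 := Int.emod_lt_of_pos (h * e0) hBpos
  rw [← hn] at hdm
  have hn1 : 0 < n := by
    by_contra h0
    have : (n : ℤ) = 0 := by omega
    rw [this] at hdm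
    rw [← hB] at he
    linarith
  obtain ⟨i1, k0, h1, h2, h3, h4⟩ := dirichlet_int (h * e0) (h * f0) hepos n hn1
  have h5 : |i1 * (h * f0) - k0 * (h * e0)| < B := by
    have h6 : ((n : ℤ) + 1) * |i1 * (h * f0) - k0 * (h * e0)| < ((n : ℤ) + 1) * B := by
      have h7 : ((n : ℤ) + 1) * B = B * (n : ℤ) + B := by ring
      linarith
    exact lt_of_mul_lt_mul_left h6 (by positivity)
  by_cases hlt : i1 < 8 * ((J : ℤ) + 1)
  · exact ⟨i1, k0, h1, hlt, h3.symm, by rw [← hB]; exact h5⟩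
  · push Not at hlt
    exfalso
    obtain ⟨j, t, i, o, hqc, hg⟩ := q.s1 hJ hC hX h3.symm hlt (by
      have h6 : B * i1 ≤ B * (n : ℤ) := mul_le_mul_of_nonneg_left h2 hBpos.le
      have h7 : 8 * ((J : ℤ) + 1) * i1 * (h * a0) = B * i1 := by rw [hB]; ring
      rw [h7]; linarith) (by rw [← hB]; exact h5.le)
    have h8 := hQS j t i o hqc
    rw [hg] at h8
    norm_num at h8

end Pool.Agent.H4G
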