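import Pool.Agent.H4G.Cone.E7
import Pool.Agent.H4G.Cone.E23

/-!
# Row E4: the exits on the lines with `s₁ = 0` (helper91)

`e0 = q0 z0`, `f0 = s z0`, `gcd (s, q0) = 1`: `u` has order `q0` modulo `L`. For `0 ≤ x < q0` the
exits with `q0 t + s i = o (q0 - x)` have `W = (1 + i) (U - j s0 Q) + o (s0 - x z0) Q`, `s0 = a0 + e0`.
-/

set_option autoImplicit false

namespace Pool.Agent.H4G

/-- a number is the product of a number all of whose primes divide `b` and a number prime to `b` -/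
theorem e4_split (b : ℤ) (n : ℕ) (hn : 0 < n) : ∃ n1 n2 : ℕ, n = n1 * n2 ∧
    (∀ p : ℕ, p.Prime → p ∣ n1 → (p : ℤ) ∣ b) ∧ (∀ p : ℕ, p.Prime → p ∣ n2 → ¬ (p : ℤ) ∣ b) := by
  induction n using Nat.strong_induction_on with
  | _ n ih =>
    by_cases h : ∃ p : ℕ, p.Prime ∧ p ∣ n ∧ (p : ℤ) ∣ b
    · obtain ⟨p, hp, ⟨m, rfl⟩, hpb⟩ := h
      have hm : 0 < m := Nat.pos_of_mul_pos_left hn |> fun h => by
        rcases Nat.eq_zero_or_pos m with h0 | h0
        · rw [h0] at hn; simp at hn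
        · exact h0
      have hlt : m < p * m := by
        have := hp.one_lt
        nlinarith
      obtain ⟨n1, n2, h1, h2, h3⟩ := ih m hlt hm
      refine ⟨p * n1, n2, by rw [h1]; ring, ?_, h3⟩
      intro l hl hd
      rcases hl.dvd_mul.1 hd with h4 | h4
      · rw [(Nat.prime_dvd_prime_iff_eq hl hp).1 h4]; exact hpb
      · exact h2 l hl h4
    · refine ⟨1, n, by ring, ?_, ?_⟩
      · intro p hp hd
        exact absurd (Nat.dvd_one.1 hd) hp.one_lt.ne'
      · intro p hp hd hb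
        exact h ⟨p, hp, hd, hb⟩

section
variable {h a0 D q0 s z0 : ℤ} {U Q : Z2}

/-- the value of `W` on the line -/
theorem e4_QW {j t i o x : ℤ} (hti : q0 * t + s * i = o * (q0 - x)) :
    QW a0 (q0 * z0) (s * z0) U Q j t i o =
      (1 + i) • U + (o * (a0 + q0 * z0 - x * z0) - j * (1 + i) * (a0 + q0 * z0)) • Q := by
  unfold QW
  have e1 : o * a0 + t * (q0 * z0) + i * (s * z0) - j * (1 + i) * (a0 + q0 * z0) =
      o * (a0 + q0 * z0 - x * z0) - j * (1 + i) * (a0 + q0 * z0) := by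
    linear_combination z0 * hti
  rw [e1]

/-- a line of exits -/
theorem e4_line (hq : 0 < q0) (hc : IsCoprime s q0) (c : ℤ) :
    ∃ t0 i0 : ℤ, q0 * t0 + s * i0 = c ∧ 0 ≤ i0 ∧ i0 < q0 := by
  obtain ⟨u, v, huv⟩ := hc
  refine ⟨v * c + s * (u * c / q0), u * c % q0, ?_, Int.emod_nonneg _ hq.ne', Int.emod_lt_of_pos _ hq⟩
  have h1 := Int.emod_add_mul_ediv (u * c) q0
  have h2 : u * c % q0 = u * c - q0 * (u * c / q0) := by linarith
  rw [h2]
  linear_combination c * huv

theorem QX.e4row (q : QX h a0 (q0 * z0) (s * z0) D U Q) {J X : ℕ} (hC : Cap J X)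
    (hq : 2 ≤ q0) (hz : 0 < z0) (hc : IsCoprime s q0) {x o : ℤ} (ho : o = 1 ∨ o = -1)
    (hx0 : 0 ≤ x) (hx : 3 * x ≤ 2 * q0) (hbs : (gcv U : ℤ) ∣ a0 + q0 * z0)
    (hX : D * h * q0 * (q0 - x) * (a0 + q0 * z0 - x * z0) ≤ (X : ℤ))
    (hroom : 3 * (J : ℤ) * a0 ≤ z0)
    (ha : ∀ p : ℕ, p.Prime → DV (p : ℤ) U → ¬ (p : ℤ) ∣ x)
    (hb : ∀ p : ℕ, p.Prime → (p : ℤ) ∣ q0 → ¬ DV (p : ℤ) U → ¬ (p : ℤ) ∣ x →
      ∀ i : ℤ, (p : ℤ) ∣ s * i + o * x →
        ¬ DV (p : ℤ) ((1 + i) • U + (o * (a0 + q0 * z0 - x * z0)) • Q))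
    (h2 : DV 2 U ∨ (2 : ℤ) ∣ q0 ∨ (2 : ℤ) ∣ x) :
    ∃ j t i : ℤ, QC (h * a0) (h * (q0 * z0)) (h * (s * z0)) t i o ∧
      gcv (QW a0 (q0 * z0) (s * z0) U Q j t i o) = 1 := by
  have hh := q.ph
  have hD := q.pD
  have ha0 := q.pa
  have hoo : o * o = 1 := by rcases ho with rfl | rfl <;> norm_num
  have hqx : 0 < q0 - x := by linarith
  obtain ⟨s0, hs0⟩ : ∃ s0 : ℤ, s0 = a0 + q0 * z0 := ⟨_, rfl⟩
  obtain ⟨C, hCd⟩ : ∃ C : ℤ, C = s0 - x * z0 := ⟨_, rfl⟩
  rw [← hs0] at hX hbs
  rw [← hCd] at hX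
  have hC0 : 0 < C := by
    have : 0 < z0 * (q0 - x) := mul_pos hz hqx
    rw [hCd, hs0]; linarith
  obtain ⟨M, hM⟩ : ∃ M : ℤ, M = D * h * q0 * (q0 - x) * C := ⟨_, rfl⟩
  rw [← hM] at hX
  have hM0 : 0 < M := by rw [hM]; positivity
  -- the choice of j
  obtain ⟨j, hj⟩ := crt_exists M hM0.ne'
    (fun p j => ((p : ℤ) ∣ q0 → (p : ℤ) ∣ x → (p : ℤ) ∣ o - j) ∧
      (¬ ((p : ℤ) ∣ q0 ∧ (p : ℤ) ∣ x) → (p : ℤ) ∣ j))
    (fun p hp _ => by
      by_cases hc1 : (p : ℤ) ∣ q0 ∧ (p : ℤ) ∣ x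
      · exact ⟨o, fun _ _ => by simp, fun h1 => absurd hc1 h1⟩
      · exact ⟨0, fun h1 h3 => absurd ⟨h1, h3⟩ hc1, fun _ => dvd_zero _⟩)
    (fun p hp _ k k' hk hkk => by
      refine ⟨fun h1 h3 => ?_, fun h1 => ?_⟩
      · have := dvd_sub (hkk.1 h1 h3) hk
        have e1 : o - k - (k' - k) = o - k' := by ring
        rwa [e1] at this
      · have := dvd_add hk (hkk.2 h1)
        have e1 : k' - k + k = k' := by ring
        rwa [e1] at this)
  -- the line
  obtain ⟨t0, i0, hti0, hi0, hi0'⟩ := e4_line (q0 := q0) (s := s) (by linarith) hc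
    (o * (q0 - x))
  obtain ⟨R, hR⟩ : ∃ R : Z2, R = U - (j * s0) • Q := ⟨_, rfl⟩
  obtain ⟨W, hW⟩ : ∃ W : ℤ → Z2, W = fun k => (1 + (i0 + q0 * k)) • R + (o * C) • Q := ⟨_, rfl⟩
  have hWk : ∀ k : ℤ, W k = (1 + (i0 + q0 * k)) • R + (o * C) • Q := fun k => by rw [hW]
  have hprim : ∀ p : ℕ, p.Prime → DV (p : ℤ) U → ¬ DV (p : ℤ) Q := fun p hp h1 h3 =>
    prime_not_dvd_one hp (q.prim p h1 h3)
  -- primes which never are bad
  have never : ∀ p : ℕ, p.Prime → (p : ℤ) ∣ M → (DV (p : ℤ) U ∨ (p : ℤ) ∣ q0) → ∀ k : ℤ,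
      ¬ DV (p : ℤ) (W k) := by
    intro p hp hpM hor k hd
    have hpi := Nat.prime_iff_prime_int.1 hp
    rw [hWk] at hd
    by_cases hU : DV (p : ℤ) U
    · have h3 : (p : ℤ) ∣ s0 := (dv_iff_gcv.1 hU).trans hbs
      have h4 : DV (p : ℤ) ((x * z0) • Q) := by
        have e0' : x * z0 = s0 - o * o * C := by rw [hoo, hCd]; ring
        have e1 : (x * z0) • Q = (-o) • ((1 + (i0 + q0 * k)) • R + (o * C) • Q) +
            (o * (1 + (i0 + q0 * k))) • U +
            (s0 * (1 - o * (1 + (i0 + q0 * k)) * j)) • Q := by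
          rw [hR, e0']
          module
        rw [e1]
        refine ((hd.smul _).add (hU.smul _)).add ?_
        exact ⟨by rw [Prod.smul_fst, smul_eq_mul]; exact (h3.mul_right _).mul_right _,
          by rw [Prod.smul_snd, smul_eq_mul]; exact (h3.mul_right _).mul_right _⟩
      have h5 : ¬ (p : ℤ) ∣ x * z0 := by
        intro h6
        rcases hpi.dvd_or_dvd h6 with h7 | h7
        · exact ha p hp hU h7
        · have h8 : (p : ℤ) ∣ a0 := by
            have := dvd_sub h3 (h7.mul_left q0)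
            rw [hs0] at this
            have e1 : a0 + q0 * z0 - q0 * z0 = a0 := by ring
            rwa [e1] at this
          exact prime_not_dvd_one hp (q.cop p h8 (h7.mul_left q0) (h7.mul_left s))
      exact hprim p hp hU (DV.prime_smul hp h4 h5)
    · have hpq : (p : ℤ) ∣ q0 := hor.resolve_left hU
      by_cases hpx : (p : ℤ) ∣ x
      · have hjo := (hj p hp hpM).1 hpq hpx
        have hps : ¬ (p : ℤ) ∣ s := fun h3 => hpi.not_isUnit (hc.isUnit_of_dvd' h3 hpq)
        have hpi0 : (p : ℤ) ∣ i0 := by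
          have h3 : (p : ℤ) ∣ s * i0 := by
            have e1 : s * i0 = o * (q0 - x) - q0 * t0 := by linarith
            rw [e1]
            exact dvd_sub ((dvd_sub hpq hpx).mul_left _) (hpq.mul_right _)
          exact (hpi.dvd_or_dvd h3).resolve_left hps
        refine hU ?_
        have e1 : U = ((1 + (i0 + q0 * k)) • R + (o * C) • Q) + (-(i0 + q0 * k)) • U +
            (-((o - j) * s0 - o * (x * z0) - j * (i0 + q0 * k) * s0)) • Q := by
          rw [hR, hCd]; module
        rw [e1]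
        have h6 : (p : ℤ) ∣ i0 + q0 * k := dvd_add hpi0 (hpq.mul_right _)
        refine (hd.add ?_).add ?_
        · exact ⟨by rw [Prod.smul_fst, smul_eq_mul]; exact ((dvd_neg).2 h6).mul_right _,
            by rw [Prod.smul_snd, smul_eq_mul]; exact ((dvd_neg).2 h6).mul_right _⟩
        · have h7 : (p : ℤ) ∣ (o - j) * s0 - o * (x * z0) - j * (i0 + q0 * k) * s0 := by
            refine dvd_sub (dvd_sub (hjo.mul_right _) ((hpx.mul_right _).mul_left _)) ?_
            exact (h6.mul_left _).mul_right _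
          exact ⟨by rw [Prod.smul_fst, smul_eq_mul]; exact ((dvd_neg).2 h7).mul_right _,
            by rw [Prod.smul_snd, smul_eq_mul]; exact ((dvd_neg).2 h7).mul_right _⟩
      · have hj0 := (hj p hp hpM).2 (fun h3 => hpx h3.2)
        refine hb p hp hpq hU hpx (i0 + q0 * k) ?_ ?_
        · have e1 : s * (i0 + q0 * k) + o * x = q0 * (o - t0 + s * k) := by
            linear_combination hti0
          rw [e1]; exact hpq.mul_right _
        · have e1 : (1 + (i0 + q0 * k)) • U + (o * (a0 + q0 * z0 - x * z0)) • Q =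
              ((1 + (i0 + q0 * k)) • R + (o * C) • Q) +
              (j * ((1 + (i0 + q0 * k)) * s0)) • Q := by
            rw [hR, hCd, hs0]; module
          rw [e1]
          refine hd.add ?_
          exact ⟨by rw [Prod.smul_fst, smul_eq_mul]; exact (hj0.mul_right _).mul_right _,
            by rw [Prod.smul_snd, smul_eq_mul]; exact (hj0.mul_right _).mul_right _⟩
  obtain ⟨k, hk1, hk2, hk⟩ := sieve2 (M.natAbs.primeFactors)
    (fun p hp => Nat.prime_of_mem_primeFactors hp)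
    (fun p k => (p : ℤ) ∣ M ∧ DV (p : ℤ) (W k))
    (fun p k => (p : ℤ) ∣ t0 - s * k ∧ (p : ℤ) ∣ i0 + q0 * k)
    (fun p hp k k' hk hk' => by
      have hpp := Nat.prime_of_mem_primeFactors hp
      have hpi := Nat.prime_iff_prime_int.1 hpp
      by_contra hn
      by_cases hor : DV (p : ℤ) U ∨ (p : ℤ) ∣ q0
      · exact never p hpp hk.1 hor k hk.2
      · push Not at hor
        have hj0 := (hj p hpp hk.1).2 (fun h3 => hor.2 h3.1)
        have h3 : DV (p : ℤ) (((k - k') * q0) • R) := by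
          have := hk.2.sub hk'.2
          rw [hWk, hWk] at this
          have e1 : (1 + (i0 + q0 * k)) • R + (o * C) • Q -
              ((1 + (i0 + q0 * k')) • R + (o * C) • Q) = ((k - k') * q0) • R := by module
          rwa [e1] at this
        have h4 : DV (p : ℤ) R := by
          refine DV.prime_smul hpp h3 (fun h5 => ?_)
          rcases hpi.dvd_or_dvd h5 with h6 | h6
          · exact hn h6
          · exact hor.2 h6
        refine hor.1 ?_
        have e1 : U = R + (j * s0) • Q := by rw [hR]; module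
        rw [e1]
        refine h4.add ?_
        exact ⟨by rw [Prod.smul_fst, smul_eq_mul]; exact (hj0.mul_right _).mul_right _,
          by rw [Prod.smul_snd, smul_eq_mul]; exact (hj0.mul_right _).mul_right _⟩)
    (fun p hp k k' hk hk' => by
      have hpp := Nat.prime_of_mem_primeFactors hp
      have hpi := Nat.prime_iff_prime_int.1 hpp
      by_contra hn
      have h3 : (p : ℤ) ∣ s * (k - k') := by
        have := dvd_sub hk'.1 hk.1
        have e1 : t0 - s * k' - (t0 - s * k) = s * (k - k') := by ring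
        rwa [e1] at this
      have h4 : (p : ℤ) ∣ q0 * (k - k') := by
        have := dvd_sub hk.2 hk'.2
        have e1 : i0 + q0 * k - (i0 + q0 * k') = q0 * (k - k') := by ring
        rwa [e1] at this
      exact hpi.not_isUnit (hc.isUnit_of_dvd' ((hpi.dvd_or_dvd h3).resolve_right hn)
        ((hpi.dvd_or_dvd h4).resolve_right hn)))
    (by
      by_cases hor : DV 2 U ∨ (2 : ℤ) ∣ q0
      · left
        intro k hk
        exact never 2 Nat.prime_two hk.1 hor k hk.2
      · right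
        push Not at hor
        have h2x : (2 : ℤ) ∣ x := by
          rcases h2 with h3 | h3 | h3
          · exact absurd h3 hor.1
          · exact absurd h3 hor.2
          · exact h3
        intro k hk
        refine hor.2 ?_
        have h3 : (2 : ℤ) ∣ o * (q0 - x) := by
          have e1 : o * (q0 - x) = q0 * (t0 - s * k) + s * (i0 + q0 * k) := by
            rw [← hti0]; ring
          rw [e1]
          exact dvd_add (hk.1.mul_left _) (hk.2.mul_left _)
        have h4 : (2 : ℤ) ∣ q0 - x := by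
          have := h3.mul_left o
          rwa [← mul_assoc, hoo, one_mul] at this
        have := dvd_add h4 h2x
        have e1 : q0 - x + x = q0 := by ring
        rwa [e1] at this) 0
  have hcap := cap_use hC hM0 hX
  have hkJ : k < (J : ℤ) := by linarith
  have hti : q0 * (t0 - s * k) + s * (i0 + q0 * k) = o * (q0 - x) := by rw [← hti0]; ring
  refine ⟨j, t0 - s * k, i0 + q0 * k, ⟨ho, by positivity, ?_, ?_, ?_⟩, ?_⟩
  · refine cop_of_primes fun p hp hpt hpi => ?_
    have h3 : (p : ℤ) ∣ o * (q0 - x) := by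
      rw [← hti]; exact dvd_add (hpt.mul_left _) (hpi.mul_left _)
    have h4 : (p : ℤ) ∣ q0 - x := by
      have := h3.mul_left o
      rwa [← mul_assoc, hoo, one_mul] at this
    have h5 : (p : ℤ) ∣ M := by rw [hM]; exact (h4.mul_left _).mul_right _
    exact (hk p (mem_pf hp hM0.ne' h5)).2 ⟨hpt, hpi⟩
  · have e1 : o * ((t0 - s * k) * (h * (q0 * z0)) + (i0 + q0 * k) * (h * (s * z0))) =
        h * (z0 * (q0 - x)) := by
      have : (t0 - s * k) * (h * (q0 * z0)) + (i0 + q0 * k) * (h * (s * z0)) =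
        h * z0 * (o * (q0 - x)) := by rw [← hti]; ring
      rw [this]
      linear_combination h * z0 * (q0 - x) * hoo
    rw [e1]
    have e2 : (i0 + q0 * k) * (h * a0) = h * ((i0 + q0 * k) * a0) := by ring
    rw [e2]
    refine mul_lt_mul_of_pos_left ?_ hh
    have h3 : i0 + q0 * k < q0 * J := by
      have : q0 * (k + 1) ≤ q0 * J := mul_le_mul_of_nonneg_left (by linarith) (by linarith)
      linarith
    have h4 : (i0 + q0 * k) * a0 < q0 * J * a0 := mul_lt_mul_of_pos_right h3 ha0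
    have h5 : q0 * (3 * (J : ℤ) * a0) ≤ q0 * z0 := mul_le_mul_of_nonneg_left hroom (by linarith)
    have h6 : z0 * (3 * x) ≤ z0 * (2 * q0) := mul_le_mul_of_nonneg_left hx hz.le
    linarith
  · have e1 : o * ((t0 - s * k) * (h * (q0 * z0)) + (i0 + q0 * k) * (h * (s * z0))) =
        h * (z0 * (q0 - x)) := by
      have : (t0 - s * k) * (h * (q0 * z0)) + (i0 + q0 * k) * (h * (s * z0)) =
        h * z0 * (o * (q0 - x)) := by rw [← hti]; ring
      rw [this]
      linear_combination h * z0 * (q0 - x) * hoo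
    rw [e1]
    refine mul_le_mul_of_nonneg_left ?_ hh.le
    have : 0 ≤ z0 * x := mul_nonneg hz.le hx0
    linarith
  · have hWW : QW a0 (q0 * z0) (s * z0) U Q j (t0 - s * k) (i0 + q0 * k) o = W k := by
      rw [e4_QW hti, hWk, hR, hCd, hs0]; module
    rw [hWW]
    by_contra hne
    obtain ⟨p, hp, hd⟩ := Nat.exists_prime_and_dvd hne
    have hdv : DV (p : ℤ) (W k) := dv_iff_gcv.2 (by exact_mod_cast hd)
    have hcr : cr (W k) R = -(o * C * (D * h)) := by
      rw [hWk, cr_add_left, cr_smul_left, cr_smul_left, cr_self, hR, cr_swap Q, cr_sub_left,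
        cr_smul_left, cr_self, q.cUQ]
      ring
    have h3 : (p : ℤ) ∣ o * C * (D * h) := by
      have := hdv.cr_left R
      rw [hcr] at this
      exact (dvd_neg).1 this
    have h4 : (p : ℤ) ∣ M := by
      have h5 := h3.mul_left o
      have e1 : o * (o * C * (D * h)) = C * (D * h) := by linear_combination C * (D * h) * hoo
      rw [e1] at h5
      rw [hM]
      have e2 : D * h * q0 * (q0 - x) * C = C * (D * h) * (q0 * (q0 - x)) := by ring
      rw [e2]
      exact h5.mul_right _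
    exact (hk p (mem_pf hp hM0.ne' h4)).1 ⟨h4, hdv⟩

/-- the exit of value `2` for `q0 = 2` -/
theorem QX.e4row2 (q : QX h a0 (2 * z0) (s * z0) D U Q) {J X : ℕ} (hC : Cap J X)
    (hz : 0 < z0) (hc : IsCoprime s 2) (hbs : (gcv U : ℤ) ∣ a0 + 2 * z0)
    (hX : 2 * D * h * (a0 + z0) ≤ (X : ℤ)) (hroom : 3 * (J : ℤ) * a0 ≤ z0)
    (hU : ¬ DV 2 U) (h2 : DV 2 ((a0 + z0) • Q)) :
    ∃ j t i : ℤ, QC (h * a0) (h * (2 * z0)) (h * (s * z0)) t i 1 ∧
      gcv (QW a0 (2 * z0) (s * z0) U Q j t i 1) = 2 := by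
  have hh := q.ph
  have hD := q.pD
  have ha0 := q.pa
  have hJ0 : (0 : ℤ) ≤ J := by positivity
  obtain ⟨M, hM⟩ : ∃ M : ℤ, M = 2 * D * h * (a0 + z0) := ⟨_, rfl⟩
  rw [← hM] at hX
  have hM0 : 0 < M := by rw [hM]; positivity
  obtain ⟨t0, i0, hti0, hi0, hi0'⟩ := e4_line (q0 := 2) (s := s) (by norm_num) hc 1
  obtain ⟨W, hW⟩ : ∃ W : ℤ → Z2, W = fun k => (1 + (i0 + 2 * k)) • U + (a0 + z0) • Q := ⟨_, rfl⟩
  have hWk : ∀ k : ℤ, W k = (1 + (i0 + 2 * k)) • U + (a0 + z0) • Q := fun k => by rw [hW]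
  have hsub : ∀ k k' : ℤ, W k - W k' = (2 * (k - k')) • U := fun k k' => by
    rw [hWk, hWk]; module
  have hprim : ∀ p : ℕ, p.Prime → DV (p : ℤ) U → ¬ DV (p : ℤ) Q := fun p hp h1 h3 =>
    prime_not_dvd_one hp (q.prim p h1 h3)
  have hti : ∀ k : ℤ, 2 * (t0 - s * k) + s * (i0 + 2 * k) = 1 := fun k => by
    rw [← hti0]; ring
  obtain ⟨k, hk1, hk2, hk⟩ := sieve2 (M.natAbs.primeFactors)
    (fun p hp => Nat.prime_of_mem_primeFactors hp)
    (fun p k => (p ≠ 2 ∧ DV (p : ℤ) (W k)) ∨ (p = 2 ∧ DV 4 (W k)))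
    (fun p k => False)
    (fun p hp k k' hk hk' => by
      have hpp := Nat.prime_of_mem_primeFactors hp
      have hpi := Nat.prime_iff_prime_int.1 hpp
      rcases hk with ⟨hp2, hk⟩ | ⟨rfl, hk⟩
      · rcases hk' with ⟨-, hk'⟩ | ⟨h3, -⟩
        · by_cases hpU : DV (p : ℤ) U
          · exfalso
            have h3 : DV (p : ℤ) ((a0 + z0) • Q) := by
              have := hk.sub (hpU.smul (1 + (i0 + 2 * k)))
              rw [hWk] at this
              have e1 : (1 + (i0 + 2 * k)) • U + (a0 + z0) • Q - (1 + (i0 + 2 * k)) • U =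
                (a0 + z0) • Q := by module
              rwa [e1] at this
            have h4 : (p : ℤ) ∣ a0 + z0 := by
              by_contra hn
              exact hprim p hpp hpU (DV.prime_smul hpp h3 hn)
            have h5 : (p : ℤ) ∣ a0 + 2 * z0 := (dv_iff_gcv.1 hpU).trans hbs
            have h6 : (p : ℤ) ∣ z0 := by
              have := dvd_sub h5 h4
              have e1 : a0 + 2 * z0 - (a0 + z0) = z0 := by ring
              rwa [e1] at this
            have h7 : (p : ℤ) ∣ a0 := by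
              have := dvd_sub h4 h6
              have e1 : a0 + z0 - z0 = a0 := by ring
              rwa [e1] at this
            exact prime_not_dvd_one hpp (q.cop p h7 (h6.mul_left 2) (h6.mul_left s))
          · have h3 := hk.sub hk'
            rw [hsub] at h3
            rcases DV.prime_smul_or hpp h3 with h4 | h4
            · rcases hpi.dvd_or_dvd h4 with h5 | h5
              · exfalso
                have h6 : (p : ℤ) ∣ ((2 : ℕ) : ℤ) := by exact_mod_cast h5
                exact hp2 ((Nat.prime_dvd_prime_iff_eq hpp Nat.prime_two).1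
                  (Int.natCast_dvd_natCast.1 h6))
              · exact h5
            · exact absurd h4 hpU
        · exact absurd h3 hp2
      · rcases hk' with ⟨h3, -⟩ | ⟨-, hk'⟩
        · exact absurd rfl h3
        · have h3 := hk.sub hk'
          rw [hsub] at h3
          have h4 : DV ((2 : ℕ) : ℤ) ((k - k') • U) := by
            obtain ⟨h5, h6⟩ := h3
            rw [Prod.smul_fst, smul_eq_mul] at h5
            rw [Prod.smul_snd, smul_eq_mul] at h6
            refine ⟨?_, ?_⟩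
            · rw [Prod.smul_fst, smul_eq_mul]
              obtain ⟨c, hc⟩ := h5
              exact ⟨c, by push_cast; linarith⟩
            · rw [Prod.smul_snd, smul_eq_mul]
              obtain ⟨c, hc⟩ := h6
              exact ⟨c, by push_cast; linarith⟩
          rcases DV.prime_smul_or Nat.prime_two h4 with h5 | h5
          · exact h5
          · exact absurd (by exact_mod_cast h5) hU)
    (fun p hp k k' hk hk' => hk.elim)
    (Or.inr fun k hk => hk) 0
  have hcap := cap_use hC hM0 hX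
  have hkJ : k < (J : ℤ) := by linarith
  have hk := fun p hp => (hk p hp).1
  refine ⟨0, t0 - s * k, i0 + 2 * k, ⟨Or.inl rfl, by positivity, ?_, ?_, ?_⟩, ?_⟩
  · exact ⟨2, s, by linarith [hti k]⟩
  · have e1 : 1 * ((t0 - s * k) * (h * (2 * z0)) + (i0 + 2 * k) * (h * (s * z0))) = h * z0 := by
      linear_combination h * z0 * hti k
    rw [e1]
    have e2 : (i0 + 2 * k) * (h * a0) = h * ((i0 + 2 * k) * a0) := by ring
    rw [e2]
    refine mul_lt_mul_of_pos_left ?_ hh
    have h3 : i0 + 2 * k < 2 * J := by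
      have : k + 1 ≤ (J : ℤ) := by linarith
      linarith
    have h4 : (i0 + 2 * k) * a0 < 2 * J * a0 := mul_lt_mul_of_pos_right h3 ha0
    have h5 : 0 ≤ (J : ℤ) * a0 := mul_nonneg hJ0 ha0.le
    linarith
  · have e1 : 1 * ((t0 - s * k) * (h * (2 * z0)) + (i0 + 2 * k) * (h * (s * z0))) = h * z0 := by
      linear_combination h * z0 * hti k
    rw [e1]
    refine mul_le_mul_of_nonneg_left ?_ hh.le
    linarith
  · have hWW : QW a0 (2 * z0) (s * z0) U Q 0 (t0 - s * k) (i0 + 2 * k) 1 = W k := by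
      have e1 := hti k
      unfold QW
      rw [hWk]
      have e2 : 1 * a0 + (t0 - s * k) * (2 * z0) + (i0 + 2 * k) * (s * z0) -
          0 * (1 + (i0 + 2 * k)) * (a0 + 2 * z0) = a0 + z0 := by
        linear_combination z0 * e1
      rw [e2]
    rw [hWW]
    have hW2 : DV 2 (W k) := by
      rw [hWk]
      refine DV.add ?_ h2
      have h3 : (2 : ℤ) ∣ 1 + (i0 + 2 * k) := by
        have h4 : ¬ (2 : ℤ) ∣ i0 := by
          intro h5
          have h6 : (2 : ℤ) ∣ 1 := by
            rw [← hti0]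
            exact dvd_add (dvd_mul_right _ _) (h5.mul_left _)
          exact prime_not_dvd_one Nat.prime_two (by exact_mod_cast h6)
        omega
      exact DV.smul_of_dvd h3 U
    have hbad : ∀ p : ℕ, p.Prime → DV (p : ℤ) (W k) → (p : ℤ) ∣ M := by
      intro p hp hd
      have hcr : cr (W k) U = -((a0 + z0) * (D * h)) := by
        rw [hWk, cr_add_left, cr_smul_left, cr_smul_left, cr_self, cr_swap Q, q.cUQ]
        ring
      have h3 := hd.cr_left U
      rw [hcr] at h3
      rw [hM]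
      have e2 : 2 * D * h * (a0 + z0) = (a0 + z0) * (D * h) * 2 := by ring
      rw [e2]
      exact ((dvd_neg).1 h3).mul_right _
    refine gcv_two hW2 ?_ ?_
    · intro h4
      have h5 : ((2 : ℕ) : ℤ) ∣ M := hbad 2 Nat.prime_two (by exact_mod_cast hW2)
      exact hk 2 (mem_pf Nat.prime_two hM0.ne' h5) (Or.inr ⟨rfl, h4⟩)
    · intro p hp hp2 hd
      exact hk p (mem_pf hp hM0.ne' (hbad p hp hd)) (Or.inl ⟨hp2, hd⟩)

end

variable {h a0 e0 f0 D : ℤ} {U Q : Z2} {J X : ℕ}

/-- **E4** -/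
theorem QX.szero (q : QX h a0 e0 f0 D U Q) (hJ : 1 ≤ J) (hC : Cap J X)
    (hX : 64 * D * (h * e0) ^ 4 ≤ X) (hs : QS h a0 e0 f0 U Q (h * a0)) (hA : 2 ≤ h * a0)
    {b' : ℤ} (hb : (gcv U : ℤ) = b') (hb2 : 2 ≤ b') (hbs : b' ∣ a0 + e0) {q0 s z0 : ℤ}
    (he0 : e0 = q0 * z0) (hf0 : f0 = s * z0) (hc : IsCoprime s q0) (hq : 2 ≤ q0)
    (hq' : q0 < 8 * ((J : ℤ) + 1)) (he : (8 * ((J : ℤ) + 1)) ^ 3 * (h * a0) ≤ h * e0) :
    h * a0 = 2 ∧ q0 = 2 ∧ Odd b' ∧ DV 2 ((a0 + z0) • Q) := by
  subst he0 hf0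
  have _hb2 := hb2
  have hh := q.ph
  have hD := q.pD
  have ha0 := q.pa
  have hJ0 : (0 : ℤ) ≤ J := by positivity
  have hz : 0 < z0 := by
    exact (pos_iff_pos_of_mul_pos q.pe).1 (by linarith)
  -- sizes
  have hbig : (8 * ((J : ℤ) + 1)) ^ 2 * a0 ≤ z0 := by
    have h1 : (8 * ((J : ℤ) + 1)) ^ 3 * a0 ≤ q0 * z0 := by
      have h2 : h * ((8 * ((J : ℤ) + 1)) ^ 3 * a0) ≤ h * (q0 * z0) := by
        calc h * ((8 * ((J : ℤ) + 1)) ^ 3 * a0) = (8 * ((J : ℤ) + 1)) ^ 3 * (h * a0) := by ring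
          _ ≤ _ := he
      exact le_of_mul_le_mul_left h2 hh
    have h3 : q0 * z0 ≤ (8 * ((J : ℤ) + 1)) * z0 := mul_le_mul_of_nonneg_right hq'.le hz.le
    have h4 : (8 * ((J : ℤ) + 1)) * ((8 * ((J : ℤ) + 1)) ^ 2 * a0) ≤ (8 * ((J : ℤ) + 1)) * z0 := by
      calc (8 * ((J : ℤ) + 1)) * ((8 * ((J : ℤ) + 1)) ^ 2 * a0) = (8 * ((J : ℤ) + 1)) ^ 3 * a0 := by
            ring
        _ ≤ _ := h1
        _ ≤ _ := h3
    exact le_of_mul_le_mul_left h4 (by positivity)
  have hJJ : 8 * ((J : ℤ) + 1) ≤ (8 * ((J : ℤ) + 1)) ^ 2 := by nlinarith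
  have hroom : 3 * (J : ℤ) * a0 ≤ z0 := by
    have h1 : 3 * (J : ℤ) * a0 ≤ (8 * ((J : ℤ) + 1)) ^ 2 * a0 :=
      mul_le_mul_of_nonneg_right (by linarith) ha0.le
    linarith
  have hqz : q0 ≤ z0 := by
    have h1 : (8 * ((J : ℤ) + 1)) ^ 2 * 1 ≤ (8 * ((J : ℤ) + 1)) ^ 2 * a0 :=
      mul_le_mul_of_nonneg_left (by linarith) (by positivity)
    linarith
  have haz : a0 ≤ z0 := by
    have h1 : 1 * a0 ≤ (8 * ((J : ℤ) + 1)) ^ 2 * a0 :=
      mul_le_mul_of_nonneg_right (by nlinarith) ha0.le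
    linarith
  have he1 : 1 ≤ q0 * z0 := by nlinarith
  have he4 : h * (q0 * z0) ^ 3 ≤ (h * (q0 * z0)) ^ 4 := by
    have h1 : (h * (q0 * z0)) ^ 4 = (h * (q0 * z0) ^ 3) * (h ^ 3 * (q0 * z0)) := by ring
    rw [h1]
    have h2 : 1 ≤ h ^ 3 * (q0 * z0) := by
      have : 0 < h ^ 3 * (q0 * z0) := by positivity
      linarith
    have h3 : 0 ≤ h * (q0 * z0) ^ 3 := by positivity
    calc h * (q0 * z0) ^ 3 = (h * (q0 * z0) ^ 3) * 1 := by ring
      _ ≤ _ := mul_le_mul_of_nonneg_left h2 h3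
  have hM : ∀ x : ℤ, 0 ≤ x → x < q0 → D * h * q0 * (q0 - x) * (a0 + q0 * z0 - x * z0) ≤ (X : ℤ) := by
    intro x hx hxq
    have h1 : q0 - x ≤ q0 := by linarith
    have h2 : a0 + q0 * z0 - x * z0 ≤ 2 * (q0 * z0) := by
      have : 0 ≤ x * z0 := mul_nonneg hx hz.le
      have h4 : 1 * z0 ≤ q0 * z0 := mul_le_mul_of_nonneg_right (by linarith) hz.le
      linarith
    have h3 : 0 ≤ a0 + q0 * z0 - x * z0 := by
      have : 0 ≤ z0 * (q0 - x) := mul_nonneg hz.le (by linarith)
      linarith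
    calc D * h * q0 * (q0 - x) * (a0 + q0 * z0 - x * z0)
        ≤ D * h * q0 * q0 * (2 * (q0 * z0)) :=
          mul_le_mul (mul_le_mul_of_nonneg_left h1 (by positivity)) h2 h3 (by positivity)
      _ ≤ D * h * q0 * (q0 * z0 * z0) * (2 * (q0 * z0)) := by
          refine mul_le_mul_of_nonneg_right (mul_le_mul_of_nonneg_left ?_ (by positivity))
            (by positivity)
          have h5 : q0 * 1 ≤ q0 * (z0 * z0) := mul_le_mul_of_nonneg_left (by nlinarith) (by linarith)
          linarith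
      _ = 2 * D * (h * (q0 * z0) ^ 3) := by ring
      _ ≤ 2 * D * (h * (q0 * z0)) ^ 4 := mul_le_mul_of_nonneg_left he4 (by positivity)
      _ ≤ 64 * D * (h * (q0 * z0)) ^ 4 := by
          have : 0 ≤ D * (h * (q0 * z0)) ^ 4 := by positivity
          linarith
      _ ≤ _ := hX
  have hbU : ∀ p : ℤ, DV p U ↔ p ∣ b' := fun p => by rw [dv_iff_gcv, hb]
  have hbs' : (gcv U : ℤ) ∣ a0 + q0 * z0 := by rw [hb]; exact hbs
  -- the rows
  have key : ∀ x o : ℤ, (o = 1 ∨ o = -1) → 0 ≤ x → 3 * x ≤ 2 * q0 →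
      (∀ p : ℕ, p.Prime → (p : ℤ) ∣ b' → ¬ (p : ℤ) ∣ x) →
      ((2 : ℤ) ∣ b' ∨ (2 : ℤ) ∣ q0 ∨ (2 : ℤ) ∣ x) →
      ∃ p : ℕ, p.Prime ∧ (p : ℤ) ∣ q0 ∧ ¬ (p : ℤ) ∣ b' ∧ ¬ (p : ℤ) ∣ x ∧
      ∃ i : ℤ, (p : ℤ) ∣ s * i + o * x ∧
        DV (p : ℤ) ((1 + i) • U + (o * (a0 + q0 * z0 - x * z0)) • Q) := by
    intro x o ho hx0 hx h1 h2
    by_contra hcon
    push Not at hcon
    obtain ⟨j, t, i, hqc, hg⟩ := q.e4row hC hq hz hc ho hx0 hx hbs' (hM x hx0 (by linarith)) hroom
      (fun p hp hU => h1 p hp ((hbU _).1 hU))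
      (fun p hp hpq hU hpx i hi => hcon p hp hpq (fun h3 => hU ((hbU _).2 h3)) hpx i hi)
      (by rw [hbU]; exact h2)
    have := hs j t i o hqc
    rw [hg] at this
    push_cast at this
    linarith
  by_cases hI : ∃ p : ℕ, p.Prime ∧ (p : ℤ) ∣ q0 ∧ (p : ℤ) ∣ b'
  · -- Case I
    exfalso
    obtain ⟨p, hp, hpq, hpb⟩ := hI
    obtain ⟨n, hn⟩ : ∃ n : ℕ, q0 = n := ⟨q0.toNat, by omega⟩
    obtain ⟨n1, n2, h12, hn1, hn2⟩ := e4_split b' n (by omega)
    have hn1p : p ∣ n1 := by
      have h1 : p ∣ n1 * n2 := by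
        rw [← h12]
        exact Int.natCast_dvd_natCast.1 (by rw [← hn]; exact hpq)
      rcases hp.dvd_mul.1 h1 with h2 | h2
      · exact h2
      · exact absurd hpb (hn2 p hp h2)
    have hnpos : 0 < n := by omega
    have hn1pos : 0 < n1 := by
      rcases Nat.eq_zero_or_pos n1 with h0 | h0
      · rw [h12, h0] at hnpos; simp at hnpos
      · exact h0
    have hn2pos : 0 < n2 := by
      rcases Nat.eq_zero_or_pos n2 with h0 | h0
      · rw [h12, h0] at hnpos; simp at hnpos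
      · exact h0
    have hn1two : 2 ≤ n1 := le_trans hp.two_le (Nat.le_of_dvd hn1pos hn1p)
    have hqn : q0 = (n1 : ℤ) * n2 := by rw [hn, h12]; push_cast; ring
    obtain ⟨ep, hep1, hep⟩ : ∃ ep : ℕ, (ep = 1 ∨ ep = 2) ∧
        ((ep = 1 ∧ ((2 : ℤ) ∣ b' ∨ (2 : ℤ) ∣ q0)) ∨ (ep = 2 ∧ ¬ (2 : ℤ) ∣ b' ∧ ¬ (2 : ℤ) ∣ q0)) := by
      by_cases h1 : (2 : ℤ) ∣ b' ∨ (2 : ℤ) ∣ q0
      · exact ⟨1, Or.inl rfl, Or.inl ⟨rfl, h1⟩⟩
      · push Not at h1
        exact ⟨2, Or.inr rfl, Or.inr ⟨rfl, h1.1, h1.2⟩⟩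
    have hepn : (3 : ℤ) * (ep * n2) ≤ 2 * q0 := by
      rcases hep with ⟨rfl, -⟩ | ⟨rfl, -, h2⟩
      · have : 3 * (1 * n2) ≤ 2 * (n1 * n2) := by nlinarith
        rw [hqn]; exact_mod_cast this
      · have h3 : 3 ≤ n1 := by
          by_contra hlt
          have h4 : n1 = 2 := by omega
          exact h2 ⟨n2, by rw [hqn, h4]; push_cast; ring⟩
        have : 3 * (2 * n2) ≤ 2 * (n1 * n2) := by nlinarith
        rw [hqn]; exact_mod_cast this
    obtain ⟨l, hl, hlq, hlb, hlx, -⟩ := key ((ep : ℤ) * n2) 1 (Or.inl rfl) (by positivity) hepn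
      (fun l hl hlb hlx => by
        have hli := Nat.prime_iff_prime_int.1 hl
        rcases hli.dvd_or_dvd hlx with h1 | h1
        · rcases hep with ⟨rfl, -⟩ | ⟨rfl, h2, -⟩
          · exact prime_not_dvd_one hl (by exact_mod_cast h1)
          · have h3 : l = 2 := (Nat.prime_dvd_prime_iff_eq hl Nat.prime_two).1
              (Int.natCast_dvd_natCast.1 h1)
            rw [h3] at hlb
            exact h2 (by exact_mod_cast hlb)
        · exact hn2 l hl (Int.natCast_dvd_natCast.1 h1) hlb)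
      (by
        rcases hep with ⟨rfl, h1⟩ | ⟨rfl, -, -⟩
        · rcases h1 with h1 | h1
          · exact Or.inl h1
          · exact Or.inr (Or.inl h1)
        · exact Or.inr (Or.inr ⟨n2, by push_cast; ring⟩))
    rw [hqn] at hlq
    rcases (Nat.prime_iff_prime_int.1 hl).dvd_or_dvd hlq with h1 | h1
    · exact hlb (hn1 l hl (Int.natCast_dvd_natCast.1 h1))
    · exact hlx (h1.mul_left _)
  · push Not at hI
    by_cases hII : ∃ p0 : ℕ, p0.Prime ∧ p0 ≠ 2 ∧ (p0 : ℤ) ∣ q0
    · -- Case II.a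
      exfalso
      obtain ⟨p0, hp0, hp02, m, hm⟩ := hII
      have hp0i := Nat.prime_iff_prime_int.1 hp0
      have hp3 : (3 : ℤ) ≤ p0 := by
        have h1 := hp0.two_le
        have : 3 ≤ p0 := by omega
        exact_mod_cast this
      have hm0 : 0 < m := by
        have h1 : 0 < (p0 : ℤ) * m := by rw [← hm]; linarith
        exact (pos_iff_pos_of_mul_pos h1).1 (by linarith)
      obtain ⟨ep, hep1, hep⟩ : ∃ ep : ℤ, (ep = 1 ∨ ep = 2) ∧
          ((ep = 1 ∧ ((2 : ℤ) ∣ b' ∨ (2 : ℤ) ∣ q0)) ∨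
            (ep = 2 ∧ ¬ (2 : ℤ) ∣ b' ∧ ¬ (2 : ℤ) ∣ q0)) := by
        by_cases h1 : (2 : ℤ) ∣ b' ∨ (2 : ℤ) ∣ q0
        · exact ⟨1, Or.inl rfl, Or.inl ⟨rfl, h1⟩⟩
        · push Not at h1
          exact ⟨2, Or.inr rfl, Or.inr ⟨rfl, h1.1, h1.2⟩⟩
      have hmq : m ∣ q0 := ⟨p0, by rw [hm]; ring⟩
      have hlp : ∀ l : ℕ, l.Prime → (l : ℤ) ∣ ep → ep = 2 ∧ l = 2 := by
        intro l hl h1
        rcases hep1 with rfl | rfl
        · exact absurd h1 (prime_not_dvd_one hl)
        · exact ⟨rfl, (Nat.prime_dvd_prime_iff_eq hl Nat.prime_two).1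
            (Int.natCast_dvd_natCast.1 (by exact_mod_cast h1))⟩
      have key2 : ∀ o : ℤ, (o = 1 ∨ o = -1) → ∃ i : ℤ, (p0 : ℤ) ∣ s * i + o * (ep * m) ∧
          DV (p0 : ℤ) ((1 + i) • U + (o * (a0 + q0 * z0 - ep * m * z0)) • Q) := by
        intro o ho
        obtain ⟨l, hl, hlq, hlb, hlx, i, hi1, hi2⟩ := key (ep * m) o ho
          (by rcases hep1 with rfl | rfl <;> linarith)
          (by
            rw [hm]
            have : 3 * m ≤ p0 * m := mul_le_mul_of_nonneg_right hp3 hm0.le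
            rcases hep1 with rfl | rfl <;> linarith)
          (fun l hl hlb hlx => by
            have hli := Nat.prime_iff_prime_int.1 hl
            rcases hli.dvd_or_dvd hlx with h1 | h1
            · obtain ⟨h2, h3⟩ := hlp l hl h1
              rcases hep with ⟨h4, -⟩ | ⟨-, h5, -⟩
              · rw [h2] at h4; norm_num at h4
              · rw [h3] at hlb
                exact h5 (by exact_mod_cast hlb)
            · exact hI l hl (h1.trans hmq) hlb)
          (by
            rcases hep with ⟨-, h1⟩ | ⟨h1, -, -⟩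
            · rcases h1 with h1 | h1
              · exact Or.inl h1
              · exact Or.inr (Or.inl h1)
            · exact Or.inr (Or.inr ⟨m, by rw [h1]⟩))
        have hl0 : l = p0 := by
          rw [hm] at hlq
          rcases (Nat.prime_iff_prime_int.1 hl).dvd_or_dvd hlq with h1 | h1
          · exact (Nat.prime_dvd_prime_iff_eq hl hp0).1 (Int.natCast_dvd_natCast.1 h1)
          · exact absurd (h1.mul_left ep) hlx
        subst hl0
        exact ⟨i, hi1, hi2⟩
      obtain ⟨i1, h11, h12⟩ := key2 1 (Or.inl rfl)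
      obtain ⟨i2, h21, h22⟩ := key2 (-1) (Or.inr rfl)
      have hps : ¬ (p0 : ℤ) ∣ s := fun h3 =>
        hp0i.not_isUnit (hc.isUnit_of_dvd' h3 ⟨m, hm⟩)
      have h3 : (p0 : ℤ) ∣ i1 + i2 := by
        have h4 : (p0 : ℤ) ∣ s * (i1 + i2) := by
          have := dvd_add h11 h21
          have e1 : s * i1 + 1 * (ep * m) + (s * i2 + -1 * (ep * m)) = s * (i1 + i2) := by ring
          rwa [e1] at this
        exact (hp0i.dvd_or_dvd h4).resolve_left hps
      have h5 : DV (p0 : ℤ) ((2 : ℤ) • U) := by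
        have h6 := (h12.add h22).sub (DV.smul_of_dvd h3 U)
        have e1 : (1 + i1) • U + (1 * (a0 + q0 * z0 - ep * m * z0)) • Q +
            ((1 + i2) • U + (-1 * (a0 + q0 * z0 - ep * m * z0)) • Q) - (i1 + i2) • U =
            (2 : ℤ) • U := by module
        rwa [e1] at h6
      rcases DV.prime_smul_or hp0 h5 with h6 | h6
      · exact hp02 ((Nat.prime_dvd_prime_iff_eq hp0 Nat.prime_two).1
          (Int.natCast_dvd_natCast.1 (by exact_mod_cast h6)))
      · exact hI p0 hp0 ⟨m, hm⟩ ((hbU _).1 h6)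
    · push Not at hII
      -- only the prime two divides `q0`
      have hq2 : (2 : ℤ) ∣ q0 := by
        have h1 : q0.natAbs ≠ 1 := by omega
        obtain ⟨p, hp, hpd⟩ := Nat.exists_prime_and_dvd h1
        have h2 : (p : ℤ) ∣ q0 := Int.natCast_dvd.2 hpd
        by_cases h3 : p = 2
        · rw [h3] at h2; exact_mod_cast h2
        · exact absurd h2 (hII p hp h3)
      have hb2' : ¬ (2 : ℤ) ∣ b' := fun h1 => hI 2 Nat.prime_two (by exact_mod_cast hq2)
        (by exact_mod_cast h1)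
      have honly : ∀ l : ℕ, l.Prime → (l : ℤ) ∣ q0 → l = 2 := by
        intro l hl h1
        by_contra h2
        exact hII l hl h2 h1
      by_cases h4 : (4 : ℤ) ∣ q0
      · -- Case II.b
        exfalso
        obtain ⟨m, hm⟩ := h4
        obtain ⟨l, hl, hlq, hlb, hlx, -⟩ := key (2 * m) 1 (Or.inl rfl) (by linarith) (by linarith)
          (fun l hl hlb hlx => hI l hl (by
            rw [hm]
            have e1 : 4 * m = 2 * m * 2 := by ring
            rw [e1]; exact hlx.mul_right _) hlb)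
          (Or.inr (Or.inl hq2))
        rw [honly l hl hlq] at hlx
        exact hlx ⟨m, by push_cast; ring⟩
      · -- Case II.c
        have hq02 : q0 = 2 := by
          obtain ⟨m, hm⟩ := hq2
          have h5 : ¬ (2 : ℤ) ∣ m := fun ⟨c, hc⟩ => h4 ⟨c, by rw [hm, hc]; ring⟩
          have h6 : m = 1 := by
            by_contra hne
            have h7 : m.natAbs ≠ 1 := by omega
            obtain ⟨p, hp, hpd⟩ := Nat.exists_prime_and_dvd h7
            have h8 : (p : ℤ) ∣ m := Int.natCast_dvd.2 hpd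
            have h9 := honly p hp (by rw [hm]; exact h8.mul_left _)
            rw [h9] at h8
            exact h5 (by exact_mod_cast h8)
          rw [hm, h6]; norm_num
        subst hq02
        have hodd : Odd b' := by
          rw [← Int.not_even_iff_odd]
          exact fun h5 => hb2' h5.two_dvd
        have hdv : DV 2 ((a0 + z0) • Q) := by
          by_contra hn
          obtain ⟨l, hl, hlq, hlb, hlx, i, hi1, hi2⟩ := key 1 1 (Or.inl rfl) (by norm_num)
            (by norm_num) (fun l hl _ => prime_not_dvd_one hl) (Or.inr (Or.inl hq2))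
          have hl2 := honly l hl hlq
          subst hl2
          push_cast at hi1 hi2
          have hi3 : (2 : ℤ) ∣ 1 + i := by
            have h5 : ¬ (2 : ℤ) ∣ i := by
              intro h6
              have h7 := dvd_sub hi1 (h6.mul_left s)
              have e1 : s * i + 1 - s * i = 1 := by ring
              rw [e1] at h7
              exact prime_not_dvd_one Nat.prime_two (by exact_mod_cast h7)
            omega
          refine hn ?_
          have h6 := hi2.sub (DV.smul_of_dvd hi3 U)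
          have e1 : (1 + i) • U + (1 * (a0 + 2 * z0 - 1 * z0)) • Q - (1 + i) • U =
              (a0 + z0) • Q := by module
          rwa [e1] at h6
        refine ⟨?_, rfl, hodd, hdv⟩
        obtain ⟨j, t, i, hqc, hg⟩ := q.e4row2 hC hz hc hbs' (by
          have h5 := hM 1 (by norm_num) (by norm_num)
          have e1 : D * h * 2 * (2 - 1) * (a0 + 2 * z0 - 1 * z0) = 2 * D * h * (a0 + z0) := by ring
          rwa [e1] at h5) hroom (fun h5 => hb2' ((hbU _).1 h5)) hdv
        have h5 := hs j t i 1 hqc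
        rw [hg] at h5
        push_cast at h5
        linarith

end Pool.Agent.H4G
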