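import Pool.Agent.H4G.Cone.Defs
import Pool.Agent.H4G.Asym.Fat1

/-!
# Row E5: an exit with `gcv W = A` (helper46)
-/

set_option autoImplicit false

namespace Pool.Agent.H4G

theorem DV.pow_smul {p : ℕ} (hp : p.Prime) {n : ℕ} {c : ℤ} {x : Z2}
    (h : DV ((p : ℤ) ^ n) (c • x)) (hc : ¬ (p : ℤ) ∣ c) : DV ((p : ℤ) ^ n) x := by
  have hp' : Prime (p : ℤ) := Nat.prime_iff_prime_int.1 hp
  have hco : IsCoprime ((p : ℤ) ^ n) c := ((Prime.coprime_iff_not_dvd hp').2 hc).pow_left
  obtain ⟨h1, h2⟩ := h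
  rw [Prod.smul_fst, smul_eq_mul] at h1
  rw [Prod.smul_snd, smul_eq_mul] at h2
  exact ⟨hco.dvd_of_dvd_mul_left h1, hco.dvd_of_dvd_mul_left h2⟩

/-- two bad classes -/
theorem DV.two_z {p : ℕ} (hp : p.Prime) {n : ℕ} {U R : Z2} (hU : ¬ DV ((p : ℤ) ^ n) U) {z z' : ℤ}
    (h : DV ((p : ℤ) ^ n) (U + z • R)) (h' : DV ((p : ℤ) ^ n) (U + z' • R)) :
    (p : ℤ) ∣ z - z' := by
  by_contra hd
  have h3 : DV ((p : ℤ) ^ n) ((z - z') • R) := by
    have := h.sub h'
    have e1 : U + z • R - (U + z' • R) = (z - z') • R := by module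
    rwa [e1] at this
  have h4 := DV.pow_smul hp h3 hd
  refine hU ?_
  have := h.sub (h4.smul z)
  have e1 : U + z • R - z • R = U := by module
  rwa [e1] at this

/-- **E5 (QX.cEq)** -/
theorem QX.cEq {h a0 e0 f0 D : ℤ} {U Q : Z2} (q : QX h a0 e0 f0 D U Q) {J X : ℕ} (hJ : 1 ≤ J)
    (hC : Cap J X) (hX : 64 * D * (h * e0) ^ 4 ≤ (X : ℤ)) (hS : QS h a0 e0 f0 U Q (h * a0))
    (hU : (gcv U : ℤ) = h * a0) {i1 k0 : ℤ} (h1 : 1 ≤ i1) (h2 : i1 < 8 * ((J : ℤ) + 1))
    (hco : IsCoprime k0 i1) (_hs : i1 * (h * f0) - k0 * (h * e0) ≠ 0)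
    (hs' : |i1 * (h * f0) - k0 * (h * e0)| < 8 * ((J : ℤ) + 1) * (h * a0))
    (he : (8 * ((J : ℤ) + 1)) ^ 3 * (h * a0) ≤ h * e0) :
    ∃ j t i o : ℤ, QC (h * a0) (h * e0) (h * f0) t i o ∧ 0 < i ∧ 4 * (i * (h * a0)) ≤ h * e0 ∧
      (gcv (QW a0 e0 f0 U Q j t i o) : ℤ) = h * a0 := by
  have hJ1 : (1 : ℤ) ≤ (J : ℤ) := by exact_mod_cast hJ
  obtain ⟨K, hK⟩ : ∃ K : ℤ, K = (J : ℤ) + 1 := ⟨_, rfl⟩
  have hK2 : 2 ≤ K := by omega
  rw [← hK] at h2 hs' he
  have ha0 := q.pa
  have he0 := q.pe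
  have hh := q.ph
  have hD := q.pD
  obtain ⟨A, hA⟩ : ∃ A : ℤ, A = h * a0 := ⟨_, rfl⟩
  obtain ⟨e, hee⟩ : ∃ e : ℤ, e = h * e0 := ⟨_, rfl⟩
  have hA0 : 0 < A := by rw [hA]; positivity
  have he0' : 0 < e := by rw [hee]; positivity
  obtain ⟨s1, hs1⟩ : ∃ s1 : ℤ, s1 = i1 * (h * f0) - k0 * (h * e0) := ⟨_, rfl⟩
  rw [← hs1, ← hA] at hs'
  rw [← hA, ← hee] at he
  rw [← hee] at hX
  rw [← hA] at hS hU
  have habs := abs_nonneg s1
  obtain ⟨o, ho, hos⟩ : ∃ o : ℤ, (o = 1 ∨ o = -1) ∧ o * s1 = -|s1| := by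
    rcases le_total s1 0 with h | h
    · exact ⟨1, Or.inl rfl, by rw [abs_of_nonpos h]; ring⟩
    · exact ⟨-1, Or.inr rfl, by rw [abs_of_nonneg h]; ring⟩
  have hoo : o * o = 1 := by rcases ho with rfl | rfl <;> norm_num
  -- bounds
  have hKK : 0 ≤ K * K := by positivity
  have hKA : 512 * (K * K * A) ≤ e := by
    have e1 : (8 * K) ^ 3 * A = 512 * (K * K * A) * K := by ring
    rw [e1] at he
    have e2 : 0 ≤ K * K * A := by positivity
    have e3 : 512 * (K * K * A) * 1 ≤ 512 * (K * K * A) * K :=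
      mul_le_mul_of_nonneg_left (by omega) (by positivity)
    linarith
  have hAe : 2 * A ≤ e := by
    have e1 : 1 * A ≤ K * K * A := mul_le_mul_of_nonneg_right (by nlinarith) hA0.le
    linarith
  obtain ⟨G, hG⟩ : ∃ G : ℤ, G = |s1| + i1 * (A + e) := ⟨_, rfl⟩
  have hi0 : 0 < i1 := by omega
  have hG0 : 0 < G := by
    have : 0 < i1 * (A + e) := by positivity
    rw [hG]; linarith
  have hGle : G ≤ 16 * K * e := by
    have e1 : i1 * (A + e) ≤ 8 * K * (A + e) :=
      mul_le_mul_of_nonneg_right h2.le (by linarith)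
    have e2 : 8 * K * (2 * A) ≤ 8 * K * e := mul_le_mul_of_nonneg_left hAe (by linarith)
    rw [hG]
    linarith
  obtain ⟨M, hM⟩ : ∃ M : ℤ, M = 2 * D * G * A * i1 := ⟨_, rfl⟩
  have hM0 : 0 < M := by rw [hM]; positivity
  have hMX : M ≤ (X : ℤ) := by
    have e1 : M ≤ 2 * D * (16 * K * e) * A * (8 * K) := by
      rw [hM]
      refine mul_le_mul ?_ h2.le hi0.le (by positivity)
      refine mul_le_mul_of_nonneg_right ?_ hA0.le
      exact mul_le_mul_of_nonneg_left hGle (by positivity)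
    have e2 : 2 * D * (16 * K * e) * A * (8 * K) = D * e * (256 * (K * K * A)) := by ring
    have e3 : D * e * (256 * (K * K * A)) ≤ D * e * e := by
      refine mul_le_mul_of_nonneg_left ?_ (by positivity)
      have : 0 ≤ K * K * A := by positivity
      linarith
    have e4 : D * e * e ≤ 64 * D * e ^ 4 := by
      have e5 : 64 * D * e ^ 4 - D * e * e = D * e * e * (64 * (e * e) - 1) := by ring
      have e6 : 1 ≤ e * e := by nlinarith
      have e7 : 0 ≤ D * e * e * (64 * (e * e) - 1) := by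
        have : 0 ≤ 64 * (e * e) - 1 := by linarith
        positivity
      linarith
    linarith
  -- the direction
  obtain ⟨R, hR⟩ : ∃ R : Z2, R = (2 * i1) • U + (2 * ((i1 * f0 - k0 * e0) - o * i1 * (a0 + e0))) • Q :=
    ⟨_, rfl⟩
  have hcr : ∀ z : ℤ, cr (U + z • R) R = -o * (2 * D * G) := by
    intro z
    have e1 : cr (U + z • R) R = 2 * ((i1 * f0 - k0 * e0) - o * i1 * (a0 + e0)) * (D * h) := by
      rw [cr_add_left, cr_smul_left, cr_self, hR, cr_add_right, cr_smul_right, cr_smul_right,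
        cr_self, q.cUQ]
      ring
    have e2 : o * s1 = -|s1| := hos
    have e3 : o * (-o * (2 * D * G)) = -(2 * D * G) := by linear_combination (-(2 * D * G)) * hoo
    have e4 : o * (2 * ((i1 * f0 - k0 * e0) - o * i1 * (a0 + e0)) * (D * h)) = -(2 * D * G) := by
      have e5 : 2 * ((i1 * f0 - k0 * e0) - o * i1 * (a0 + e0)) * (D * h) =
          2 * D * (s1 - o * (i1 * (A + e))) := by rw [hs1, hA, hee]; ring
      rw [e5, hG]
      linear_combination (2 * D) * e2 - 2 * D * (i1 * (A + e)) * hoo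
    rw [e1]
    have e6 : o ≠ 0 := by rcases ho with rfl | rfl <;> norm_num
    refine mul_left_cancel₀ e6 ?_
    rw [e3, e4]
  have hUn : ∀ p : ℕ, p.Prime → ¬ DV ((p : ℤ) ^ (A.natAbs.factorization p + 1)) U := by
    intro p hp hd
    rw [dv_iff_gcv, hU] at hd
    have h3 : p ^ (A.natAbs.factorization p + 1) ∣ A.natAbs := by
      have := Int.natAbs_dvd_natAbs.2 hd
      rwa [Int.natAbs_pow, Int.natAbs_natCast] at this
    exact Nat.pow_succ_factorization_not_dvd (by omega) hp h3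
  obtain ⟨z, hz1, hz2, hz⟩ := sieve2 (M.natAbs.primeFactors)
    (fun p hp => Nat.prime_of_mem_primeFactors hp)
    (fun p z => DV ((p : ℤ) ^ (A.natAbs.factorization p + 1)) (U + z • R))
    (fun p z => p ≠ 2 ∧ (p : ℤ) ∣ i1 ∧ (p : ℤ) ∣ o - 2 * z * k0)
    (fun p hp z z' hz hz' => by
      have hpp := Nat.prime_of_mem_primeFactors hp
      exact DV.two_z hpp (hUn p hpp) hz hz')
    (fun p hp z z' hz hz' => by
      have hpp := Nat.prime_of_mem_primeFactors hp
      have hpi := Nat.prime_iff_prime_int.1 hpp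
      obtain ⟨q1, q2, q3⟩ := hz
      have h3 : (p : ℤ) ∣ 2 * (k0 * (z - z')) := by
        have := dvd_sub hz'.2.2 q3
        have e1 : o - 2 * z' * k0 - (o - 2 * z * k0) = 2 * (k0 * (z - z')) := by ring
        rwa [e1] at this
      rcases hpi.dvd_or_dvd h3 with h4 | h4
      · exfalso
        have h5 : p ∣ 2 := by exact_mod_cast h4
        rcases (Nat.dvd_prime Nat.prime_two).1 h5 with h6 | h6
        · exact hpp.one_lt.ne' h6
        · exact q1 h6
      · rcases hpi.dvd_or_dvd h4 with h5 | h5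
        · exact absurd (hco.isUnit_of_dvd' h5 q2) hpi.not_isUnit
        · exact h5)
    (Or.inr fun z hz => hz.1 rfl) 1
  have hcap := cap_use hC hM0 hMX
  have hzJ : z ≤ (J : ℤ) := by omega
  have hzK : z ≤ K := by omega
  -- the exit
  obtain ⟨t, ht⟩ : ∃ t : ℤ, t = o - 2 * z * k0 := ⟨_, rfl⟩
  obtain ⟨i, hi⟩ : ∃ i : ℤ, i = 2 * z * i1 := ⟨_, rfl⟩
  have hzi : z * i1 ≤ K * (8 * K) := mul_le_mul hzK h2.le hi0.le (by omega)
  have hiA : z * i1 * A ≤ 8 * (K * K * A) := by
    have := mul_le_mul_of_nonneg_right hzi hA0.le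
    linarith
  have hzs : z * |s1| ≤ 8 * (K * K * A) := by
    have := mul_le_mul hzK hs'.le habs (by omega)
    linarith
  have hKKA : 0 < K * K * A := by positivity
  have hF : o * (t * e + i * (h * f0)) = e - 2 * (z * |s1|) := by
    rw [ht, hi]
    have e1 : o * ((o - 2 * z * k0) * e + 2 * z * i1 * (h * f0)) =
        o * o * e + 2 * z * (o * (i1 * (h * f0) - k0 * e)) := by ring
    have e2 : i1 * (h * f0) - k0 * e = s1 := by rw [hs1, hee]
    rw [e1, e2, hos, hoo]; ring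
  have hQC : QC A e (h * f0) t i o := by
    refine ⟨ho, ?_, ?_, ?_, ?_⟩
    · rw [hi]; have : 0 < z * i1 := by positivity
      linarith
    · refine cop_of_primes fun p hp hpt hpi => ?_
      have hpi' := Nat.prime_iff_prime_int.1 hp
      have h2z : ¬ (p : ℤ) ∣ 2 * z := by
        intro h3
        have h4 : (p : ℤ) ∣ o := by
          have := dvd_add hpt (h3.mul_right k0)
          rw [ht] at this
          have e1 : o - 2 * z * k0 + 2 * z * k0 = o := by ring
          rwa [e1] at this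
        have h5 : (p : ℤ) ∣ 1 := by
          rw [← hoo]; exact h4.mul_right o
        exact hpi'.not_dvd_one h5
      rw [hi] at hpi
      have h3 := (hpi'.dvd_or_dvd hpi).resolve_left h2z
      have hp2 : p ≠ 2 := by
        rintro rfl
        exact h2z (by push_cast; exact dvd_mul_right _ _)
      have hmem : p ∈ M.natAbs.primeFactors := mem_pf hp hM0.ne' (by rw [hM]; exact h3.mul_left _)
      exact (hz p hmem).2 ⟨hp2, h3, by rw [ht] at hpt; exact hpt⟩
    · rw [hF, hi]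
      linarith
    · rw [hF]
      have : 0 ≤ z * |s1| := by positivity
      linarith
  have hW : QW a0 e0 f0 U Q o t i o = U + z • R := by
    rw [QW, hR, ht, hi]
    module
  have hge := hS o t i o (by rw [← hA, ← hee]; exact hQC)
  rw [hW] at hge
  have hgne : gcv (U + z • R) ≠ 0 := by
    intro h0
    rw [h0] at hge
    push_cast at hge
    linarith
  have hdvd : gcv (U + z • R) ∣ A.natAbs := by
    refine (Nat.factorization_prime_le_iff_dvd hgne (by omega)).1 fun p hp => ?_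
    by_contra hlt
    push Not at hlt
    have h3 : p ^ (A.natAbs.factorization p + 1) ∣ gcv (U + z • R) :=
      (Nat.pow_dvd_pow p hlt).trans (Nat.ordProj_dvd _ _)
    have h4 : DV ((p : ℤ) ^ (A.natAbs.factorization p + 1)) (U + z • R) := by
      rw [dv_iff_gcv]
      exact_mod_cast h3
    have h5 : (p : ℤ) ∣ cr (U + z • R) R :=
      (dvd_pow_self (p : ℤ) (Nat.succ_ne_zero _)).trans (h4.cr_left R)
    rw [hcr] at h5
    have h6 : (p : ℤ) ∣ 2 * D * G := by
      have h7 := h5.mul_left o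
      have e1 : o * (-o * (2 * D * G)) = -(2 * D * G) := by
        linear_combination (-(2 * D * G)) * hoo
      rw [e1] at h7
      exact (dvd_neg).1 h7
    have hmem : p ∈ M.natAbs.primeFactors :=
      mem_pf hp hM0.ne' (by rw [hM]; exact (h6.mul_right A).mul_right i1)
    exact (hz p hmem).1 h4
  have hle : (gcv (U + z • R) : ℤ) ≤ A := by
    have := Nat.le_of_dvd (by omega) hdvd
    omega
  refine ⟨o, t, i, o, by rw [← hA, ← hee]; exact hQC, ?_, ?_, ?_⟩
  · rw [hi]
    have : 0 < z * i1 := by positivity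
    linarith
  · rw [← hA, ← hee, hi]
    linarith
  · rw [hW, ← hA]
    exact le_antisymm hle hge

end Pool.Agent.H4G
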