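import Pool.Agent.H4G.Cone.Defs
import Pool.Agent.H4G.Asym.Fat1

/-!
# Row E6: `A = b = 2`, `f` odd (helper76)
-/

set_option autoImplicit false

namespace Pool.Agent.H4G

/-- a point of the line `i1 t + k0 i = T` with `L ≤ i < L + i1` -/
private theorem line_pt {i1 k0 : ℤ} (hi : 1 ≤ i1) (hk : IsCoprime k0 i1) (T L : ℤ) :
    ∃ t i : ℤ, L ≤ i ∧ i < L + i1 ∧ i1 * t + k0 * i = T := by
  obtain ⟨u, v, huv⟩ := hk
  have h0 : i1 ≠ 0 := by linarith
  have hm := Int.mul_ediv_add_emod (u * T - L) i1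
  have hm1 := Int.emod_nonneg (u * T - L) h0
  have hm2 := Int.emod_lt_of_pos (u * T - L) (by linarith : 0 < i1)
  refine ⟨v * T + k0 * ((u * T - L) / i1), L + (u * T - L) % i1, by linarith, by linarith, ?_⟩
  have e1 : (u * T - L) % i1 = (u * T - L) - i1 * ((u * T - L) / i1) := by linarith
  rw [e1]
  linear_combination T * huv

variable {e f D i1 k0 : ℤ} {U Q : Z2}

/-- the direction of the line -/
private def QR (e f i1 k0 : ℤ) (U Q : Z2) (j : ℤ) : Z2 :=
  i1 • U + (i1 * f - k0 * e - i1 * j * (2 + e)) • Q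

private theorem QW_line (e f i1 k0 : ℤ) (U Q : Z2) (j t i o k : ℤ) :
    QW 2 e f U Q j (t - k * k0) (i + k * i1) o =
      QW 2 e f U Q j t i o + k • QR e f i1 k0 U Q j := by
  unfold QW QR
  module

private theorem QW_cr (h : QX 1 2 e f D U Q) (j t i o τ : ℤ) (hτ : i1 * t + k0 * i = τ) :
    cr (QW 2 e f U Q j t i o) (QR e f i1 k0 U Q j) =
      D * (i1 * f - k0 * e - 2 * o * i1 - τ * e) := by
  have hUQ : cr U Q = D := by rw [h.cUQ]; ring
  have hQU : cr Q U = -D := by rw [cr_swap, hUQ]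
  unfold QW QR
  simp only [cr_add_left, cr_add_right, cr_smul_left, cr_smul_right, cr_self, hUQ, hQU]
  rw [← hτ]
  ring

private theorem QW_mul (e f i1 k0 : ℤ) (U Q : Z2) (j t i o τ : ℤ) (hτ : i1 * t + k0 * i = τ) :
    i1 • QW 2 e f U Q j t i o = (1 + i) • QR e f i1 k0 U Q j +
      (2 * o * i1 + τ * e - (i1 * f - k0 * e)) • Q := by
  unfold QW QR
  rw [← hτ]
  module

private theorem QX.odd_dvd_U (hU : gcv U = 2) {p : ℕ} (hp : p.Prime) (hp2 : p ≠ 2) :
    ¬ DV (p : ℤ) U := by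
  intro hd
  have h1 := dv_iff_gcv.1 hd
  rw [hU] at h1
  have h2 : p ∣ 2 := by exact_mod_cast h1
  exact hp2 ((Nat.prime_dvd_prime_iff_eq hp Nat.prime_two).1 h2)

/-- `W` is odd as soon as `i` is odd -/
private theorem QW_odd (hU : gcv U = 2) (hQ : ¬ DV 2 Q) (he : (2 : ℤ) ∣ e) (hf : ¬ (2 : ℤ) ∣ f)
    (j t i o : ℤ) (hi : ¬ (2 : ℤ) ∣ i) : ¬ DV ((2 : ℕ) : ℤ) (QW 2 e f U Q j t i o) := by
  intro hd
  have hU2 : DV ((2 : ℕ) : ℤ) U := by
    have := dv_gcv U
    rwa [hU] at this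
  unfold QW at hd
  have h1 := hd.sub (hU2.smul (1 + i))
  rw [add_sub_cancel_left] at h1
  have h2 := DV.prime_smul Nat.prime_two h1 (by
    intro h3
    obtain ⟨e', rfl⟩ := he
    have h3' : (2 : ℤ) ∣ i * f := by
      have h4 : (2 : ℤ) ∣ o * 2 + t * (2 * e') + i * f - j * (1 + i) * (2 + 2 * e') := by
        exact_mod_cast h3
      have h5 : i * f = (o * 2 + t * (2 * e') + i * f - j * (1 + i) * (2 + 2 * e')) +
        2 * (j * (1 + i) * (1 + e') - o - t * e') := by ring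
      rw [h5]
      exact dvd_add h4 (dvd_mul_right _ _)
    rcases Int.prime_two.dvd_or_dvd h3' with h6 | h6
    · exact hi h6
    · exact hf h6)
  exact hQ (by exact_mod_cast h2)

/-- the end of the proof: an exit with odd `i` whose vector has no odd prime divisor -/
private theorem QX.fin6 (hS : QS 1 2 e f U Q 2) (hU : gcv U = 2) (hQ : ¬ DV 2 Q) (he : (2 : ℤ) ∣ e)
    (hf : ¬ (2 : ℤ) ∣ f) {j t i o : ℤ} (hi : ¬ (2 : ℤ) ∣ i) (hC : QC 2 e f t i o)
    (hp : ∀ p : ℕ, p.Prime → p ≠ 2 → ¬ DV (p : ℤ) (QW 2 e f U Q j t i o)) : False := by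
  have h1 : gcv (QW 2 e f U Q j t i o) = 1 := by
    refine gcv_one fun p hpp => ?_
    by_cases hp2 : p = 2
    · subst hp2
      exact QW_odd hU hQ he hf j t i o hi
    · exact hp p hpp hp2
  have h2 := hS j t i o (by simpa only [one_mul] using hC)
  rw [h1] at h2
  norm_num at h2

/-- the sign `o` with `o s = -|s|` -/
private theorem exists_sgn (s : ℤ) : ∃ o : ℤ, (o = 1 ∨ o = -1) ∧ o * s = -|s| := by
  rcases le_total s 0 with h | h
  · exact ⟨1, Or.inl rfl, by rw [abs_of_nonpos h]; ring⟩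
  · exact ⟨-1, Or.inr rfl, by rw [abs_of_nonneg h]; ring⟩

private theorem odd_prime_not_dvd_two {p : ℕ} (hp : p.Prime) (hp2 : p ≠ 2) : ¬ (p : ℤ) ∣ 2 := by
  intro h
  have h2 : p ∣ 2 := by exact_mod_cast h
  exact hp2 ((Nat.prime_dvd_prime_iff_eq hp Nat.prime_two).1 h2)

private theorem prime_not_dvd_sgn {p : ℕ} (hp : p.Prime) {o : ℤ} (ho : o = 1 ∨ o = -1) :
    ¬ (p : ℤ) ∣ o := by
  intro h
  have h1 : (p : ℤ) ∣ 1 := by
    rcases ho with rfl | rfl
    · exact h
    · exact (dvd_neg).1 h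
  have h2 : p ∣ 1 := by exact_mod_cast h1
  exact hp.one_lt.ne' (Nat.dvd_one.1 h2)

private theorem prime_not_dvd_cop {p : ℕ} (hp : p.Prime) (hk : IsCoprime k0 i1) (h : (p : ℤ) ∣ i1) :
    ¬ (p : ℤ) ∣ k0 := by
  intro h'
  obtain ⟨u, v, huv⟩ := hk
  have h1 : (p : ℤ) ∣ 1 := by
    rw [← huv]
    exact dvd_add (h'.mul_left _) (h.mul_left _)
  have h2 : p ∣ 1 := by exact_mod_cast h1
  exact hp.one_lt.ne' (Nat.dvd_one.1 h2)

/-- **E6**, case `i1` odd -/
private theorem QX.beta2_odd {J X : ℕ} (h : QX 1 2 e f D U Q) (hS : QS 1 2 e f U Q 2)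
    (hU : gcv U = 2) (hQ : ¬ DV 2 Q) (he : (2 : ℤ) ∣ e) (hf : ¬ (2 : ℤ) ∣ f) (hJ : 1 ≤ J)
    (hC : Cap J X) (hX : 64 * D * e ^ 4 ≤ (X : ℤ)) (hi1 : 1 ≤ i1)
    (hi2 : i1 < 8 * ((J : ℤ) + 1)) (hk : IsCoprime k0 i1) (hs : i1 * f - k0 * e ≠ 0)
    (hs2 : |i1 * f - k0 * e| < 16 * ((J : ℤ) + 1)) (hbig : (8 * ((J : ℤ) + 1)) ^ 5 ≤ e)
    (hodd : ¬ (2 : ℤ) ∣ i1) : False := by
  have hD := h.pD
  have hJ1 : (1 : ℤ) ≤ (J : ℤ) := by exact_mod_cast hJ
  obtain ⟨o, ho, hos⟩ := exists_sgn (i1 * f - k0 * e)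
  have hoo : o * o = 1 := by rcases ho with rfl | rfl <;> norm_num
  set s : ℤ := |i1 * f - k0 * e| with hsdef
  have hs0 : 0 < s := abs_pos.2 hs
  -- sizes
  set n : ℤ := 8 * ((J : ℤ) + 1) with hn
  have hn16 : 16 ≤ n := by rw [hn]; linarith
  have hs2' : s < 2 * n := by rw [hn]; linarith
  have hn3 : n ^ 3 ≤ e := le_trans (pow_le_pow_right₀ (by linarith) (by norm_num)) hbig
  have hn1 : n ≤ e := by
    have h0 : n ^ 1 ≤ n ^ 3 := pow_le_pow_right₀ (by linarith) (by norm_num)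
    rw [pow_one] at h0
    exact h0.trans hn3
  have he0 : 0 < e := by linarith
  have hM : 0 < D * (s + i1 * (2 + e)) * i1 := by positivity
  have hMX : D * (s + i1 * (2 + e)) * i1 ≤ (X : ℤ) := by
    refine le_trans ?_ hX
    have h1 : s + i1 * (2 + e) ≤ 5 * e * e := by nlinarith
    have h2 : (s + i1 * (2 + e)) * i1 ≤ 5 * e * e * e := by
      refine mul_le_mul h1 (by linarith) (by linarith) (by positivity)
    have h3 : 5 * e * e * e ≤ 64 * e ^ 4 := by
      have : 0 < e ^ 3 := by positivity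
      nlinarith
    have h4 : D * ((s + i1 * (2 + e)) * i1) ≤ D * (64 * e ^ 4) :=
      mul_le_mul_of_nonneg_left (h2.trans h3) hD.le
    linarith
  set R : Z2 := QR e f i1 k0 U Q o with hR
  have hline : ∀ k : ℤ, QW 2 e f U Q o (o - k * k0) (k * i1) o = U + k • R := by
    intro k
    have h1 := QW_line e f i1 k0 U Q o o 0 o k
    rw [zero_add] at h1
    rw [h1, ← hR]
    have h2 : QW 2 e f U Q o o 0 o = U := by
      unfold QW
      have e1 : o * 2 + o * e + 0 * f - o * (1 + 0) * (2 + e) = 0 := by ring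
      rw [e1, add_zero, one_smul, zero_smul, add_zero]
    rw [h2]
  obtain ⟨z, hz1, hz2, hz⟩ := sieve2 ((D * (s + i1 * (2 + e)) * i1).natAbs.primeFactors)
    (fun p hp => Nat.prime_of_mem_primeFactors hp)
    (fun p z => p ≠ 2 ∧ DV (p : ℤ) (U + (2 * z + 1) • R))
    (fun p z => p ≠ 2 ∧ (p : ℤ) ∣ i1 ∧ (p : ℤ) ∣ o - (2 * z + 1) * k0)
    (fun p hp z z' hz hz' => by
      have hpp := Nat.prime_of_mem_primeFactors hp
      have hpi : Prime (p : ℤ) := Nat.prime_iff_prime_int.1 hpp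
      by_contra hd
      have h3 : DV (p : ℤ) ((2 * (z - z')) • R) := by
        have := hz.2.sub hz'.2
        have e1 : U + (2 * z + 1) • R - (U + (2 * z' + 1) • R) = (2 * (z - z')) • R := by module
        rwa [e1] at this
      have h4 := DV.prime_smul hpp h3 (by
        intro hc
        rcases hpi.dvd_or_dvd hc with hc | hc
        · exact odd_prime_not_dvd_two hpp hz.1 hc
        · exact hd hc)
      have h5 := hz.2.sub (h4.smul (2 * z + 1))
      rw [add_sub_cancel_right] at h5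
      exact QX.odd_dvd_U hU hpp hz.1 h5)
    (fun p hp z z' hz hz' => by
      have hpp := Nat.prime_of_mem_primeFactors hp
      have hpi : Prime (p : ℤ) := Nat.prime_iff_prime_int.1 hpp
      have h3 : (p : ℤ) ∣ 2 * (z - z') * k0 := by
        have := dvd_sub hz'.2.2 hz.2.2
        have e1 : o - (2 * z' + 1) * k0 - (o - (2 * z + 1) * k0) = 2 * (z - z') * k0 := by ring
        rwa [e1] at this
      rcases hpi.dvd_or_dvd h3 with h4 | h4
      · rcases hpi.dvd_or_dvd h4 with h5 | h5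
        · exact absurd h5 (odd_prime_not_dvd_two hpp hz.1)
        · exact h5
      · exact absurd h4 (prime_not_dvd_cop hpp hk hz.2.1))
    (Or.inl fun _ hz => hz.1 rfl) 0
  have hzJ : z ≤ (J : ℤ) - 1 := by
    have := cap_use hC hM hMX
    linarith
  set k : ℤ := 2 * z + 1 with hkdef
  have hk1 : 1 ≤ k := by linarith
  have hkJ : k ≤ 2 * (J : ℤ) - 1 := by linarith
  have hkn : 4 * k ≤ n := by rw [hn]; linarith
  have hk2 : ¬ (2 : ℤ) ∣ k := by omega
  have hFo : o * ((o - k * k0) * e + k * i1 * f) = e - k * s := by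
    linear_combination e * hoo + k * hos
  refine QX.fin6 (j := o) (t := o - k * k0) (i := k * i1) (o := o) hS hU hQ he hf ?_ ?_ ?_
  · intro hd
    rcases Int.prime_two.dvd_or_dvd hd with h1 | h1
    · exact hk2 h1
    · exact hodd h1
  · refine ⟨ho, by positivity, cop_of_primes fun p hpp hpt hpi => ?_, ?_, ?_⟩
    · have hpi' : Prime (p : ℤ) := Nat.prime_iff_prime_int.1 hpp
      rcases hpi'.dvd_or_dvd hpi with h1 | h1
      · have h2 := dvd_add hpt (h1.mul_right k0)
        rw [sub_add_cancel] at h2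
        exact prime_not_dvd_sgn hpp ho h2
      · have hp2 : p ≠ 2 := by
          rintro rfl
          exact hodd (by exact_mod_cast h1)
        have h3 : (p : ℤ) ∣ D * (s + i1 * (2 + e)) * i1 := h1.mul_left _
        exact (hz p (mem_pf hpp hM.ne' h3)).2 ⟨hp2, h1, hpt⟩
    · rw [hFo]
      -- 2 k i1 + k s < e
      have h1 : k * i1 * 2 + k * s ≤ k * (4 * n) := by nlinarith
      have h2 : k * (4 * n) ≤ n * n := by nlinarith
      have h3 : n * n < n ^ 3 := by nlinarith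
      linarith
    · rw [hFo]
      have : 0 < k * s := by positivity
      linarith
  · intro p hpp hp2 hd
    have hcr := QW_cr h o (o - k * k0) (k * i1) o (o * i1) (i1 := i1) (k0 := k0) (by ring)
    have h1 := hd.cr_left (QR e f i1 k0 U Q o)
    rw [hcr] at h1
    have h2 : (p : ℤ) ∣ D * (s + i1 * (2 + e)) * i1 := by
      have e1 : D * (s + i1 * (2 + e)) * i1 =
          (D * (i1 * f - k0 * e - 2 * o * i1 - o * i1 * e)) * (-o * i1) := by
        linear_combination (D * i1) * hos - D * (2 + e) * i1 * i1 * hoo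
      rw [e1]
      exact h1.mul_right _
    rw [hline] at hd
    exact (hz p (mem_pf hpp hM.ne' h2)).1 ⟨hp2, hd⟩

/-- the product of the odd primes of `i1` which do not divide `a` -/
private theorem exists_w0 {i1 : ℤ} (a : ℤ) (hi : 1 ≤ i1) (h2 : (2 : ℤ) ∣ i1) :
    ∃ w0 : ℤ, 0 < w0 ∧ 2 * w0 ≤ i1 ∧ ¬ (2 : ℤ) ∣ w0 ∧
      (∀ p : ℕ, p.Prime → (p : ℤ) ∣ w0 → (p : ℤ) ∣ i1 ∧ ¬ (p : ℤ) ∣ a) ∧
      (∀ p : ℕ, p.Prime → p ≠ 2 → (p : ℤ) ∣ i1 → ¬ (p : ℤ) ∣ a → (p : ℤ) ∣ w0) := by
  classical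
  set n : ℕ := i1.natAbs with hn
  have hn0 : n ≠ 0 := by omega
  have hni : (n : ℤ) = i1 := by omega
  set P0 : Finset ℕ := n.primeFactors.filter (fun p => p ≠ 2 ∧ ¬ (p : ℤ) ∣ a) with hP0
  set w : ℕ := ∏ p ∈ P0, p with hw
  have hwn : w ∣ n := by
    refine dvd_trans ?_ (Nat.prod_primeFactors_dvd n)
    exact Finset.prod_dvd_prod_of_subset _ _ _ (Finset.filter_subset _ _)
  have hw0 : 0 < w := Nat.pos_of_dvd_of_pos hwn (Nat.pos_of_ne_zero hn0)
  have hmem : ∀ p : ℕ, p.Prime → p ∣ w → p ∈ P0 := by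
    intro p hp hd
    obtain ⟨q, hq, hpq⟩ := (Prime.dvd_finsetProd_iff hp.prime _).1 hd
    have hqp : q.Prime := Nat.prime_of_mem_primeFactors (Finset.mem_filter.1 hq).1
    have := (Nat.prime_dvd_prime_iff_eq hp hqp).1 hpq
    rwa [this]
  have h2w : ¬ 2 ∣ w := by
    intro hd
    exact (Finset.mem_filter.1 (hmem 2 Nat.prime_two hd)).2.1 rfl
  have h2n : 2 ∣ n := by
    have : (2 : ℤ) ∣ (n : ℤ) := by rw [hni]; exact h2
    exact_mod_cast this
  have hcop : Nat.Coprime 2 w := (Nat.Prime.coprime_iff_not_dvd Nat.prime_two).2 h2w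
  have h2wn : 2 * w ∣ n := hcop.mul_dvd_of_dvd_of_dvd h2n hwn
  refine ⟨(w : ℤ), by exact_mod_cast hw0, ?_, ?_, ?_, ?_⟩
  · have := Nat.le_of_dvd (Nat.pos_of_ne_zero hn0) h2wn
    omega
  · intro hd
    exact h2w (by exact_mod_cast hd)
  · intro p hp hd
    have h3 := hmem p hp (by exact_mod_cast hd)
    obtain ⟨h4, h5⟩ := Finset.mem_filter.1 h3
    refine ⟨?_, h5.2⟩
    have := Nat.dvd_of_mem_primeFactors h4
    rw [← hni]
    exact_mod_cast this
  · intro p hp hp2 hpi hpa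
    have h3 : p ∣ n := by
      have : (p : ℤ) ∣ (n : ℤ) := by rw [hni]; exact hpi
      exact_mod_cast this
    have h4 : p ∈ P0 := Finset.mem_filter.2 ⟨Nat.mem_primeFactors.2 ⟨hp, h3, hn0⟩, hp2, hpa⟩
    have := Finset.dvd_prod_of_mem (fun p => p) h4
    exact_mod_cast this

/-- **E6**, case `i1` even -/
private theorem QX.beta2_even {J X : ℕ} (h : QX 1 2 e f D U Q) (hS : QS 1 2 e f U Q 2)
    (hU : gcv U = 2) (hQ : ¬ DV 2 Q) (he : (2 : ℤ) ∣ e) (hf : ¬ (2 : ℤ) ∣ f) (hJ : 1 ≤ J)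
    (hC : Cap J X) (hX : 64 * D * e ^ 4 ≤ (X : ℤ)) (hi1 : 1 ≤ i1)
    (hi2 : i1 < 8 * ((J : ℤ) + 1)) (hk : IsCoprime k0 i1) (hs : i1 * f - k0 * e ≠ 0)
    (hs2 : |i1 * f - k0 * e| < 16 * ((J : ℤ) + 1)) (hbig : (8 * ((J : ℤ) + 1)) ^ 5 ≤ e)
    (hev : (2 : ℤ) ∣ i1) : False := by
  have hD := h.pD
  have hJ1 : (1 : ℤ) ≤ (J : ℤ) := by exact_mod_cast hJ
  obtain ⟨o, ho, hos⟩ := exists_sgn (i1 * f - k0 * e)
  have hoo : o * o = 1 := by rcases ho with rfl | rfl <;> norm_num
  set s : ℤ := |i1 * f - k0 * e| with hsdef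
  set s1 : ℤ := i1 * f - k0 * e with hs1
  have hs0 : 0 < s := abs_pos.2 hs
  have hs1' : s1 = -(o * s) := by linear_combination (-s1) * hoo + o * hos
  have hsev : (2 : ℤ) ∣ s := by
    have h1 : (2 : ℤ) ∣ s1 := dvd_sub (hev.mul_right _) (he.mul_left _)
    exact (dvd_abs _ _).2 h1
  -- sizes
  set n : ℤ := 8 * ((J : ℤ) + 1) with hn
  have hn16 : 16 ≤ n := by rw [hn]; linarith
  have hs2' : s < 2 * n := by rw [hn]; linarith
  have hn4 : n ^ 4 ≤ e := le_trans (pow_le_pow_right₀ (by linarith) (by norm_num)) hbig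
  have hn1 : n ≤ e := by
    have h0 : n ^ 1 ≤ n ^ 4 := pow_le_pow_right₀ (by linarith) (by norm_num)
    rw [pow_one] at h0
    exact h0.trans hn4
  have he0 : 0 < e := by linarith
  -- w0, c, x
  obtain ⟨w0, hw0, hw1, hw2, hw3, hw4⟩ := exists_w0 (s1 - 2 * k0) hi1 hev
  obtain ⟨c, x, hc, hx, hxo⟩ : ∃ c x : ℤ, (c = 2 ∨ c = 4) ∧ 2 * x = c * w0 - s ∧
      ¬ (2 : ℤ) ∣ x ∧ x ≤ i1 - 1 := by
    obtain ⟨s', hs'⟩ := hsev
    obtain ⟨w', hw'⟩ : ∃ w', w0 = 2 * w' + 1 := ⟨(w0 - 1) / 2, by omega⟩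
    by_cases hpar : (2 : ℤ) ∣ s'
    · exact ⟨2, w0 - s', Or.inl rfl, by rw [hs']; ring, by omega, by omega⟩
    · exact ⟨4, 2 * w0 - s', Or.inr rfl, by rw [hs']; ring, by omega, by omega⟩
  obtain ⟨hx2, hxi⟩ := hxo
  set τ : ℤ := i1 - x with hτ
  have hτ1 : 1 ≤ τ := by rw [hτ]; linarith
  have hτodd : ¬ (2 : ℤ) ∣ τ := by rw [hτ]; omega
  have hcw : 2 ≤ c * w0 := by rcases hc with rfl | rfl <;> linarith
  have hτ2 : τ ≤ 3 * n := by rw [hτ]; linarith
  have h2ox : 2 * (o * x) = o * (c * w0) + s1 := by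
    rw [hs1']; linear_combination o * hx
  -- odd primes do not divide c, and those of i1 do not divide 1 + i
  have hpc : ∀ p : ℕ, p.Prime → p ≠ 2 → ¬ (p : ℤ) ∣ c := by
    intro p hp hp2 hd
    have hpi := Nat.prime_iff_prime_int.1 hp
    rcases hc with rfl | rfl
    · exact odd_prime_not_dvd_two hp hp2 hd
    · have h1 : (p : ℤ) ∣ 2 * 2 := by norm_num; exact hd
      rcases hpi.dvd_or_dvd h1 with h2 | h2 <;> exact odd_prime_not_dvd_two hp hp2 h2
  have hpocw : ∀ p : ℕ, p.Prime → p ≠ 2 → (p : ℤ) ∣ o * (c * w0) → (p : ℤ) ∣ w0 := by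
    intro p hp hp2 hd
    have hpi := Nat.prime_iff_prime_int.1 hp
    rcases hpi.dvd_or_dvd hd with h1 | h1
    · exact absurd h1 (prime_not_dvd_sgn hp ho)
    · rcases hpi.dvd_or_dvd h1 with h2 | h2
      · exact absurd h2 (hpc p hp hp2)
      · exact h2
  have hstar : ∀ p : ℕ, p.Prime → p ≠ 2 → (p : ℤ) ∣ i1 → ∀ t i : ℤ, i1 * t + k0 * i = o * τ →
      ¬ (p : ℤ) ∣ 1 + i := by
    intro p hp hp2 hpi1 t i hti hd
    have h1 : (p : ℤ) ∣ o * (c * w0) + (s1 - 2 * k0) := by
      have e1 : o * (c * w0) + (s1 - 2 * k0) = 2 * (i1 * o) - 2 * (i1 * t) -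
          2 * k0 * (1 + i) := by
        rw [← sub_eq_zero]
        have e2 : o * x = o * i1 - o * τ := by rw [hτ]; ring
        linear_combination (-1 : ℤ) * h2ox + 2 * e2 + 2 * hti
      rw [e1]
      exact dvd_sub (dvd_sub ((hpi1.mul_right _).mul_left _) ((hpi1.mul_right _).mul_left _))
        (hd.mul_left _)
    by_cases hpa : (p : ℤ) ∣ s1 - 2 * k0
    · have h2 : (p : ℤ) ∣ o * (c * w0) := by
        have := dvd_sub h1 hpa
        rwa [add_sub_cancel_right] at this
      exact (hw3 p hp (hpocw p hp hp2 h2)).2 hpa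
    · have h2 := hw4 p hp hp2 hpi1 hpa
      have h3 : (p : ℤ) ∣ s1 - 2 * k0 := by
        have := dvd_sub h1 ((h2.mul_left c).mul_left o)
        rwa [add_sub_cancel_left] at this
      exact hpa h3
  -- the window
  obtain ⟨L, hL0, hL1, hL2⟩ : ∃ L : ℤ, 0 ≤ L ∧ -(x * e) ≤ L * s ∧
      (L + ((J : ℤ) + 1) * i1) * (2 * i1 + s) ≤ τ * e := by
    have hkey : s * (1 + ((J : ℤ) + 1) * i1) * (2 * i1 + s) ≤ i1 * (c * w0) * e := by
      have h1 : 1 + ((J : ℤ) + 1) * i1 ≤ n * i1 := by rw [hn]; nlinarith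
      have h2 : 2 * i1 + s ≤ 4 * n := by linarith
      have h3 : s * (1 + ((J : ℤ) + 1) * i1) ≤ 2 * n * (n * i1) := by
        refine mul_le_mul hs2'.le h1 (by positivity) (by positivity)
      have h4 : s * (1 + ((J : ℤ) + 1) * i1) * (2 * i1 + s) ≤ 2 * n * (n * i1) * (4 * n) :=
        mul_le_mul h3 h2 (by positivity) (by positivity)
      have h5 : 2 * n * (n * i1) * (4 * n) = i1 * (8 * n ^ 3) := by ring
      have h6 : 8 * n ^ 3 ≤ n ^ 4 := by
        have : 0 ≤ n ^ 3 := by positivity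
        have e1 : n ^ 4 = n * n ^ 3 := by ring
        rw [e1]
        exact mul_le_mul_of_nonneg_right (by linarith) this
      have h7 : i1 * (8 * n ^ 3) ≤ i1 * e :=
        mul_le_mul_of_nonneg_left (h6.trans hn4) (by linarith)
      have h8 : i1 * e ≤ i1 * (c * w0) * e := by
        have : i1 * 1 ≤ i1 * (c * w0) := mul_le_mul_of_nonneg_left (by linarith) (by linarith)
        rw [mul_one] at this
        exact mul_le_mul_of_nonneg_right this he0.le
      linarith
    rcases le_total 0 x with hx0 | hx0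
    · refine ⟨0, le_rfl, ?_, ?_⟩
      · have : 0 ≤ x * e := mul_nonneg hx0 he0.le
        linarith
      · rw [zero_add]
        have h1 : ((J : ℤ) + 1) * i1 ≤ n * n := by
          refine mul_le_mul (by rw [hn]; linarith) hi2.le (by linarith) (by linarith)
        have h2 : 2 * i1 + s ≤ 4 * n := by linarith
        have h3 : ((J : ℤ) + 1) * i1 * (2 * i1 + s) ≤ n * n * (4 * n) :=
          mul_le_mul h1 h2 (by positivity) (by positivity)
        have h4 : n * n * (4 * n) ≤ n ^ 4 := by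
          have : 0 ≤ n ^ 3 := by positivity
          have e1 : n ^ 4 = n * n ^ 3 := by ring
          have e2 : n * n * (4 * n) = 4 * n ^ 3 := by ring
          rw [e1, e2]
          exact mul_le_mul_of_nonneg_right (by linarith) this
        have h5 : e ≤ τ * e := by
          have := mul_le_mul_of_nonneg_right hτ1 he0.le
          linarith
        linarith
    · have hm := Int.mul_ediv_add_emod (-(x * e)) s
      have hm1 := Int.emod_nonneg (-(x * e)) hs0.ne'
      have hm2 := Int.emod_lt_of_pos (-(x * e)) hs0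
      have hxe : 0 ≤ -(x * e) := by
        have : x * e ≤ 0 := mul_nonpos_of_nonpos_of_nonneg hx0 he0.le
        linarith
      have hdiv0 : 0 ≤ -(x * e) / s := Int.ediv_nonneg hxe hs0.le
      refine ⟨-(x * e) / s + 1, by linarith, by nlinarith, ?_⟩
      refine le_of_mul_le_mul_right ?_ hs0
      have h1 : (-(x * e) / s + 1) * s ≤ -(x * e) + s := by nlinarith
      have h2 : (-(x * e) / s + 1 + ((J : ℤ) + 1) * i1) * (2 * i1 + s) * s ≤
          (-(x * e) + s * (1 + ((J : ℤ) + 1) * i1)) * (2 * i1 + s) := by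
        have e1 : (-(x * e) / s + 1 + ((J : ℤ) + 1) * i1) * (2 * i1 + s) * s =
          ((-(x * e) / s + 1) * s + s * (((J : ℤ) + 1) * i1)) * (2 * i1 + s) := by ring
        rw [e1]
        refine mul_le_mul_of_nonneg_right ?_ (by positivity)
        linarith
      have h3 : τ * e * s = -(x * e) * (2 * i1 + s) + i1 * (c * w0) * e := by
        rw [hτ]
        linear_combination (i1 * e) * hx
      rw [h3]
      have e2 : (-(x * e) + s * (1 + ((J : ℤ) + 1) * i1)) * (2 * i1 + s) =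
        -(x * e) * (2 * i1 + s) + s * (1 + ((J : ℤ) + 1) * i1) * (2 * i1 + s) := by ring
      rw [e2] at h2
      linarith
  obtain ⟨t0, i0, hi0L, hi0U, hti0⟩ := line_pt hi1 hk (o * τ) L
  -- the choice of j
  have hpe2 : ∀ p : ℕ, p.Prime → p ≠ 2 → (p : ℤ) ∣ i1 → (p : ℤ) ∣ s1 → ¬ (p : ℤ) ∣ 2 + e := by
    intro p hp hp2 hpi1 hps hd
    have hpi := Nat.prime_iff_prime_int.1 hp
    have h1 : (p : ℤ) ∣ k0 * e := by
      have := dvd_sub (hpi1.mul_right f) hps
      have e1 : i1 * f - s1 = k0 * e := by rw [hs1]; ring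
      rwa [e1] at this
    rcases hpi.dvd_or_dvd h1 with h2 | h2
    · exact prime_not_dvd_cop hp hk hpi1 h2
    · have := dvd_sub hd h2
      rw [add_sub_cancel_right] at this
      exact odd_prime_not_dvd_two hp hp2 this
  obtain ⟨j, -, -, hj⟩ := sieve2 ((D * i1).natAbs.primeFactors)
    (fun p hp => Nat.prime_of_mem_primeFactors hp)
    (fun p j => p ≠ 2 ∧ (p : ℤ) ∣ i1 ∧ (p : ℤ) ∣ s1 ∧ ¬ DV (p : ℤ) Q ∧
      DV (p : ℤ) (QW 2 e f U Q j t0 i0 o))
    (fun p j => p ≠ 2 ∧ ¬ (p : ℤ) ∣ i1 ∧ ¬ (p : ℤ) ∣ 2 + e ∧ DV (p : ℤ) (QR e f i1 k0 U Q j))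
    (fun p hp z z' hz hz' => by
      have hpp := Nat.prime_of_mem_primeFactors hp
      have hpi := Nat.prime_iff_prime_int.1 hpp
      obtain ⟨a1, a2, a3, a4, a5⟩ := hz
      obtain ⟨-, -, -, -, b5⟩ := hz'
      by_contra hd
      have h3 : DV (p : ℤ) (((z - z') * (1 + i0) * (2 + e)) • Q) := by
        have := b5.sub a5
        have e1 : QW 2 e f U Q z' t0 i0 o - QW 2 e f U Q z t0 i0 o =
          ((z - z') * (1 + i0) * (2 + e)) • Q := by unfold QW; module
        rwa [e1] at this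
      refine a4 (DV.prime_smul hpp h3 ?_)
      intro hc'
      rcases hpi.dvd_or_dvd hc' with h4 | h4
      · rcases hpi.dvd_or_dvd h4 with h5 | h5
        · exact hd h5
        · exact hstar p hpp a1 a2 t0 i0 hti0 h5
      · exact hpe2 p hpp a1 a2 a3 h4)
    (fun p hp z z' hz hz' => by
      have hpp := Nat.prime_of_mem_primeFactors hp
      have hpi := Nat.prime_iff_prime_int.1 hpp
      obtain ⟨a1, a2, a3, a4⟩ := hz
      obtain ⟨-, -, -, b4⟩ := hz'
      by_contra hd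
      have h3 : DV (p : ℤ) (((z - z') * i1 * (2 + e)) • Q) := by
        have := b4.sub a4
        have e1 : QR e f i1 k0 U Q z' - QR e f i1 k0 U Q z =
          ((z - z') * i1 * (2 + e)) • Q := by unfold QR; module
        rwa [e1] at this
      have hQp : DV (p : ℤ) Q := by
        refine DV.prime_smul hpp h3 ?_
        intro hc'
        rcases hpi.dvd_or_dvd hc' with h4 | h4
        · rcases hpi.dvd_or_dvd h4 with h5 | h5
          · exact hd h5
          · exact a2 h5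
        · exact a3 h4
      have h6 := a4.sub (hQp.smul (i1 * f - k0 * e - i1 * z * (2 + e)))
      unfold QR at h6
      rw [add_sub_cancel_right] at h6
      exact QX.odd_dvd_U hU hpp a1 (DV.prime_smul hpp h6 a2))
    (Or.inl fun _ hz => hz.1 rfl) 0
  set R : Z2 := QR e f i1 k0 U Q j with hR
  set W0 : Z2 := QW 2 e f U Q j t0 i0 o with hW0
  have hM : 0 < D * (s + 2 * i1 + τ * e) * i1 * τ := by positivity
  have hMX : D * (s + 2 * i1 + τ * e) * i1 * τ ≤ (X : ℤ) := by
    refine le_trans ?_ hX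
    have h1 : s + 2 * i1 + τ * e ≤ 4 * n + 3 * n * e := by
      have : τ * e ≤ 3 * n * e := mul_le_mul_of_nonneg_right hτ2 he0.le
      linarith
    have h2 : 4 * n + 3 * n * e ≤ 4 * (n * e) := by nlinarith
    have h3 : i1 * τ ≤ n * (3 * n) := mul_le_mul hi2.le hτ2 (by linarith) (by linarith)
    have h4 : (s + 2 * i1 + τ * e) * (i1 * τ) ≤ 4 * (n * e) * (n * (3 * n)) :=
      mul_le_mul (h1.trans h2) h3 (by positivity) (by positivity)
    have h5 : 4 * (n * e) * (n * (3 * n)) = 12 * (n ^ 3 * e) := by ring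
    have h6 : n ^ 3 ≤ e ^ 3 := pow_le_pow_left₀ (by linarith) hn1 3
    have h7 : n ^ 3 * e ≤ e ^ 3 * e := mul_le_mul_of_nonneg_right h6 he0.le
    have h8 : e ^ 3 * e = e ^ 4 := by ring
    have h9 : 0 ≤ e ^ 4 := by positivity
    have h10 : D * ((s + 2 * i1 + τ * e) * (i1 * τ)) ≤ D * (64 * e ^ 4) :=
      mul_le_mul_of_nonneg_left (by linarith) hD.le
    linarith
  obtain ⟨k, hk1, hk2, hkk⟩ := sieve2 ((D * (s + 2 * i1 + τ * e) * i1 * τ).natAbs.primeFactors)
    (fun p hp => Nat.prime_of_mem_primeFactors hp)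
    (fun p k => p ≠ 2 ∧ ¬ DV (p : ℤ) R ∧ DV (p : ℤ) (W0 + k • R))
    (fun p k => (p : ℤ) ∣ t0 - k * k0 ∧ (p : ℤ) ∣ i0 + k * i1)
    (fun p hp z z' hz hz' => by
      have hpp := Nat.prime_of_mem_primeFactors hp
      by_contra hd
      have h3 : DV (p : ℤ) ((z - z') • R) := by
        have := hz.2.2.sub hz'.2.2
        have e1 : W0 + z • R - (W0 + z' • R) = (z - z') • R := by module
        rwa [e1] at this
      exact hz.2.1 (DV.prime_smul hpp h3 hd))
    (fun p hp z z' hz hz' => by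
      have hpp := Nat.prime_of_mem_primeFactors hp
      have hpi := Nat.prime_iff_prime_int.1 hpp
      have h3 : (p : ℤ) ∣ (z - z') * k0 := by
        have := dvd_sub hz'.1 hz.1
        have e1 : t0 - z' * k0 - (t0 - z * k0) = (z - z') * k0 := by ring
        rwa [e1] at this
      have h4 : (p : ℤ) ∣ (z - z') * i1 := by
        have := dvd_sub hz.2 hz'.2
        have e1 : i0 + z * i1 - (i0 + z' * i1) = (z - z') * i1 := by ring
        rwa [e1] at this
      rcases hpi.dvd_or_dvd h3 with h5 | h5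
      · exact h5
      · rcases hpi.dvd_or_dvd h4 with h6 | h6
        · exact h6
        · exact absurd h5 (prime_not_dvd_cop hpp hk h6))
    (Or.inl fun _ hz => hz.1 rfl) 0
  have hkJ : k ≤ (J : ℤ) - 1 := by
    have := cap_use hC hM hMX
    linarith
  set t : ℤ := t0 - k * k0 with ht
  set i : ℤ := i0 + k * i1 with hi
  have hti : i1 * t + k0 * i = o * τ := by rw [ht, hi]; linear_combination hti0
  have hiodd : ¬ (2 : ℤ) ∣ i := by
    intro hd
    have h1 : (2 : ℤ) ∣ o * τ := by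
      rw [← hti]; exact dvd_add (hev.mul_right _) (hd.mul_left _)
    rcases Int.prime_two.dvd_or_dvd h1 with h2 | h2
    · exact prime_not_dvd_sgn Nat.prime_two ho (by exact_mod_cast h2)
    · exact hτodd h2
  have hiL : L ≤ i := by rw [hi]; nlinarith
  have hiU : i < L + ((J : ℤ) + 1) * i1 := by rw [hi]; nlinarith
  have hF : i1 * (o * (t * e + i * f)) = τ * e - i * s := by
    have e1 : i1 * (o * (t * e + i * f)) = o * ((i1 * t + k0 * i) * e + i * s1) := by
      rw [hs1]; ring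
    rw [e1, hti, hs1']
    linear_combination (τ * e - i * s) * hoo
  have hWeq : QW 2 e f U Q j t i o = W0 + k • R := QW_line e f i1 k0 U Q j t0 i0 o k
  refine QX.fin6 (j := j) (t := t) (i := i) (o := o) hS hU hQ he hf hiodd ?_ ?_
  · refine ⟨ho, hL0.trans hiL, cop_of_primes fun p hpp hpt hpi => ?_, ?_, ?_⟩
    · have hpi' := Nat.prime_iff_prime_int.1 hpp
      have h1 : (p : ℤ) ∣ o * τ := by
        rw [← hti]; exact dvd_add (hpt.mul_left _) (hpi.mul_left _)
      rcases hpi'.dvd_or_dvd h1 with h2 | h2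
      · exact prime_not_dvd_sgn hpp ho h2
      · exact (hkk p (mem_pf hpp hM.ne' (h2.mul_left _))).2 ⟨hpt, hpi⟩
    · refine lt_of_mul_lt_mul_left ?_ (by linarith : (0 : ℤ) ≤ i1)
      rw [hF]
      have h1 : i * (2 * i1 + s) < (L + ((J : ℤ) + 1) * i1) * (2 * i1 + s) :=
        mul_lt_mul_of_pos_right hiU (by positivity)
      nlinarith
    · refine le_of_mul_le_mul_left ?_ (by linarith : (0 : ℤ) < i1)
      rw [hF]
      have h1 : L * s ≤ i * s := mul_le_mul_of_nonneg_right hiL hs0.le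
      have h2 : τ * e = i1 * e - x * e := by rw [hτ]; ring
      linarith
  · intro p hpp hp2 hd
    have hpi := Nat.prime_iff_prime_int.1 hpp
    have hcr := QW_cr h j t i o (o * τ) hti
    have h1 := hd.cr_left (QR e f i1 k0 U Q j)
    rw [hcr] at h1
    have h2 : (p : ℤ) ∣ D * (s + 2 * i1 + τ * e) * i1 * τ := by
      have e1 : D * (s + 2 * i1 + τ * e) * i1 * τ =
          (D * (i1 * f - k0 * e - 2 * o * i1 - o * τ * e)) * (-o * i1 * τ) := by
        rw [← hs1]
        linear_combination (D * i1 * τ) * hos - D * (2 * i1 + τ * e) * i1 * τ * hoo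
      rw [e1]
      exact h1.mul_right _
    rw [hWeq] at hd
    by_cases hRp : DV (p : ℤ) R
    · by_cases hpi1 : (p : ℤ) ∣ i1
      · have h3 : DV (p : ℤ) (s1 • Q) := by
          have h4 : DV (p : ℤ) ((i1 : ℤ) • U) :=
            ⟨by rw [Prod.smul_fst, smul_eq_mul]; exact hpi1.mul_right _,
             by rw [Prod.smul_snd, smul_eq_mul]; exact hpi1.mul_right _⟩
          have h5 : DV (p : ℤ) ((i1 * (j * (2 + e))) • Q) :=
            ⟨by rw [Prod.smul_fst, smul_eq_mul, mul_assoc]; exact hpi1.mul_right _,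
             by rw [Prod.smul_snd, smul_eq_mul, mul_assoc]; exact hpi1.mul_right _⟩
          have h6 := (hRp.sub h4).add h5
          have e1 : R - i1 • U + (i1 * (j * (2 + e))) • Q = s1 • Q := by
            rw [hR, hs1]; unfold QR; module
          rwa [e1] at h6
        by_cases hQp : DV (p : ℤ) Q
        · -- W = (1 + i) U
          rw [← hWeq] at hd
          unfold QW at hd
          have h4 := hd.sub (hQp.smul (o * 2 + t * e + i * f - j * (1 + i) * (2 + e)))
          rw [add_sub_cancel_right] at h4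
          exact QX.odd_dvd_U hU hpp hp2 (DV.prime_smul hpp h4
            (hstar p hpp hp2 hpi1 t i hti))
        · have hps : (p : ℤ) ∣ s1 := by
            by_contra hps
            exact hQp (DV.prime_smul hpp h3 hps)
          have h4 : DV (p : ℤ) W0 := by
            have := hd.sub (hRp.smul k)
            rwa [add_sub_cancel_right] at this
          have h5 : (p : ℤ) ∣ D * i1 := hpi1.mul_left _
          exact (hj p (mem_pf hpp (mul_pos hD (by linarith)).ne' h5)).1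
            ⟨hp2, hpi1, hps, hQp, h4⟩
      · by_cases hp2e : (p : ℤ) ∣ 2 + e
        · have hm := QW_mul e f i1 k0 U Q j t i o (o * τ) hti
          have h3 : DV (p : ℤ) ((2 * o * i1 + o * τ * e - (i1 * f - k0 * e)) • Q) := by
            rw [← hWeq] at hd
            have h4 := (hd.smul i1).sub (hRp.smul (1 + i))
            rw [hm, ← hR, add_sub_cancel_left] at h4
            exact h4
          have hQp : ¬ DV (p : ℤ) Q := by
            intro hQp
            have h6 := hRp.sub (hQp.smul (i1 * f - k0 * e - i1 * j * (2 + e)))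
            rw [hR] at h6
            unfold QR at h6
            rw [add_sub_cancel_right] at h6
            exact QX.odd_dvd_U hU hpp hp2 (DV.prime_smul hpp h6 hpi1)
          have h7 : (p : ℤ) ∣ 2 * o * i1 + o * τ * e - (i1 * f - k0 * e) := by
            by_contra hc'
            exact hQp (DV.prime_smul hpp h3 hc')
          have h8 : (p : ℤ) ∣ o * (c * w0) := by
            have e1 : o * (c * w0) = 2 * o * i1 + o * τ * e - (i1 * f - k0 * e) -
                (2 + e) * (o * τ) := by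
              rw [← hs1, hτ]
              linear_combination (-1 : ℤ) * h2ox
            rw [e1]
            exact dvd_sub h7 (hp2e.mul_right _)
          exact hpi1 (hw3 p hpp (hpocw p hpp hp2 h8)).1
        · have h3 : (p : ℤ) ∣ D * i1 := by
            have h4 := hRp.cr_left Q
            have hUQ : cr U Q = D := by rw [h.cUQ]; ring
            have e1 : cr R Q = D * i1 := by
              rw [hR]; unfold QR
              simp only [cr_add_left, cr_smul_left, cr_self, hUQ]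
              ring
            rwa [e1] at h4
          exact (hj p (mem_pf hpp (mul_pos hD (by linarith)).ne' h3)).2
            ⟨hp2, hpi1, hp2e, hRp⟩
    · exact (hkk p (mem_pf hpp hM.ne' h2)).1 ⟨hp2, hRp, hd⟩

/-- **E6** -/
theorem QX.beta2 {J X : ℕ} (h : QX 1 2 e f D U Q) (hS : QS 1 2 e f U Q 2)
    (hU : gcv U = 2) (hQ : ¬ DV 2 Q) (he : (2 : ℤ) ∣ e) (hf : ¬ (2 : ℤ) ∣ f) (hJ : 1 ≤ J)
    (hC : Cap J X) (hX : 64 * D * e ^ 4 ≤ (X : ℤ)) (hi1 : 1 ≤ i1)
    (hi2 : i1 < 8 * ((J : ℤ) + 1)) (hk : IsCoprime k0 i1) (hs : i1 * f - k0 * e ≠ 0)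
    (hs2 : |i1 * f - k0 * e| < 16 * ((J : ℤ) + 1)) (hbig : (8 * ((J : ℤ) + 1)) ^ 5 ≤ e) :
    False := by
  by_cases h2 : (2 : ℤ) ∣ i1
  · exact h.beta2_even hS hU hQ he hf hJ hC hX hi1 hi2 hk hs hs2 hbig h2
  · exact h.beta2_odd hS hU hQ he hf hJ hC hX hi1 hi2 hk hs hs2 hbig h2

end Pool.Agent.H4G
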