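import Pool.Agent.H4G.Cone.Defs
import Pool.Agent.H4G.Asym.Fat1

/-!
# Row E7: exits with `gcd = 2` at the states of kind (Sp) (helper76)
-/

set_option autoImplicit false

namespace Pool.Agent.H4G

/-- a vector which is divisible by `2`, not by `4` and not by an odd prime has gcd `2` -/
theorem gcv_two {w : Z2} (h2 : DV 2 w) (h4 : ¬ DV 4 w)
    (hp : ∀ p : ℕ, p.Prime → p ≠ 2 → ¬ DV (p : ℤ) w) : gcv w = 2 := by
  have h2' : 2 ∣ gcv w := by
    have := dv_iff_gcv.1 h2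
    exact_mod_cast this
  obtain ⟨m, hm⟩ := h2'
  rw [hm]
  by_cases h1 : m = 1
  · rw [h1]
  · exfalso
    obtain ⟨p, hpp, hd⟩ := Nat.exists_prime_and_dvd h1
    by_cases hp2 : p = 2
    · subst hp2
      refine h4 (dv_iff_gcv.2 ?_)
      have h5 : 2 * 2 ∣ gcv w := by rw [hm]; exact Nat.mul_dvd_mul_left 2 hd
      exact_mod_cast h5
    · refine hp p hpp hp2 (dv_iff_gcv.2 ?_)
      have h5 : p ∣ gcv w := by rw [hm]; exact hd.mul_left 2
      exact_mod_cast h5

/-- **E7** -/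
theorem QX.sp' {J X : ℕ} {z0 D b' rho : ℤ} {U Q : Z2} (h : QX 2 1 (2 * z0) z0 D U Q)
    (hC : Cap J X) (hX : 2 * D * (1 + z0) ≤ (X : ℤ)) (hz : 4 * ((J : ℤ) + 1) ≤ z0)
    (hb' : (gcv U : ℤ) = b') (hdv : b' ∣ 1 + 2 * z0) (h2 : DV 2 ((1 + z0) • Q))
    (hrho : rho = 1 ∨ rho = 3) (h4 : ¬ DV 4 ((1 + rho) • U + (1 + z0) • Q)) :
    ∃ j t i o : ℤ, QC 2 (4 * z0) (2 * z0) t i o ∧ 0 < i ∧ (4 : ℤ) ∣ i - rho ∧
      gcv (QW 1 (2 * z0) z0 U Q j t i o) = 2 := by
  have hD := h.pD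
  have hz0 : 0 < z0 := by have := h.pe; linarith
  have hM : 0 < 2 * D * (1 + z0) := by positivity
  obtain ⟨k, hk1, hk2, hk⟩ := sieve2 ((2 * D * (1 + z0)).natAbs.primeFactors)
    (fun p hp => Nat.prime_of_mem_primeFactors hp)
    (fun p k => p ≠ 2 ∧ DV (p : ℤ) ((1 + rho + 4 * k) • U + (1 + z0) • Q))
    (fun _ _ => False)
    (fun p hp z z' hz hz' => by
      have hpp := Nat.prime_of_mem_primeFactors hp
      have hpi : Prime (p : ℤ) := Nat.prime_iff_prime_int.1 hpp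
      by_contra hd
      have h3 : DV (p : ℤ) ((4 * (z - z')) • U) := by
        have := hz.2.sub hz'.2
        have e1 : (1 + rho + 4 * z) • U + (1 + z0) • Q - ((1 + rho + 4 * z') • U + (1 + z0) • Q) =
          (4 * (z - z')) • U := by module
        rwa [e1] at this
      have hn4 : ¬ (p : ℤ) ∣ 4 * (z - z') := by
        intro hc
        rcases hpi.dvd_or_dvd hc with hc | hc
        · have hc' : p ∣ 4 := by exact_mod_cast hc
          have hc2 : p ∣ 2 ^ 2 := by norm_num; exact hc'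
          have := (Nat.prime_dvd_prime_iff_eq hpp Nat.prime_two).1 (hpp.dvd_of_dvd_pow hc2)
          exact hz.1 this
        · exact hd hc
      have hU := DV.prime_smul hpp h3 hn4
      have hnQ : ¬ DV (p : ℤ) Q := by
        intro hQ
        have h5 := h.prim p hU hQ
        have h6 : p ∣ 1 := by exact_mod_cast h5
        exact hpp.one_lt.ne' (Nat.dvd_one.1 h6)
      have hzQ : DV (p : ℤ) ((1 + z0) • Q) := by
        have := hz.2.sub (hU.smul (1 + rho + 4 * z))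
        have e1 : (1 + rho + 4 * z) • U + (1 + z0) • Q - (1 + rho + 4 * z) • U =
          (1 + z0) • Q := by module
        rwa [e1] at this
      have h7 : (p : ℤ) ∣ 1 + z0 := by
        by_contra hc
        exact hnQ (DV.prime_smul hpp hzQ hc)
      have h8 : (p : ℤ) ∣ 1 + 2 * z0 := by
        have h9 := dv_iff_gcv.1 hU
        rw [hb'] at h9
        exact h9.trans hdv
      have h10 : (p : ℤ) ∣ 1 := by
        have := dvd_sub (h7.mul_left 2) h8
        have e1 : 2 * (1 + z0) - (1 + 2 * z0) = 1 := by ring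
        rwa [e1] at this
      have h6 : p ∣ 1 := by exact_mod_cast h10
      exact hpp.one_lt.ne' (Nat.dvd_one.1 h6))
    (fun _ _ _ _ hz _ => hz.elim) (Or.inr fun _ hz => hz) 0
  have hkJ : k < (J : ℤ) := by
    have := cap_use hC hM hX
    linarith
  obtain ⟨t, ht⟩ : ∃ t : ℤ, 2 * t + (rho + 4 * k) = 1 := by
    rcases hrho with rfl | rfl
    · exact ⟨-2 * k, by ring⟩
    · exact ⟨-1 - 2 * k, by ring⟩
  have hrho1 : 1 ≤ rho := by rcases hrho with rfl | rfl <;> norm_num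
  have hrho3 : rho ≤ 3 := by rcases hrho with rfl | rfl <;> norm_num
  have hW : QW 1 (2 * z0) z0 U Q 0 t (rho + 4 * k) 1 =
      (1 + rho + 4 * k) • U + (1 + z0) • Q := by
    unfold QW
    have e1 : 1 * 1 + t * (2 * z0) + (rho + 4 * k) * z0 - 0 * (1 + (rho + 4 * k)) *
        (1 + 2 * z0) = 1 + z0 := by linear_combination z0 * ht
    rw [e1, show (1 : ℤ) + (rho + 4 * k) = 1 + rho + 4 * k by ring]
  refine ⟨0, t, rho + 4 * k, 1, ⟨Or.inl rfl, by linarith, ⟨2, 1, by linarith⟩, ?_, ?_⟩,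
    by linarith, ⟨k, by ring⟩, ?_⟩
  · have e1 : 1 * (t * (4 * z0) + (rho + 4 * k) * (2 * z0)) = 2 * z0 := by
      linear_combination 2 * z0 * ht
    rw [e1]
    linarith
  · have e1 : 1 * (t * (4 * z0) + (rho + 4 * k) * (2 * z0)) = 2 * z0 := by
      linear_combination 2 * z0 * ht
    rw [e1]
    linarith
  · rw [hW]
    have e3 : (1 + rho + 4 * k) • U + (1 + z0) • Q =
        (1 + rho) • U + (1 + z0) • Q + (4 * k) • U := by module
    refine gcv_two ?_ ?_ ?_
    · refine DV.add ?_ h2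
      have hev : (2 : ℤ) ∣ 1 + rho + 4 * k := by
        rcases hrho with rfl | rfl <;> omega
      exact ⟨by rw [Prod.smul_fst, smul_eq_mul]; exact hev.mul_right _,
        by rw [Prod.smul_snd, smul_eq_mul]; exact hev.mul_right _⟩
    · intro hd
      rw [e3] at hd
      refine h4 ?_
      have hd4 : DV 4 ((4 * k) • U) :=
        ⟨by rw [Prod.smul_fst, smul_eq_mul, mul_assoc]; exact dvd_mul_right _ _,
         by rw [Prod.smul_snd, smul_eq_mul, mul_assoc]; exact dvd_mul_right _ _⟩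
      have := hd.sub hd4
      rwa [add_sub_cancel_right] at this
    · intro p hp hp2 hd
      have hcr : cr U ((1 + rho + 4 * k) • U + (1 + z0) • Q) = 2 * D * (1 + z0) := by
        simp only [cr_add_right, cr_smul_right, cr_self, h.cUQ]
        ring
      have hpd : (p : ℤ) ∣ 2 * D * (1 + z0) := by
        have := hd.cr_right U
        rwa [hcr] at this
      exact (hk p (mem_pf hp hM.ne' hpd)).1 ⟨hp2, hd⟩

/-- **E7**, in the form of the page -/
theorem QX.sp {J X : ℕ} {z0 D b' rho : ℤ} {U Q : Z2} (h : QX 2 1 (2 * z0) z0 D U Q)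
    (hC : Cap J X) (hX : 64 * D * (4 * z0) ^ 4 ≤ (X : ℤ)) (hz : 4 * ((J : ℤ) + 1) ≤ z0)
    (hb' : (gcv U : ℤ) = b') (hdv : b' ∣ 1 + 2 * z0) (h2 : DV 2 ((1 + z0) • Q))
    (hrho : rho = 1 ∨ rho = 3) (h4 : ¬ DV 4 ((1 + rho) • U + (1 + z0) • Q)) :
    ∃ j t i o : ℤ, QC 2 (4 * z0) (2 * z0) t i o ∧ 0 < i ∧ (4 : ℤ) ∣ i - rho ∧
      gcv (QW 1 (2 * z0) z0 U Q j t i o) = 2 := by
  refine h.sp' hC (le_trans ?_ hX) hz hb' hdv h2 hrho h4
  have hD := h.pD
  have hz0 : 1 ≤ z0 := by have := h.pe; linarith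
  have h1 : 1 + z0 ≤ 4 * z0 := by linarith
  have h3 : 4 * z0 ≤ (4 * z0) ^ 4 := by
    have h5 : (1 : ℤ) ≤ 4 * z0 := by linarith
    calc 4 * z0 = (4 * z0) ^ 1 := by ring
      _ ≤ (4 * z0) ^ 4 := pow_le_pow_right₀ h5 (by norm_num)
  have h6 : 2 * D * (1 + z0) ≤ 2 * D * (4 * z0) ^ 4 :=
    mul_le_mul_of_nonneg_left (h1.trans h3) (by positivity)
  have h7 : 0 ≤ D * (4 * z0) ^ 4 := by positivity
  nlinarith

end Pool.Agent.H4G
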