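import Pool.Agent.H4G.Cone.Defs
import Pool.Agent.H4G.Asym.Hsel

/-!
# Rows T1c, T1f, T1g: the H-rigidity and the H-twists of the frame (helper46)
-/

set_option autoImplicit false

namespace Pool.Agent.H4G

/-- the mirrored lower bound -/
theorem FM.le' {S T : PSt} {β b' a' : ℤ} (h : FM S β b' a') (hST : SEq S T) {c : ℤ}
    (hc : IsC T.L' T.u c) : β ≤ c := by
  have m1 := SEq.mirror (L := T.L) (L' := T.L') (u := T.u) (v := T.v) hST.ok'
  exact h.lb _ c (hST.trans m1) hc.neg

theorem FM.ble {S : PSt} {β b' a' : ℤ} (h : FM S β b' a') : β ≤ b' := h.le' h.ok.seq h.hb'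

/-- T1c: H-rigidity at every equivalent state with `A = b = β` -/
theorem FM.hrig {S T : PSt} {β b' a' : ℤ} (h : FM S β b' a') (hST : SEq S T)
    (hA : cr T.u T.v = β) (hb : IsC T.L T.v β) {l p l' p' : Z2} (ad : Ad T l p l' p') :
    β ∣ cr T.u l + cr l' l ∧ β ∣ cr T.u p + cr l' p := by
  have e1 : cr p T.v = β := ad.isC.unique hb
  have hB1 : cr (T.u + l') l ≠ 0 := by
    have k1 := plucker l l' T.u T.v
    rw [ad.h1, cr_swap l' T.u, ad.h4, cr_swap l T.u] at k1
    have k2 : 0 < cr T.u l * cr l' T.v := mul_pos ad.h2 ad.h5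
    have k3 : cr l l' * cr T.u T.v < 0 := by linarith
    have k4 : cr l l' < 0 := by
      by_contra hn
      push Not at hn
      have := mul_nonneg hn ad.hA.le
      linarith
    have k5 := ad.h2
    rw [cr_add_left, cr_swap l' l]
    omega
  have key : β ∣ cr (T.u + l') l ∧ β ∣ cr (T.u + l') p := by
    refine crt_min hb.1 hB1 fun i => ?_
    have k1 := ad.twH hST.ok' (by rw [hA]; exact h.le' hST ad.isC') i
    have e4 : cr (T.v + i • (T.u + l')) l = i * cr (T.u + l') l := by
      rw [cr_add_left, cr_smul_left, cr_swap T.v l, ad.h1]; ring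
    have e5 : cr (T.v + i • (T.u + l')) p = -(β - i * cr (T.u + l') p) := by
      rw [cr_add_left, cr_smul_left, cr_swap T.v p, e1]; ring
    have hb0 := hb.1
    have k3 : IsC T.L (T.v + i • (T.u + l'))
        (Int.gcd (i * cr (T.u + l') l) (β - i * cr (T.u + l') p) : ℕ) := by
      have := isC_lat (x := l) (y := p) (u := T.v + i • (T.u + l')) (by
        rw [e4, e5]
        rcases eq_or_ne i 0 with hj | hj
        · right; rw [hj]; simp; omega
        · left
          exact mul_ne_zero hj hB1)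
      rw [e4, e5, Int.gcd_neg, ← ad.hL] at this
      exact this
    exact h.lb _ _ (hST.trans k1) k3
  rw [cr_add_left, cr_add_left] at key
  exact key

/-- T1f: the general H-twist, with `w = gcd (m, 1 - q r)` -/
theorem Ad.twHb {S : PSt} {l p l' p' : Z2} (ad : Ad S l p l' p') {m r q w : ℤ}
    (hm : cr S.u l + cr l' l = cr p S.v * m) (hr : cr S.u p + cr l' p = cr p S.v * r)
    (hw : (Int.gcd m (1 - q * r) : ℤ) = w) : ∃ (l1 p1 : Z2) (x y : ℤ),
      Ad ⟨S.L, S.u, S.v + q • (S.u + l'), lat l' (p' + q • S.u)⟩ l1 p1 l' (p' + q • S.u) ∧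
      p1 = x • l + y • p ∧ y * (1 - q * r) - x * (q * m) = w ∧
      cr p1 (S.v + q • (S.u + l')) = w * cr p S.v ∧ w * cr S.u l1 = cr S.u l ∧
      cr p1 l1 = cr p l := by
  have hm0 : m ≠ 0 := by
    rintro rfl
    rw [mul_zero] at hm
    have h1 := ad.k1A
    have h2 : 0 < cr S.u l * cr l' S.v := mul_pos ad.h2 ad.h5
    rw [← h1] at h2
    have h3 : 0 < cr l' l := (mul_pos_iff_of_pos_right ad.hA).1 h2
    have h4 := ad.h2
    omega
  have hw' : w = (Int.gcd (1 - q * r) (q * m) : ℕ) := by rw [gcd_qr, hw]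
  have hw0 : 0 < w := by
    rw [← hw]
    have : 0 < Int.gcd m (1 - q * r) := Int.gcd_pos_of_ne_zero_left _ hm0
    exact_mod_cast this
  obtain ⟨α, eα⟩ : w ∣ 1 - q * r := by rw [hw']; exact Int.gcd_dvd_left _ _
  obtain ⟨β, eβ⟩ : w ∣ q * m := by rw [hw']; exact Int.gcd_dvd_right _ _
  have hcop : IsCoprime α β := by
    rw [Int.isCoprime_iff_gcd_eq_one]
    have h1 : Int.gcd (1 - q * r) (q * m) = w.natAbs := by
      rw [hw']; simp
    rw [eα, eβ, Int.gcd_mul_left] at h1
    have h2 : w.natAbs ≠ 0 := by omega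
    exact Nat.eq_of_mul_eq_mul_left (Nat.pos_of_ne_zero h2) (by rw [h1, mul_one])
  obtain ⟨δ, γ', hδ⟩ := hcop
  obtain ⟨γ, hγ⟩ : ∃ γ : ℤ, γ = -γ' := ⟨_, rfl⟩
  have hdet : α * δ - β * γ = 1 := by rw [hγ]; linarith
  have e0 : cr l' S.u = 0 := by rw [cr_swap l' S.u, ad.h4, neg_zero]
  obtain ⟨v', hv'⟩ : ∃ v' : Z2, v' = S.v + q • (S.u + l') := ⟨_, rfl⟩
  have e3 : cr S.u v' = cr S.u S.v := by
    rw [hv', cr_add_right, cr_smul_right, cr_add_right, cr_self, ad.h4]; ring
  have n1 : cr l v' = -(q * (cr p S.v * m)) := by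
    rw [← hm, hv', cr_add_right, cr_smul_right, cr_add_right, ad.h1, cr_swap l S.u,
      cr_swap l l']
    ring
  have n2 : cr p v' = cr p S.v - q * (cr p S.v * r) := by
    rw [← hr, hv', cr_add_right, cr_smul_right, cr_add_right, cr_swap p S.u, cr_swap p l']; ring
  have hL : lat (α • l + β • p) (γ • l + δ • p) = lat l p :=
    closure_pair_eq rfl rfl (Or.inl hdet)
  have f1 : cr (α • l + β • p) v' = 0 := by
    have : w * cr (α • l + β • p) v' = 0 := by
      rw [cr_add_left, cr_smul_left, cr_smul_left, n1, n2]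
      linear_combination (q * (cr p S.v * m)) * eα - (cr p S.v - q * (cr p S.v * r)) * eβ
    rcases mul_eq_zero.1 this with h | h
    · omega
    · exact h
  have f2 : cr (γ • l + δ • p) v' = w * cr p S.v := by
    rw [cr_add_left, cr_smul_left, cr_smul_left, n1, n2]
    linear_combination (-(γ * cr p S.v)) * eβ + (δ * cr p S.v) * eα + w * cr p S.v * hdet
  have f3 : cr (γ • l + δ • p) (α • l + β • p) = cr p l := by
    simp only [cr_add_left, cr_add_right, cr_smul_left, cr_smul_right, cr_self]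
    rw [cr_swap l p]
    linear_combination cr p l * hdet
  have hbpos : 0 < w * cr p S.v := mul_pos hw0 ad.h3
  have f4 : cr p l * cr S.u S.v = cr S.u (α • l + β • p) * (w * cr p S.v) := by
    have := plucker (γ • l + δ • p) (α • l + β • p) S.u v'
    rw [f1, f2, f3, e3, cr_swap (α • l + β • p) S.u] at this
    linarith
  have f5 : w * cr S.u (α • l + β • p) = cr S.u l := by
    have h1 := ad.area
    rw [f4] at h1
    have h2 : (w * cr S.u (α • l + β • p) - cr S.u l) * cr p S.v = 0 := by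
      linear_combination h1
    rcases mul_eq_zero.1 h2 with h | h
    · linarith
    · have := ad.h3; omega
  refine ⟨α • l + β • p, γ • l + δ • p, γ, δ, ⟨?_, rfl, ?_, ?_, ?_, ad.h4, ?_, ?_, ?_⟩, rfl, ?_,
    ?_, f5, f3⟩
  · rw [hL]; exact ad.hL
  · show cr (α • l + β • p) (S.v + q • (S.u + l')) = 0
    rw [← hv']; exact f1
  · show 0 < cr S.u (α • l + β • p)
    have h1 : 0 < w * cr S.u (α • l + β • p) := by rw [f5]; exact ad.h2
    exact (mul_pos_iff_of_pos_left hw0).1 h1
  · show 0 < cr (γ • l + δ • p) (S.v + q • (S.u + l'))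
    rw [← hv', f2]; exact hbpos
  · show 0 < cr l' (S.v + q • (S.u + l'))
    have e5 : cr l' (S.v + q • (S.u + l')) = cr l' S.v := by
      rw [cr_add_right, cr_smul_right, cr_add_right, cr_self, e0]; ring
    rw [e5]; exact ad.h5
  · show 0 < cr S.u (p' + q • S.u)
    have e4 : cr S.u (p' + q • S.u) = cr S.u p' := by
      rw [cr_add_right, cr_smul_right, cr_self]; ring
    rw [e4]; exact ad.h6
  · show 0 < cr S.u (S.v + q • (S.u + l'))
    rw [← hv', e3]; exact ad.hA
  · linear_combination δ * eα - γ * eβ + w * hdet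
  · rw [← hv']; exact f2

/-- T1g: `H_q` with `gcd (m, 1 - q r) = 1` -/
theorem FM.twH {S : PSt} {β b' a' : ℤ} (h : FM S β b' a') {l p l' p' : Z2}
    (ad : Ad S l p l' p') {m r q : ℤ}
    (hm : cr S.u l + cr l' l = β * m) (hr : cr S.u p + cr l' p = β * r)
    (hw : Int.gcd m (1 - q * r) = 1) :
    SEq S ⟨S.L, S.u, S.v + q • (S.u + l'), lat l' (p' + q • S.u)⟩ ∧
    FM ⟨S.L, S.u, S.v + q • (S.u + l'), lat l' (p' + q • S.u)⟩ β b' a' := by
  have eb : cr p S.v = β := ad.isC.unique h.hb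
  have eb' : cr S.u p' = b' := ad.isC'.unique h.hb'
  have ea' : cr l' p' = a' := ad.isArea'.unique h.ha'
  have k1 := ad.twH h.ok (by rw [h.hA, eb']; exact h.ble) q
  obtain ⟨l1, p1, x, y, ad1, _, _, h2, _, _⟩ := ad.twHb (m := m) (r := r) (q := q) (w := 1)
    (by rw [eb]; exact hm) (by rw [eb]; exact hr) (by exact_mod_cast hw)
  rw [one_mul, eb] at h2
  have hA1 : cr S.u (S.v + q • (S.u + l')) = β := by
    rw [cr_add_right, cr_smul_right, cr_add_right, cr_self, ad.h4, h.hA]; ring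
  have e0 : cr l' S.u = 0 := by rw [cr_swap l' S.u, ad.h4, neg_zero]
  have c1 := ad1.isC
  have c2 := ad1.isC'
  have c3 := ad1.isArea'
  dsimp only at c1 c2 c3
  rw [h2] at c1
  have e4 : cr S.u (p' + q • S.u) = b' := by
    rw [cr_add_right, cr_smul_right, cr_self, eb']; ring
  have e6 : cr l' (p' + q • S.u) = a' := by
    rw [cr_add_right, cr_smul_right, e0, ea']; ring
  rw [e4] at c2
  rw [e6] at c3
  exact ⟨k1, k1.ok', k1.full.1 h.full, hA1, c1, c2, c3,
    fun T c hT hc => h.lb T c (k1.trans hT) hc,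
    fun T c' hT h1 h2 h3 h4 => h.min T c' (k1.trans hT) h1 h2 h3 h4⟩

end Pool.Agent.H4G
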