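import Pool.Agent.H4G.Cone.Defs
import Pool.Agent.H4G.Asym.PMrig
import Pool.Agent.H4G.Cone.T1H

/-!
# T1 (MP_4f7c28, LINE C1): the frame of the case `A = b` (helper88)

Existence of the frame states, the numbers of an adapted basis, and the V-rigidity.
-/

set_option autoImplicit false

namespace Pool.Agent.H4G

/-- T1a -/
theorem exists_FM {S : PSt} {β a' : ℤ} (ok : S.Ok) (hF : S.Full) (hA : cr S.u S.v = β)
    (hb : IsC S.L S.v β) (ha' : IsArea S.L' a')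
    (lb : ∀ (T : PSt) (c : ℤ), SEq S T → IsC T.L T.v c → β ≤ c) :
    ∃ (T : PSt) (b' : ℤ), SEq S T ∧ FM T β b' a' := by
  obtain ⟨l, p, l', p', ad⟩ := exists_Ad ok
  obtain ⟨m, ⟨T, k1, k2, k3, k4, k5⟩, hmin⟩ := exists_min_int
    (P := fun m => ∃ T : PSt, SEq S T ∧ cr T.u T.v = β ∧ IsC T.L T.v β ∧
      IsArea T.L' a' ∧ IsC T.L' T.u m)
    (fun m ⟨T, _, _, _, _, h1⟩ => h1.1)
    ⟨_, S, ok.seq, hA, hb, ha', ad.isC'⟩
  exact ⟨T, m, k1, k1.ok', (k1.full).1 hF, k2, k3, k5, k4,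
    fun T2 d h1 h2 => lb T2 d (k1.trans h1) h2,
    fun T2 c' h1 h2 h3 h4 h5 => hmin _ ⟨T2, k1.trans h1, h2, h3, h4, h5⟩⟩

/-- T1b: the numbers of an adapted basis -/
theorem FM.num {S : PSt} {β b' a' : ℤ} (h : FM S β b' a') {l p l' p' : Z2} (ad : Ad S l p l' p') :
    cr p S.v = β ∧ cr S.u p' = b' ∧ cr l' p' = a' ∧ cr p l = cr S.u l ∧ β ≤ b' ∧ 0 < β := by
  have e1 : cr p S.v = β := ad.isC.unique h.hb
  have e2 : cr S.u p' = b' := ad.isC'.unique h.hb'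
  have e3 : cr l' p' = a' := ad.isArea'.unique h.ha'
  have e4 := ad.area
  have hA := h.hA
  refine ⟨e1, e2, e3, ?_, h.le' h.ok.seq h.hb', h.hb.1⟩
  have h0 : 0 < β := h.hb.1
  rw [e1, hA] at e4
  have : (cr p l - cr S.u l) * β = 0 := by linear_combination e4
  rcases mul_eq_zero.1 this with h9 | h9
  · linarith
  · omega

/-- T1d: V-rigidity -/
theorem FM.vrig {S : PSt} {β b' a' : ℤ} (h : FM S β b' a') {l p l' p' : Z2}
    (ad : Ad S l p l' p') : b' ∣ cr l' S.v + cr l' l ∧ b' ∣ cr p' S.v + cr p' l := by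
  obtain ⟨e1, e2, e3, e4, hβ, h0⟩ := h.num ad
  have hA : cr S.u S.v ≤ cr p S.v := by rw [e1, h.hA]
  have hb0' := h.hb'.1
  have V := crt_min (g := b') (B1 := cr (S.v + l) l') (B2 := cr (S.v + l) p') hb0' ad.vl_ne
    (fun j => by
      obtain ⟨k1, k2, k3, k4⟩ := ad.twVs h.ok hA h.hb h.hb' j
      exact h.min _ _ k1 (by dsimp only; rw [k4, h.hA]) k2 h.ha' k3)
  rw [cr_add_left] at V
  rw [cr_add_left] at V
  refine ⟨?_, ?_⟩
  · rw [cr_swap l' S.v, cr_swap l' l, ← neg_add]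
    exact (dvd_neg).2 V.1
  · rw [cr_swap p' S.v, cr_swap p' l, ← neg_add]
    exact (dvd_neg).2 V.2

end Pool.Agent.H4G
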