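import Pool.Agent.H4G.Cone.T1H
import Pool.Agent.H4G.Asym.R14
import Pool.Agent.H4G.Asym.EqSel

/-!
# Row T2 of line C1: content one in the frame (helper98)
-/

set_option autoImplicit false

namespace Pool.Agent.H4G

/-- the size condition of the fat rows -/
theorem Par.big4 {N M J : ℕ} (hP : Par N M J) {A e eT : ℤ} (hA : 0 < A)
    (he : (M : ℤ) ^ 4 * A ≤ e) (heT : e ≤ 2 * eT) : 4096 * (J : ℤ) ^ 4 * A ≤ eT := by
  have hJ1 := hP.J1'
  have j1 : (1 : ℤ) ≤ J := by linarith [show (1 : ℤ) ≤ 2 ^ 10 by norm_num]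
  have hM100 := hP.M100
  have hM0 : (0 : ℤ) < M := by linarith [show (0 : ℤ) < 2 ^ 100 by norm_num]
  obtain ⟨hJN, hJM⟩ := hP.JN
  have j2 : (8192 : ℤ) * J ^ 4 ≤ M ^ 4 := by
    have k1 : (J : ℤ) ^ 4 ≤ J ^ 10 := pow_le_pow_right₀ j1 (by norm_num)
    have k2 : (8192 : ℤ) * M ≤ M ^ 3 * M := by
      apply mul_le_mul_of_nonneg_right _ hM0.le
      have : (M : ℤ) ≤ M ^ 3 := le_self_pow₀ (by linarith) (by norm_num)
      linarith [show (8192 : ℤ) ≤ 2 ^ 100 by norm_num]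
    calc (8192 : ℤ) * J ^ 4 ≤ 8192 * M := by linarith
      _ ≤ M ^ 3 * M := k2
      _ = M ^ 4 := by ring
  have j3 : (8192 : ℤ) * J ^ 4 * A ≤ M ^ 4 * A := mul_le_mul_of_nonneg_right j2 hA.le
  linarith

/-- T2b: no H-twist with `w = 2` and content `1` -/
theorem FM.noW2 {N M J : ℕ} (hP : Par N M J) {S : PSt} {β b' a' : ℤ} (h : FM S β b' a')
    {l p l' p' : Z2} (ad : Ad S l p l' p') (hv : cr p l + cr S.u S.v + cr l' p' = N) (h2 : 2 ≤ β)
    (he : (M : ℤ) ^ 4 * β ≤ cr S.u l) {m r q : ℤ}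
    (hm : cr S.u l + cr l' l = β * m) (hr : cr S.u p + cr l' p = β * r)
    (hw : Int.gcd m (1 - q * r) = 2) :
    ¬ CT ⟨S.L, S.u, S.v + q • (S.u + l'), lat l' (p' + q • S.u)⟩ 1 := by
  intro hct
  have eb : cr p S.v = β := ad.isC.unique h.hb
  have eb' : cr S.u p' = b' := ad.isC'.unique h.hb'
  have hβ0 : 0 < β := by omega
  have hae : cr p l = cr S.u l := by
    have h1 := ad.area
    rw [h.hA, eb] at h1
    exact mul_right_cancel₀ hβ0.ne' h1
  have k1 := ad.twH h.ok (by rw [h.hA, eb']; exact h.ble) q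
  obtain ⟨l1, p1, x, y, adT, -, -, t1, t2, t3⟩ := ad.twHb (m := m) (r := r) (q := q) (w := 2)
    (by rw [eb]; exact hm) (by rw [eb]; exact hr) (by exact_mod_cast hw)
  have t4 : cr S.u (S.v + q • (S.u + l')) = β := by
    rw [cr_add_right, cr_smul_right, cr_add_right, cr_self, ad.h4, h.hA]; ring
  have t7 : cr l' (p' + q • S.u) = cr l' p' := by
    have e0 : cr l' S.u = 0 := by rw [cr_swap l' S.u, ad.h4, neg_zero]
    rw [cr_add_right, cr_smul_right, e0]; ring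
  rw [eb] at t1
  rw [hae] at t3
  obtain ⟨v1, hv1⟩ : ∃ v1 : Z2, v1 = S.v + q • (S.u + l') := ⟨_, rfl⟩
  obtain ⟨p2, hp2⟩ : ∃ p2 : Z2, p2 = p' + q • S.u := ⟨_, rfl⟩
  rw [← hv1, ← hp2] at k1 adT hct
  rw [← hv1] at t1 t4
  rw [← hp2] at t7
  have hJ1 := hP.J1'
  have hJ0 : (0 : ℤ) < J := by linarith [show (0 : ℤ) < 2 ^ 10 by norm_num]
  have j1 : (1 : ℤ) ≤ J := by linarith [show (1 : ℤ) ≤ 2 ^ 10 by norm_num]
  obtain ⟨hJN, hJM⟩ := hP.JN
  obtain ⟨D, U, V, L, P, hD, hLX, hex⟩ := exLX h.lb k1 adT (by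
    show cr S.u v1 ≤ cr p1 v1
    rw [t4, t1]; omega) hct (by norm_num)
  have hLX' : LX (cr S.u v1) (cr p1 v1) (cr S.u l1) (cr S.u p1) (cr p1 l1) D U V L P := hLX
  have hex' : ∀ j t i o : ℤ, XC (cr S.u v1) (cr p1 v1) (cr S.u l1) (cr S.u p1) (cr p1 l1) j t i o →
      β ≤ 1 * gcv (XW U V L P j t i o) := hex
  rw [t4, t1, t3] at hLX' hex'
  have heT0 : 0 < cr S.u l1 := hLX'.e0
  have hD0 : 0 < D := hLX'.D0
  have ha0' : 0 < cr l' p' := ad.pos'
  have he0 : 0 < cr S.u l := ad.h2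
  rw [h.hA, hae] at hv
  have hDN : D ≤ N := by
    rw [one_pow, one_mul, t7] at hD
    linarith
  have hXT := num_X (N := N) (J := J) (D := D) (e := cr S.u l1) (a := cr S.u l) hP.N16 hJ0.le hJN
    hD0.le hDN heT0.le (by linarith) he0.le (by linarith)
  have hbig := hP.big4 hβ0 he t2.ge
  obtain ⟨j, t, i, k2, k3⟩ := hLX'.fat2 (J := J) (X := N ^ 6) (by exact_mod_cast j1) hP.cap
    (by push_cast; exact hXT) (by
      have : 2 * β < 4 * J * β := by nlinarith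
      linarith) hbig (by
      intro q z hq1 hq2 hqz
      have e1 : (z - 2 * q) * cr S.u l1 = q * β := by
        have : cr S.u l = 2 * cr S.u l1 := t2.symm
        rw [this] at hqz
        linear_combination -hqz
      have hqb : q * β < cr S.u l1 := by
        have m1 : q * β ≤ (16 * J * (J + 1)) * β := mul_le_mul_of_nonneg_right hq2 hβ0.le
        have m2 : (16 * (J : ℤ) * (J + 1)) * β < 4096 * (J : ℤ) ^ 4 * β := by
          apply mul_lt_mul_of_pos_right _ hβ0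
          have m3 : (J : ℤ) ^ 2 ≤ J ^ 4 := pow_le_pow_right₀ j1 (by norm_num)
          nlinarith
        linarith
      have hqb0 : 0 < q * β := mul_pos hq1 hβ0
      have m3 : 0 < z - 2 * q := by
        by_contra hn
        push Not at hn
        have : (z - 2 * q) * cr S.u l1 ≤ 0 := by nlinarith
        linarith
      have m4 : 1 * cr S.u l1 ≤ (z - 2 * q) * cr S.u l1 :=
        mul_le_mul_of_nonneg_right (by omega) heT0.le
      linarith)
  have h3 := hex' j t i 1 k2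
  rw [k3] at h3
  push_cast at h3
  omega

/-- T2: content `1`; `N = a + A + a'` -/
theorem FM.content {N M J : ℕ} (hP : Par N M J) {S : PSt} {β b' a' : ℤ} (h : FM S β b' a')
    {l p l' p' : Z2} (ad : Ad S l p l' p') (hv : cr p l + cr S.u S.v + cr l' p' = N) (h2 : 2 ≤ β)
    (he : (M : ℤ) ^ 4 * β ≤ cr S.u l) :
    ∃ (q : ℤ) (T : PSt) (l1 p1 : Z2), SEq S T ∧
      T = ⟨S.L, S.u, S.v + q • (S.u + l'), lat l' (p' + q • S.u)⟩ ∧
      Ad T l1 p1 l' (p' + q • S.u) ∧ FM T β b' a' ∧ CT T 1 ∧ cr T.u l1 = cr S.u l ∧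
      cr l' T.v = cr l' S.v := by
  have eb : cr p S.v = β := ad.isC.unique h.hb
  have eb' : cr S.u p' = b' := ad.isC'.unique h.hb'
  have ea' : cr l' p' = a' := ad.isArea'.unique h.ha'
  have hβ0 : 0 < β := by omega
  have hae : cr p l = cr S.u l := by
    have h1 := ad.area
    rw [h.hA, eb] at h1
    exact mul_right_cancel₀ hβ0.ne' h1
  obtain ⟨⟨m, hm⟩, ⟨r, hr⟩⟩ := h.hrig h.ok.seq h.hA h.hb ad
  have n := ad.nums
  rw [eb, eb', h.hA] at n
  have hm0 : m ≠ 0 := by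
    rintro rfl
    rw [mul_zero] at hm
    have h1 := ad.k1A
    have h2 : 0 < cr S.u l * cr l' S.v := mul_pos ad.h2 ad.h5
    rw [← h1] at h2
    have h3 : 0 < cr l' l := (mul_pos_iff_of_pos_right ad.hA).1 h2
    have h4 := ad.h2
    omega
  obtain ⟨q, w, hw, hw2, hFD⟩ := eq_arith (A := β) (a' := cr l' p') (b' := b') (e := cr S.u l)
    (f := cr S.u p) (e' := cr l' S.v) (f' := cr p' S.v) (k1 := cr l' l) (k2 := cr p' l)
    (k3 := cr l' p) (k4 := cr p' p) (m := m) (r := r) n.b0' hm0 n.ra' (by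
      intro d d1 d2 d3 d6 d7 d8 d9 d10 d11 d12 d13
      exact ad.full h.full (h.hA ▸ d1) d2 d3 (eb ▸ d1) (hae ▸ d2) d6 (eb' ▸ d7) d8 d9 d10 d11 d12
        d13)
  rw [gcd_qr] at hw
  have hc1 : Cont ⟨S.L, S.u, S.v + q • (S.u + l'), lat l' (p' + q • S.u)⟩ 1 := by
    rw [cont_H ad q 1]
    exact ⟨one_dvd _, one_dvd _, one_dvd _, one_dvd _, one_dvd _, one_dvd _, one_dvd _⟩
  have hct : CT ⟨S.L, S.u, S.v + q • (S.u + l'), lat l' (p' + q • S.u)⟩ 1 := by
    refine ⟨one_pos, hc1, ?_⟩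
    intro d hd
    rw [cont_H ad q d, eb', h.hA] at hd
    exact hFD d hd
  rcases hw2 with hw2 | hw2
  · rw [hw2] at hw
    have hw' : Int.gcd m (1 - q * r) = 1 := by exact_mod_cast hw.symm
    obtain ⟨k1, k2⟩ := h.twH ad hm hr hw'
    obtain ⟨l1, p1, x, y, adT, -, -, t1, t2, t3⟩ := ad.twHb (m := m) (r := r) (q := q) (w := 1)
      (by rw [eb]; exact hm) (by rw [eb]; exact hr) (by exact_mod_cast hw')
    refine ⟨q, _, l1, p1, k1, rfl, adT, k2, hct, ?_, ?_⟩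
    · show cr S.u l1 = cr S.u l
      rw [← t2, one_mul]
    · show cr l' (S.v + q • (S.u + l')) = cr l' S.v
      have e0 : cr l' S.u = 0 := by rw [cr_swap l' S.u, ad.h4, neg_zero]
      rw [cr_add_right, cr_smul_right, cr_add_right, cr_self, e0]; ring
  · exfalso
    rw [hw2] at hw
    exact h.noW2 hP ad hv h2 he hm hr (by exact_mod_cast hw.symm) hct

end Pool.Agent.H4G
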