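import Pool.Agent.H4G.Asym.EqR11
import Pool.Agent.H4G.Cone.T1

/-!
# T1e (MP_4f7c28, LINE C1): the size of `b'` in the frame of the case `A = b` (helper88)

The argument is `RW.main_dvd` of `Asym/EqR11` (proof of helper96, Lean by helper31 and helper5).
-/

set_option autoImplicit false

namespace Pool.Agent.H4G

/-- the V-rigidity after an H-twist which keeps the gaps -/
theorem FM.vrigH {S : PSt} {β b' a' : ℤ} (h : FM S β b' a') {l p l' p' : Z2}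
    (ad : Ad S l p l' p') {m r : ℤ} (hm : cr S.u l + cr l' l = β * m)
    (hr : cr S.u p + cr l' p = β * r) {i : ℤ} (hi : Int.gcd m (1 - i * r) = 1) :
    β * b' ∣ (cr p' S.v - i * (cr l' p' + b' - β)) * (cr p l + β) := by
  obtain ⟨e1, e2, e3, e4, -, h0⟩ := h.num ad
  obtain ⟨-, hT⟩ := h.twH ad hm hr hi
  obtain ⟨l1, p1, x, y, ad1, -, -, h2, -, h5⟩ := ad.twHb (m := m) (r := r) (q := i) (w := 1)
    (by rw [e1]; exact hm) (by rw [e1]; exact hr) (by exact_mod_cast hi)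
  obtain ⟨-, r1, hr1⟩ := hT.vrig ad1
  dsimp only at hr1
  have n1 := ad1.nums
  have hA1 := hT.hA
  dsimp only at hA1
  rw [one_mul, e1] at h2
  obtain ⟨f1, hf1⟩ : ∃ f1 : ℤ, f1 = cr (p' + i • S.u) (S.v + i • (S.u + l')) := ⟨_, rfl⟩
  obtain ⟨k1, hk1⟩ : ∃ k1 : ℤ, k1 = cr (p' + i • S.u) l1 := ⟨_, rfl⟩
  have g1 := n1.r2
  have g2 := n1.ra
  dsimp only at g1 g2
  rw [hA1, ← hf1, ← hk1] at g1
  rw [hA1, h2, h5] at g2
  rw [← hf1, ← hk1] at hr1
  have e5 : f1 = cr p' S.v - i * (cr l' p' + b' - β) := by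
    rw [hf1, ← e2, ← h.hA]
    simp only [cr_add_left, cr_smul_left, cr_add_right, cr_smul_right, cr_self]
    rw [cr_swap p' S.u, cr_swap p' l', ad.h4]; ring
  refine ⟨r1, ?_⟩
  rw [← e5]
  apply mul_right_cancel₀ h0.ne'
  linear_combination β * β * hr1 - β * g1 + f1 * g2

/-- the rigidity data of a frame state -/
theorem FM.rw {S : PSt} {β b' a' : ℤ} (h : FM S β b' a') {l p l' p' : Z2}
    (ad : Ad S l p l' p') :
    ∃ m r m' r' : ℤ, RW β β (cr S.u l) (cr S.u p) b' (cr l' S.v) (cr p' S.v) (cr p l) (cr l' p')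
        m r m' r' ∧
      cr S.u l + cr l' l = β * m ∧ cr S.u p + cr l' p = β * r ∧
      cr l' S.v + cr l' l = b' * m' ∧ cr p' S.v + cr p' l = b' * r' := by
  obtain ⟨e1, e2, e3, ha, hle, h0⟩ := h.num ad
  obtain ⟨⟨m, hm⟩, ⟨r, hr⟩⟩ := h.hrig h.ok.seq h.hA h.hb ad
  obtain ⟨⟨m', hm'⟩, ⟨r', hr'⟩⟩ := h.vrig ad
  have n := ad.nums
  rw [e1, e2, h.hA] at n
  obtain ⟨k1, k2, k3, k4⟩ := n.rig4 hm hr hm' hr'
  refine ⟨m, r, m', r', ⟨h0, h0, n.e0, n.b0', n.e0', n.a0, n.a0', le_rfl, hle, n.ra, n.ra', k1,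
    k2, k3, k4, ?_, ?_⟩, hm, hr, hm', hr'⟩
  · intro j _
    have e3 : (cr S.u p + j * (cr p l + β - β)) * (cr l' p' + b') =
        β * b' * (r + j * m) := by
      rw [ha]
      linear_combination (-1 : ℤ) * k2 - j * k1
    rw [e3]
    exact dvd_mul_right _ _
  · intro i hi
    exact h.vrigH ad hm hr hi

/-- T1e: the size of `b'` -/
theorem FM.main {S : PSt} {β b' a' : ℤ} (h : FM S β b' a') {l p l' p' : Z2}
    (ad : Ad S l p l' p') : β * β * b' ∣ 4 * (β + cr S.u l) * (β + cr l' S.v) := by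
  obtain ⟨m, r, m', r', hRW, -⟩ := h.rw ad
  obtain ⟨e1, e2, -⟩ := h.num ad
  have n := ad.nums
  have hA := h.hA
  rw [e1, e2, hA] at n
  refine hRW.main_dvd n.r1 n.r2 n.r3 n.r4 ?_
  intro d hd
  simp only [Set.mem_insert_iff, Set.mem_singleton_iff, forall_eq_or_imp, forall_eq] at hd
  obtain ⟨d1, d2, d3, d4, d5, d6, d7, d8, d9, d10, d11, d12, d13⟩ := hd
  exact ad.full h.full (hA ▸ d1) d2 d3 (e1 ▸ d4) d5 d6 (e2 ▸ d7) d8 d9 d10 d11 d12 d13

end Pool.Agent.H4G
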