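import Pool.Agent.H4G.Cone.T3A
import Pool.Agent.H4G.Cone.T1
import Pool.Agent.H4G.Cone.T1E

/-!
# Row T3 (helper46)
-/

set_option autoImplicit false

namespace Pool.Agent.H4G

/-- T3 -/
theorem FM.small {N M J : ℕ} (hP : Par N M J) {S : PSt} {β b' a' : ℤ} (h : FM S β b' a')
    {l p l' p' : Z2} (ad : Ad S l p l' p') (hv : cr p l + cr S.u S.v + cr l' p' = N) (h2 : 2 ≤ β)
    (hb : β < b') : β + cr l' S.v ≤ (M : ℤ) ^ 5 * β ∧ (M : ℤ) ^ 9 * β ≤ cr S.u l :=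
  h.small_of hP ad hv h2 hb (h.vrig ad).1 (h.vrig ad).2 (h.main ad)

end Pool.Agent.H4G
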