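import Pool.Agent.H4G.Cone.T1H
import Pool.Agent.H4G.Cone.E1
import Pool.Agent.H4G.Cone.E23
import Pool.Agent.H4G.Asym.R8
import Pool.Agent.H4G.Asym.Hsel
import Pool.Agent.H4G.Asym.Par

/-!
# Row T4 (lemma Z): the H-twist by `k` (helper75)
-/

set_option autoImplicit false

namespace Pool.Agent.H4G

namespace LemZ

/-- size of a reduced product -/
theorem size {A E n s g : ℤ} (hA : 0 < A) (hE : 0 < E) (h1 : A * A * g = s * E)
    (h2 : |s| < n * A) : A * |g| < n * E := by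
  have h3 : A * (A * |g|) = |s| * E := by
    have h4 : |A * A * g| = |s * E| := by rw [h1]
    rw [abs_mul, abs_mul, abs_mul, abs_of_pos hA, abs_of_pos hE] at h4
    linarith
  have h5 : |s| * E < n * A * E := mul_lt_mul_of_pos_right h2 hE
  rw [← h3] at h5
  have h6 : A * (A * |g|) < A * (n * E) := by linarith
  exact lt_of_mul_lt_mul_left h6 hA.le

/-- The arithmetic of lemma Z. -/
theorem arith {A E n J m r e f k x rk fk i1 k0 i2 k2 : ℤ} (hA : 0 < A) (hAE : A ≤ E)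
    (hn : n = 8 * (J + 1)) (hJ : 1 ≤ J) (hm : A * A * m = e * E) (hr : A * A * r = f * E)
    (hrk : A * A * rk = fk * E) (htw : rk * (1 - k * r) = r + x * m)
    (hk1 : 2 * (n + 1) ≤ k) (hk2 : k ≤ 2 * (n + J + 1))
    (hi1 : 1 ≤ i1) (hi1' : i1 < n) (hi2 : 1 ≤ i2) (hi2' : i2 < n)
    (h0 : i1 * f - k0 * e ≠ 0) (h1 : |i1 * f - k0 * e| < n * A)
    (h2 : |i2 * fk - k2 * e| < n * A) (he : n ^ 5 * E ≤ e) : False := by
  have hE : 0 < E := by linarith
  have hn0 : 16 ≤ n := by linarith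
  obtain ⟨σ, hσ⟩ : ∃ σ, σ = i1 * r - k0 * m := ⟨_, rfl⟩
  obtain ⟨σ2, hσ2⟩ : ∃ σ2, σ2 = i2 * rk - k2 * m := ⟨_, rfl⟩
  have e1 : A * A * σ = (i1 * f - k0 * e) * E := by
    rw [hσ]; linear_combination i1 * hr - k0 * hm
  have e2 : A * A * σ2 = (i2 * fk - k2 * e) * E := by
    rw [hσ2]; linear_combination i2 * hrk - k2 * hm
  have hσ0 : σ ≠ 0 := by
    rintro hc
    rw [hc, mul_zero] at e1
    rcases mul_eq_zero.1 e1.symm with h | h
    · exact h0 h
    · linarith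
  have b1 := size hA hE e1 h1
  have b2 := size hA hE e2 h2
  obtain ⟨L, hL⟩ : ∃ L, L = i1 - k * σ := ⟨_, rfl⟩
  have hdvd : m ∣ L * σ2 - i2 * σ := by
    refine ⟨i2 * (k0 + i1 * x + k * k0 * rk) - L * k2, ?_⟩
    have e3 : L * rk = σ + m * (k0 + i1 * x + k * k0 * rk) := by
      rw [hL, hσ]; linear_combination i1 * htw
    rw [hσ2]
    linear_combination i2 * e3
  have hσ1 : 1 ≤ |σ| := Int.one_le_abs hσ0
  have hk0 : 0 < k := by linarith
  -- upper bound
  have hL1 : |L| ≤ i1 + k * |σ| := by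
    rw [hL]
    refine (abs_sub _ _).trans ?_
    rw [abs_mul, abs_of_pos hk0, abs_of_pos (by linarith : 0 < i1)]
  have hAL : A * |L| ≤ n * (1 + k) * E := by
    have c1 : A * |L| ≤ A * i1 + k * (A * |σ|) := by
      have := mul_le_mul_of_nonneg_left hL1 hA.le
      linarith [(by ring : A * (i1 + k * |σ|) = A * i1 + k * (A * |σ|))]
    have c2 : k * (A * |σ|) ≤ k * (n * E) := mul_le_mul_of_nonneg_left b1.le hk0.le
    have c3 : A * i1 ≤ E * n := mul_le_mul hAE hi1'.le (by linarith) hE.le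
    linarith [(by ring : n * (1 + k) * E = E * n + k * (n * E))]
  have hX : |L * σ2 - i2 * σ| * (A * A) ≤ n ^ 2 * (2 + k) * E ^ 2 := by
    have c1 : |L * σ2 - i2 * σ| ≤ |L| * |σ2| + i2 * |σ| := by
      refine (abs_sub _ _).trans ?_
      rw [abs_mul, abs_mul, abs_of_pos (by linarith : 0 < i2)]
    have c2 : |L * σ2 - i2 * σ| * (A * A) ≤ (|L| * |σ2| + i2 * |σ|) * (A * A) :=
      mul_le_mul_of_nonneg_right c1 (by positivity)
    have c3 : (A * |L|) * (A * |σ2|) ≤ (n * (1 + k) * E) * (n * E) :=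
      mul_le_mul hAL b2.le (by positivity) (by positivity)
    have c4 : (A * i2) * (A * |σ|) ≤ (E * n) * (n * E) :=
      mul_le_mul (mul_le_mul hAE hi2'.le (by linarith) hE.le) b1.le (by positivity) (by positivity)
    have c5 : (|L| * |σ2| + i2 * |σ|) * (A * A) = (A * |L|) * (A * |σ2|) + (A * i2) * (A * |σ|) := by
      ring
    have c6 : n ^ 2 * (2 + k) * E ^ 2 = (n * (1 + k) * E) * (n * E) + (E * n) * (n * E) := by ring
    linarith
  have hX2 : n ^ 2 * (2 + k) * E ^ 2 < A * A * m := by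
    rw [hm]
    have c1 : 2 + k ≤ 3 * n := by linarith
    have c2 : n ^ 2 * (2 + k) * E ^ 2 ≤ n ^ 2 * (3 * n) * E ^ 2 := by
      apply mul_le_mul_of_nonneg_right _ (by positivity)
      exact mul_le_mul_of_nonneg_left c1 (by positivity)
    have c3 : n ^ 5 * E * E ≤ e * E := mul_le_mul_of_nonneg_right he hE.le
    have c4 : n ^ 2 * (3 * n) * E ^ 2 < n ^ 5 * E * E := by
      have c5 : 0 < n ^ 3 * E ^ 2 := by positivity
      have c6 : 3 < n ^ 2 := by nlinarith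
      have c7 : 3 * (n ^ 3 * E ^ 2) < n ^ 2 * (n ^ 3 * E ^ 2) := mul_lt_mul_of_pos_right c6 c5
      linarith [(by ring : n ^ 2 * (3 * n) * E ^ 2 = 3 * (n ^ 3 * E ^ 2)),
        (by ring : n ^ 5 * E * E = n ^ 2 * (n ^ 3 * E ^ 2))]
    linarith
  have hm0 : |L * σ2 - i2 * σ| < m := by
    have c1 : (A * A) * |L * σ2 - i2 * σ| < (A * A) * m := by
      rw [mul_comm (A * A) |L * σ2 - i2 * σ|]
      linarith
    exact lt_of_mul_lt_mul_left c1 (by positivity)
  have hz : L * σ2 - i2 * σ = 0 := Int.eq_zero_of_abs_lt_dvd hdvd hm0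
  have hz2 : |L| * |σ2| = i2 * |σ| := by
    have : L * σ2 = i2 * σ := by linarith
    rw [← abs_mul, this, abs_mul, abs_of_pos (by linarith : 0 < i2)]
  have hσ20 : 1 ≤ |σ2| := by
    refine Int.one_le_abs fun hc => ?_
    rw [hc, abs_zero, mul_zero] at hz2
    have : 0 < i2 * |σ| := mul_pos (by linarith) (by linarith)
    linarith
  have hL2 : k * |σ| - i1 ≤ |L| := by
    rw [hL]
    have c1 : |k * σ| ≤ |i1 - k * σ| + |i1| := by
      have := abs_sub_abs_le_abs_sub (k * σ) i1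
      rw [abs_sub_comm (k * σ) i1] at this
      linarith
    rw [abs_mul, abs_of_pos hk0, abs_of_pos (by linarith : 0 < i1)] at c1
    linarith
  have hL3 : i2 * |σ| < |L| := by
    have c1 : 2 * (n + 1) * |σ| ≤ k * |σ| := mul_le_mul_of_nonneg_right hk1 (abs_nonneg _)
    have c2 : i2 * |σ| ≤ n * |σ| := mul_le_mul_of_nonneg_right hi2'.le (abs_nonneg _)
    have c3 : n ≤ n * |σ| := by nlinarith
    linarith [(by ring : 2 * (n + 1) * |σ| = n * |σ| + n * |σ| + 2 * |σ|)]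
  have hL4 : |L| ≤ |L| * |σ2| := by nlinarith [abs_nonneg L]
  linarith

/-- `FD` passes to divisors -/
theorem fd_mono {b' e' f' k1 k2 k3 k4 e f t q d d' : ℤ} (h : FD b' e' f' k1 k2 k3 k4 e f t q d)
    (h1 : d' ∣ d) : FD b' e' f' k1 k2 k3 k4 e f t q d' :=
  ⟨h1.trans h.1, h1.trans h.2.1, h1.trans h.2.2.1, h1.trans h.2.2.2.1, h1.trans h.2.2.2.2.1,
    h1.trans h.2.2.2.2.2.1, h1.trans h.2.2.2.2.2.2⟩

/-- content of `H_q S` at a prime dividing the twist -/
theorem fd_zero {b' e' f' k1 k2 k3 k4 e f t q d : ℤ} (h : FD b' e' f' k1 k2 k3 k4 e f t q d)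
    (hq : d ∣ q) : d ∣ b' ∧ d ∣ e' ∧ d ∣ f' ∧ d ∣ k1 ∧ d ∣ k2 ∧ d ∣ k3 ∧ d ∣ k4 := by
  obtain ⟨h1, h2, h3, h4, h5, h6, h7⟩ := h
  refine ⟨h1, h2, ?_, h4, ?_, h6, ?_⟩
  · have := dvd_add h3 (hq.mul_right t)
    simpa using this
  · have := dvd_sub h5 (hq.mul_right e)
    simpa using this
  · have := dvd_sub h7 (hq.mul_right f)
    simpa using this

/-- two different twists with the same content prime -/
theorem fd_two {b' e' f' k1 k2 k3 k4 e f t q q' : ℤ} {p : ℕ} (hp : p.Prime)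
    (h : FD b' e' f' k1 k2 k3 k4 e f t q p) (h' : FD b' e' f' k1 k2 k3 k4 e f t q' p)
    (hq : ¬ (p : ℤ) ∣ q - q') : (p : ℤ) ∣ b' ∧ (p : ℤ) ∣ e' ∧ (p : ℤ) ∣ f' ∧ (p : ℤ) ∣ k1 ∧
      (p : ℤ) ∣ k2 ∧ (p : ℤ) ∣ k3 ∧ (p : ℤ) ∣ k4 := by
  have hpr : Prime (p : ℤ) := Nat.prime_iff_prime_int.1 hp
  obtain ⟨h1, h2, h3, h4, h5, h6, h7⟩ := h
  obtain ⟨-, -, g3, -, g5, -, g7⟩ := h'
  have et : (p : ℤ) ∣ t := by
    have : (p : ℤ) ∣ (q - q') * t := by
      have := dvd_sub g3 h3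
      have e1 : f' - q' * t - (f' - q * t) = (q - q') * t := by ring
      rwa [e1] at this
    exact (hpr.dvd_or_dvd this).resolve_left hq
  have ee : (p : ℤ) ∣ e := by
    have : (p : ℤ) ∣ (q - q') * e := by
      have := dvd_sub h5 g5
      have e1 : k2 + q * e - (k2 + q' * e) = (q - q') * e := by ring
      rwa [e1] at this
    exact (hpr.dvd_or_dvd this).resolve_left hq
  have ef : (p : ℤ) ∣ f := by
    have : (p : ℤ) ∣ (q - q') * f := by
      have := dvd_sub h7 g7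
      have e1 : k4 + q * f - (k4 + q' * f) = (q - q') * f := by ring
      rwa [e1] at this
    exact (hpr.dvd_or_dvd this).resolve_left hq
  refine ⟨h1, h2, ?_, h4, ?_, h6, ?_⟩
  · have := dvd_add h3 (et.mul_left q)
    simpa using this
  · have := dvd_sub h5 (ee.mul_left q)
    simpa using this
  · have := dvd_sub h7 (ef.mul_left q)
    simpa using this

/-- the numbers of an adapted basis -/
theorem num {S : PSt} {β b' a' : ℤ} (h : FM S β b' a') {l p l' p' : Z2} (ad : Ad S l p l' p') :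
    cr p S.v = β ∧ cr S.u p' = b' ∧ cr l' p' = a' ∧ cr p l = cr S.u l ∧ β ≤ b' ∧ 0 < β := by
  have e1 : cr p S.v = β := ad.isC.unique h.hb
  have e2 : cr S.u p' = b' := ad.isC'.unique h.hb'
  have e0 := h.hb.1
  refine ⟨e1, e2, ad.isArea'.unique h.ha', ?_, h.ble, e0⟩
  have := ad.area
  rw [h.hA, e1] at this
  exact mul_right_cancel₀ e0.ne' this

end LemZ

open LemZ

set_option maxHeartbeats 4000000 in
/-- T4, lemma Z -/
theorem FM.Z {N M J : ℕ} (hP : Par N M J) {S : PSt} {β b' a' : ℤ} (h : FM S β b' a')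
    {l p l' p' : Z2} (ad : Ad S l p l' p') (hv : cr p l + cr S.u S.v + cr l' p' = N) (h2 : 2 ≤ β)
    (hct : CT S 1) (hK : (M : ℤ) * (β + cr l' S.v) ≤ cr S.u l) {i1 k0 : ℤ} (hi : 1 ≤ i1)
    (hi' : i1 < 8 * ((J : ℤ) + 1)) (hc : IsCoprime k0 i1)
    (h0 : i1 * cr S.u p - k0 * cr S.u l ≠ 0)
    (h1 : |i1 * cr S.u p - k0 * cr S.u l| < 8 * ((J : ℤ) + 1) * β) : False := by
  obtain ⟨e1, e2, e3, e4, e5, e6⟩ := LemZ.num h ad
  obtain ⟨⟨m, hm⟩, ⟨r, hr⟩⟩ := h.hrig h.ok.seq h.hA h.hb ad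
  have hJ := hP.J1'
  have hJ1 : (1 : ℤ) ≤ J := by linarith [(by norm_num : (1 : ℤ) ≤ 2 ^ 10)]
  have hpe := ad.h2
  have hpe' := ad.h5
  have hpa' := ad.pos'
  have hpb' := ad.h6
  -- the numbers `m`, `r`
  have hk1 : cr l' l * β = cr S.u l * cr l' S.v := by rw [← h.hA]; exact ad.k1A
  have hk3 : cr l' p * β = cr S.u p * cr l' S.v := by
    have := plucker l' p S.u S.v
    rw [cr_swap l' S.u, ad.h4, cr_swap p S.u, h.hA] at this
    linarith
  have hm2 : β * β * m = cr S.u l * (β + cr l' S.v) := by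
    linear_combination (-β) * hm + hk1
  have hr2 : β * β * r = cr S.u p * (β + cr l' S.v) := by
    linear_combination (-β) * hr + hk3
  have hEpos : 0 < β + cr l' S.v := by linarith
  have hmpos : 0 < m := by
    have : 0 < β * β * m := by rw [hm2]; positivity
    exact (mul_pos_iff_of_pos_left (by positivity)).1 this
  -- sizes
  have harea' : cr l' p' * β = cr l' S.v * b' := by
    have := ad.area'
    rwa [h.hA, e2] at this
  have hN : cr S.u l + β + cr l' p' = N := by rw [← e4, ← h.hA]; exact hv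
  have he'a' : cr l' S.v ≤ cr l' p' := by
    have c1 : cr l' S.v * β ≤ cr l' p' * β := by
      rw [harea']
      exact mul_le_mul_of_nonneg_left e5 hpe'.le
    exact le_of_mul_le_mul_right c1 e6
  have hEN : β + cr l' S.v ≤ N := by linarith
  have heN : cr S.u l ≤ N := by linarith
  have hN0 : (0 : ℤ) < N := by linarith
  have hmN : m ≤ (N : ℤ) ^ 2 := by
    have c1 : m ≤ β * β * m := by
      have : 1 * m ≤ β * β * m := mul_le_mul_of_nonneg_right (by nlinarith) hmpos.le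
      linarith
    rw [hm2] at c1
    have c2 : cr S.u l * (β + cr l' S.v) ≤ N * N := mul_le_mul heN hEN hEpos.le hN0.le
    linarith [(by ring : (N : ℤ) * N = N ^ 2)]
  have hb'N : b' ≤ (N : ℤ) ^ 2 := by
    have hb'0 : 0 < b' := by rw [← e2]; exact hpb'
    have c1 : 1 * b' ≤ cr l' S.v * b' := mul_le_mul_of_nonneg_right (by linarith) hb'0.le
    rw [← harea'] at c1
    have c2 : cr l' p' * β ≤ N * N := mul_le_mul (by linarith) (by linarith) e6.le hN0.le
    linarith [(by ring : (N : ℤ) * N = N ^ 2)]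
  have hb'0 : 0 < b' := by rw [← e2]; exact hpb'
  have hmb : m * b' ≤ (N : ℤ) ^ 6 := by
    have c1 : m * b' ≤ (N : ℤ) ^ 2 * (N : ℤ) ^ 2 := mul_le_mul hmN hb'N hb'0.le (by positivity)
    have c2 : (N : ℤ) ^ 4 ≤ (N : ℤ) ^ 6 := pow_le_pow_right₀ (by linarith) (by norm_num)
    linarith [(by ring : (N : ℤ) ^ 2 * (N : ℤ) ^ 2 = N ^ 4)]
  -- the sieve
  obtain ⟨n, hn⟩ : ∃ n : ℤ, n = 8 * ((J : ℤ) + 1) := ⟨_, rfl⟩
  have hmbpos : 0 < m * b' := mul_pos hmpos hb'0
  set P : Finset ℕ := (m * b').natAbs.primeFactors with hPd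
  have hPm : ∀ q : ℕ, q.Prime → (q : ℤ) ∣ m * b' → q ∈ P := by
    intro q hq hd
    rw [hPd, Nat.mem_primeFactors]
    exact ⟨hq, Int.natCast_dvd.1 hd, by rw [Int.natAbs_ne_zero]; exact hmbpos.ne'⟩
  have hcard : ((4 ^ P.card : ℕ) : ℤ) ≤ J := by
    have c1 : (m * b').natAbs ≤ N ^ 6 := by
      have : ((m * b').natAbs : ℤ) ≤ ((N ^ 6 : ℕ) : ℤ) := by
        rw [Int.natCast_natAbs, abs_of_pos hmbpos]
        push_cast
        exact hmb
      exact_mod_cast this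
    have := hP.cap (m * b').natAbs (by rw [Int.natAbs_ne_zero]; exact hmbpos.ne') c1
    exact_mod_cast this
  have hct' : ∀ d : ℤ, d ∣ cr S.u p' ∧ d ∣ cr l' S.v ∧ d ∣ cr p' S.v ∧ d ∣ cr l' l ∧
      d ∣ cr p' l ∧ d ∣ cr l' p ∧ d ∣ cr p' p → d ∣ 1 := fun d hd =>
    hct.max d ((Cont.iff ad d).2 hd)
  obtain ⟨z, hz1, hz2, hz3⟩ := sieve2 P (fun q hq => Nat.prime_of_mem_primeFactors hq)
    (fun q z => q ≠ 2 ∧ (q : ℤ) ∣ 1 - (2 * z) * r)
    (fun q z => q ≠ 2 ∧ FD (cr S.u p') (cr l' S.v) (cr p' S.v) (cr l' l) (cr p' l) (cr l' p)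
      (cr p' p) (cr S.u l) (cr S.u p) (cr l' p' + cr S.u p' - cr S.u S.v) (2 * z) (q : ℤ))
    (fun q hq z z' hz hz' => by
      have hqq := Nat.prime_of_mem_primeFactors hq
      have hpr : Prime (q : ℤ) := Nat.prime_iff_prime_int.1 hqq
      have c1 : (q : ℤ) ∣ (2 * r) * (z - z') := by
        have := dvd_sub hz'.2 hz.2
        have c2 : 1 - 2 * z' * r - (1 - 2 * z * r) = (2 * r) * (z - z') := by ring
        rwa [c2] at this
      refine (hpr.dvd_or_dvd c1).resolve_left fun c3 => ?_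
      apply prime_not_dvd_one hqq
      have c4 := dvd_add hz.2 (c3.mul_left z)
      have c5 : 1 - 2 * z * r + z * (2 * r) = 1 := by ring
      rwa [c5] at c4)
    (fun q hq z z' hz hz' => by
      have hqq := Nat.prime_of_mem_primeFactors hq
      have hpr : Prime (q : ℤ) := Nat.prime_iff_prime_int.1 hqq
      by_contra hd
      have c1 : ¬ (q : ℤ) ∣ 2 * z - 2 * z' := by
        intro c2
        have c3 : 2 * z - 2 * z' = 2 * (z - z') := by ring
        rw [c3] at c2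
        rcases hpr.dvd_or_dvd c2 with c4 | c4
        · apply hz.1
          have c5 : q ∣ 2 := by exact_mod_cast c4
          exact (Nat.prime_dvd_prime_iff_eq hqq Nat.prime_two).1 c5
        · exact hd c4
      exact prime_not_dvd_one hqq (hct' _ (fd_two hqq hz.2 hz'.2 c1)))
    (Or.inl fun z hz => hz.1 rfl) (n + 1)
  obtain ⟨k, hk⟩ : ∃ k : ℤ, k = 2 * z := ⟨_, rfl⟩
  rw [← hk] at hz3
  have hk2 : (2 : ℤ) ∣ k := ⟨z, hk⟩
  have hw : (Int.gcd m (1 - k * r) : ℤ) = 1 := by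
    have : Int.gcd m (1 - k * r) = 1 := by
      by_contra hne
      obtain ⟨q, hq, hqd⟩ := Nat.exists_prime_and_dvd hne
      have c1 : (q : ℤ) ∣ m := (Int.natCast_dvd_natCast.2 hqd).trans (Int.gcd_dvd_left _ _)
      have c2 : (q : ℤ) ∣ 1 - k * r := (Int.natCast_dvd_natCast.2 hqd).trans (Int.gcd_dvd_right _ _)
      by_cases hq2 : q = 2
      · subst hq2
        apply prime_not_dvd_one Nat.prime_two
        have c3 := dvd_add c2 (hk2.mul_right r)
        have c5 : 1 - k * r + k * r = 1 := by ring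
        rw [c5] at c3
        exact_mod_cast c3
      · exact (hz3 q (hPm q hq (c1.mul_right _))).1 ⟨hq2, c2⟩
    rw [this]; rfl
  -- the twisted state
  have hAb' : cr S.u S.v ≤ cr S.u p' := by rw [h.hA, e2]; exact e5
  have k1 := ad.twH h.ok hAb' k
  obtain ⟨l1, p1, x, y, adT, g1, g2, g3, g4, g5⟩ := ad.twHb (q := k) (w := 1)
    (by rw [e1]; exact hm) (by rw [e1]; exact hr) hw
  obtain ⟨T, hT⟩ : ∃ T : PSt, T = ⟨S.L, S.u, S.v + k • (S.u + l'), lat l' (p' + k • S.u)⟩ :=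
    ⟨_, rfl⟩
  have hctT : CT ⟨S.L, S.u, S.v + k • (S.u + l'), lat l' (p' + k • S.u)⟩ 1 := by
    refine ⟨one_pos, fun _ _ => ⟨one_dvd _, one_dvd _, fun _ _ => one_dvd _⟩, fun d hd => ?_⟩
    have c1 := (cont_H ad k d).1 hd
    have c2 : d ≠ 0 := by
      rintro rfl
      have := c1.1
      rw [zero_dvd_iff] at this
      linarith
    by_contra hne
    have c3 : d.natAbs ≠ 1 := by
      intro c4
      apply hne
      rw [← Int.natAbs_dvd, c4]
      exact dvd_rfl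
    obtain ⟨q, hq, hqd⟩ := Nat.exists_prime_and_dvd c3
    have c5 : (q : ℤ) ∣ d := Int.natCast_dvd.2 hqd
    have c6 := fd_mono c1 c5
    by_cases hq2 : q = 2
    · subst hq2
      exact prime_not_dvd_one Nat.prime_two (hct' _ (fd_zero c6 (by exact_mod_cast hk2)))
    · have c7 : (q : ℤ) ∣ m * b' := by
        rw [← e2]; exact c6.1.mul_left m
      exact (hz3 q (hPm q hq c7)).2 ⟨hq2, c6⟩
  have q0 : cr S.u (S.v + k • (S.u + l')) = β := by
    rw [cr_add_right, cr_smul_right, cr_add_right, cr_self, ad.h4, ← h.hA]; ring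
  obtain ⟨D, U, V, L, Pv, hD, hLX, hex⟩ := exLX (S := S) (β := β) (g := 1) h.lb k1 adT
    (by dsimp only; rw [q0, g3, e1]; linarith) hctT (by norm_num)
  dsimp only at hLX hex
  rw [one_mul] at g3 g4
  rw [q0, g3, e1, g4, g5, e4] at hLX hex
  rw [one_pow, one_mul] at hD
  have hD' : D = a' := by
    rw [← hD, ← e3, cr_add_right, cr_smul_right, cr_swap l' S.u, ad.h4]; ring
  obtain ⟨hh, a0, e0, f0, Q, hQX, r1, r2, r3, -, -, -, hQC⟩ := hLX.toQX
  have hQS : QS hh a0 e0 f0 U Q 2 := by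
    intro j t i o hX
    rw [← r1, ← r2, ← r3] at hX
    obtain ⟨c1, c2⟩ := hQC j t i o hX
    have := hex _ _ _ _ c1
    rw [c2] at this
    linarith
  -- the numbers
  have hn5 : n ^ 5 ≤ M := by
    have c1 : n ≤ 16 * J := by rw [hn]; linarith
    have c2 : n ^ 5 ≤ (16 * (J : ℤ)) ^ 5 := pow_le_pow_left₀ (by rw [hn]; linarith) c1 5
    have c3 : (16 * (J : ℤ)) ^ 5 = 2 ^ 20 * (J : ℤ) ^ 5 := by ring
    have c4 : (J : ℤ) ^ 5 * 2 ^ 20 ≤ (J : ℤ) ^ 5 * (J : ℤ) ^ 5 := by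
      apply mul_le_mul_of_nonneg_left _ (by positivity)
      calc (2 : ℤ) ^ 20 ≤ (2 ^ 10) ^ 5 := by norm_num
        _ ≤ (J : ℤ) ^ 5 := pow_le_pow_left₀ (by norm_num) hJ 5
    have c5 : 1 * (J : ℤ) ^ 10 ≤ (K0 : ℤ) * (J : ℤ) ^ 10 :=
      mul_le_mul_of_nonneg_right K0_pos (by positivity)
    have c6 := hP.KM'
    linarith [(by ring : (J : ℤ) ^ 5 * (J : ℤ) ^ 5 = (J : ℤ) ^ 10)]
  have hn0 : 16 ≤ n := by rw [hn]; linarith
  have hfin : n ^ 5 * (β + cr l' S.v) ≤ cr S.u l :=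
    le_trans (mul_le_mul_of_nonneg_right hn5 hEpos.le) hK
  have hX64 : 64 * D * (hh * e0) ^ 4 ≤ ((N ^ 6 : ℕ) : ℤ) := by
    rw [← r2, hD', ← e3]
    push_cast
    have c1 : cr l' p' * (cr S.u l) ^ 4 ≤ (N : ℤ) * (N : ℤ) ^ 4 := by
      apply mul_le_mul (by linarith) _ (by positivity) hN0.le
      exact pow_le_pow_left₀ hpe.le heN 4
    have c2 : 64 ≤ (N : ℤ) := by
      have : 64 ≤ n ^ 5 * (β + cr l' S.v) := by
        calc (64 : ℤ) ≤ 16 ^ 5 * 1 := by norm_num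
          _ ≤ n ^ 5 * (β + cr l' S.v) :=
            mul_le_mul (pow_le_pow_left₀ (by norm_num) hn0 5) (by linarith) (by norm_num)
              (by positivity)
      linarith
    have c3 : 64 * ((N : ℤ) * (N : ℤ) ^ 4) ≤ (N : ℤ) * ((N : ℤ) * (N : ℤ) ^ 4) :=
      mul_le_mul_of_nonneg_right c2 (by positivity)
    linarith [(by ring : (N : ℤ) * ((N : ℤ) * (N : ℤ) ^ 4) = N ^ 6),
      (by ring : 64 * cr l' p' * (cr S.u l) ^ 4 = 64 * (cr l' p' * (cr S.u l) ^ 4))]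
  have hdir : 8 * ((J : ℤ) + 1) * (hh * a0) ≤ hh * e0 := by
    rw [← r1, ← r2, ← hn]
    have c1 : n * β ≤ n ^ 5 * (β + cr l' S.v) := by
      have c2 : n * 1 ≤ n * n ^ 4 :=
        mul_le_mul_of_nonneg_left (one_le_pow₀ (by linarith)) (by linarith)
      have c3 : n ≤ n ^ 5 := by linarith [(by ring : n * n ^ 4 = n ^ 5)]
      exact mul_le_mul c3 (by linarith) e6.le (by positivity)
    linarith
  obtain ⟨i2, k2, t1, t2, -, t4⟩ := hQX.dir (J := J) (X := N ^ 6) (by exact_mod_cast hJ1) hP.cap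
    hX64 hQS hdir
  rw [← r1, ← r2, ← r3, ← hn] at t4
  rw [← hn] at hi' h1 t2
  have hf : cr S.u p1 = x * cr S.u l + y * cr S.u p := by
    rw [g1, cr_add_right, cr_smul_right, cr_smul_right]
  refine arith (A := β) (E := β + cr l' S.v) (n := n) (J := J) (m := m) (r := r) (e := cr S.u l)
    (f := cr S.u p) (k := k) (x := x) (rk := x * m + y * r) (fk := cr S.u p1) (i1 := i1) (k0 := k0)
    (i2 := i2) (k2 := k2) e6 (by linarith) hn hJ1 hm2 hr2 ?_ ?_ ?_ ?_ hi hi' t1 t2 h0 h1 t4 hfin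
  · rw [hf]; linear_combination x * hm2 + y * hr2
  · linear_combination r * g2
  · rw [hk]; linarith
  · rw [hk]
    have : z < n + 1 + J := lt_of_lt_of_le hz2 (by push_cast at hcard; linarith)
    linarith

end Pool.Agent.H4G
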