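import Pool.Agent.H4G.Arith.Node
import Pool.Agent.H4G.Arith.SL

/-!
# Row T6 (S2): an exit with `c = A` from a state with `A = b = β`, node, mirror (helper19)
-/

set_option autoImplicit false

namespace Pool.Agent.H4G

/-- a state with `cr u v = (1 + i) A` and `gcd (L' × u) = A` is equivalent to a state with
`A = b = A`, the areas being `a' + i A` (left) and `a₁` (right) -/
theorem PSt.Ok.s2 {T' : PSt} (hok : T'.Ok) {A a1 a' i : ℤ} (h1 : cr T'.u T'.v = A + i * A)
    (h2 : IsC T'.L' T'.u A) (h3 : IsArea T'.L a1) (h4 : IsArea T'.L' a') :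
    ∃ T, SEq T' T ∧ cr T.u T.v = A ∧ IsC T.L T.v A ∧ IsArea T.L (a' + i * A) ∧
      IsArea T.L' a1 := by
  obtain ⟨L, u, v, L'⟩ := T'
  dsimp only at h1 h2 h3 h4
  obtain ⟨v1, L1, θ, k1, k2, k3, k4, k5, k6, k7, k8⟩ := SEq.node _ rfl hok h4 h2
  have hA := h2.1
  obtain ⟨m, hm⟩ := k3
  rw [h1, hm] at k4
  have hcr : cr u v1 = A * (1 + i - m) := by rw [k4]; ring
  have hm1 : 1 + i - m = 1 := by
    rw [hcr] at k5 k6
    have g1 : 0 < 1 + i - m := (mul_pos_iff_of_pos_left hA).1 k5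
    have g2 : 1 + i - m ≤ 1 := by
      have : A * (1 + i - m) ≤ A * 1 := by rw [mul_one]; exact k6
      exact le_of_mul_le_mul_left this hA
    omega
  have hmi : m = i := by omega
  subst hmi
  rw [hm1, mul_one] at hcr
  have s2 := SEq.mirror k1.ok'
  refine ⟨_, k1.trans s2, ?_, ?_, ?_, h3⟩
  · rw [cr_neg_right, cr_swap v1 u, neg_neg]
    exact hcr
  · exact k8.neg
  · rw [hm, mul_comm] at k7
    exact k7

end Pool.Agent.H4G
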