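import Pool.Agent.H4G.Cone.T0k
import Pool.Agent.H4G.Cone.Core
import Pool.Agent.H4G.Cone.E1
import Pool.Agent.H4G.Cone.E23
import Pool.Agent.H4G.Cone.E5
import Pool.Agent.H4G.Cone.T1
import Pool.Agent.H4G.Cone.T2
import Pool.Agent.H4G.Cone.T3
import Pool.Agent.H4G.Cone.T4
import Pool.Agent.H4G.Cone.T6

/-!
# The reduced data `QX` of a state of the frame `FM` with content `1` (helper96)
-/

set_option autoImplicit false

namespace Pool.Agent.H4G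

theorem gcv_pv_u {S : PSt} {l p l' p' : Z2} (ad : Ad S l p l' p') :
    (gcv (pv l' p' S.u) : ℤ) = cr S.u p' := by
  have h6 := ad.h6
  unfold gcv pv
  dsimp only
  rw [cr_swap l' S.u, ad.h4, cr_swap p' S.u, neg_zero, Int.gcd_zero_left]
  omega

/-- the `k`-fold exit vector in reduced data -/
theorem xwk_eq {U V L P Q : Z2} {a0 e0 f0 : ℤ} (hV : V = a0 • Q) (hL : L = e0 • Q)
    (hP : P = U + f0 • Q) (j t i o k : ℤ) :
    XWk U V L P j (t - i * j) i o k = QWk a0 e0 f0 U Q j t i o k := by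
  subst hV hL hP
  unfold XWk QWk
  module

/-- THE REDUCED DATA of a state of the frame with content `1` -/
theorem FM.qx {S : PSt} {β b' a' : ℤ} (h : FM S β b' a') {l p l' p' : Z2}
    (ad : Ad S l p l' p') (hct : CT S 1) : ∃ (g a0 e0 f0 : ℤ) (Q : Z2),
      QX g a0 e0 f0 a' (pv l' p' S.u) Q ∧ β = g * a0 ∧ cr S.u l = g * e0 ∧ cr S.u p = g * f0 ∧
      (gcv (pv l' p' S.u) : ℤ) = b' ∧
      QS g a0 e0 f0 (pv l' p' S.u) Q β ∧ QSk g a0 e0 f0 (pv l' p' S.u) Q β ∧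
      ∀ j t i o : ℤ, QC β (cr S.u l) (cr S.u p) t i o → ∃ T' : PSt, SEq S T' ∧
        cr T'.u T'.v = β + i * β ∧ IsArea T'.L (cr S.u l - i * β) ∧ IsArea T'.L' a' ∧
        IsC T'.L' T'.u (gcv (QW a0 e0 f0 (pv l' p' S.u) Q j t i o)) := by
  obtain ⟨n1, n2, n3, n4, n5, n6⟩ := h.num ad
  have hAp : cr S.u S.v ≤ cr p S.v := by rw [h.hA, n1]
  have hLX := ad.lx1 hAp hct
  rw [h.hA, n1, n3, n4] at hLX
  obtain ⟨g, a0, e0, f0, Q, q, q1, q2, q3, q4, q5, q6, q7⟩ := hLX.toQX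
  have hgU : (gcv (pv l' p' S.u) : ℤ) = b' := by rw [gcv_pv_u ad, n2]
  have hXF : ∀ j t i : ℤ, XF β β (cr S.u l) (cr S.u p) (cr S.u l) j (t - i * j) i =
      t * cr S.u l + i * cr S.u p := by
    intro j t i
    unfold XF
    ring
  have key : ∀ j t i o k : ℤ, QCk β (cr S.u l) (cr S.u p) t i o k → ∃ T' : PSt, SEq S T' ∧
        cr T'.u T'.v = β + k * (i * β) ∧ IsArea T'.L (cr S.u l - k * (i * β)) ∧
        IsArea T'.L' a' ∧
        IsC T'.L' T'.u (gcv (QWk a0 e0 f0 (pv l' p' S.u) Q j t i o k)) := by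
    intro j t i o k hq
    obtain ⟨T', t1, t2, t3, t4, t5, t6, t7⟩ := exLXk h.ok ad hAp (j := j) (t := t - i * j)
      (i := i) (o := o) (k := k) hq.o1 hq.i0
      (by
        have := hq.cop
        have h1 : t - i * j = t + i * (-j) := by ring
        rw [h1]
        exact (IsCoprime.add_mul_left_left_iff).2 this)
      hq.k1 (by rw [h.hA, n1, n4, hXF]; exact hq.lo) (by rw [h.hA, n1, n4, hXF]; exact hq.hi)
    rw [h.hA, n1] at t4
    rw [n1, n4] at t6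
    rw [xwk_eq q4 q5 q6] at t7
    exact ⟨T', t1, t4, t6, by rw [t3]; exact h.ha', t7⟩
  have hexits : ∀ j t i o : ℤ, QC β (cr S.u l) (cr S.u p) t i o → ∃ T' : PSt, SEq S T' ∧
        cr T'.u T'.v = β + i * β ∧ IsArea T'.L (cr S.u l - i * β) ∧ IsArea T'.L' a' ∧
        IsC T'.L' T'.u (gcv (QW a0 e0 f0 (pv l' p' S.u) Q j t i o)) := by
    intro j t i o hq
    obtain ⟨T', t1, t2, t3, t4, t5⟩ := key j t i o 1 ⟨hq.o1, hq.i0, hq.cop, le_rfl,
      by rw [one_mul]; exact hq.lo, hq.hi⟩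
    rw [one_mul] at t2 t3
    have e : QWk a0 e0 f0 (pv l' p' S.u) Q j t i o 1 = QW a0 e0 f0 (pv l' p' S.u) Q j t i o := by
      unfold QWk QW
      module
    rw [e] at t5
    exact ⟨T', t1, t2, t3, t4, t5⟩
  refine ⟨g, a0, e0, f0, Q, q, q1, q2, q3, hgU, ?_, ?_, hexits⟩
  · intro j t i o hq
    rw [← q1, ← q2, ← q3] at hq
    obtain ⟨T', t1, t2, t3, t4, t5⟩ := hexits j t i o hq
    exact h.le' t1 t5
  · intro j t i o k hq
    rw [← q1, ← q2, ← q3] at hq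
    obtain ⟨T', t1, t2, t3, t4, t5⟩ := key j t i o k hq
    exact h.le' t1 t5

/-- the exits with `gcd = β` lead to states with `A = b = β` -/
theorem FM.exitS2 {S : PSt} {β b' a' : ℤ} (h : FM S β b' a') {l p l' p' : Z2}
    {a0 e0 f0 : ℤ} {Q : Z2} {j t i o : ℤ}
    (hex : ∀ j t i o : ℤ, QC β (cr S.u l) (cr S.u p) t i o → ∃ T' : PSt, SEq S T' ∧
        cr T'.u T'.v = β + i * β ∧ IsArea T'.L (cr S.u l - i * β) ∧ IsArea T'.L' a' ∧
        IsC T'.L' T'.u (gcv (QW a0 e0 f0 (pv l' p' S.u) Q j t i o)))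
    (hq : QC β (cr S.u l) (cr S.u p) t i o)
    (hW : (gcv (QW a0 e0 f0 (pv l' p' S.u) Q j t i o) : ℤ) = β) :
    ∃ (T : PSt) (b1 : ℤ), SEq S T ∧ FM T β b1 (cr S.u l - i * β) ∧
      IsArea T.L (a' + i * β) := by
  obtain ⟨T', t1, t2, t3, t4, t5⟩ := hex j t i o hq
  rw [hW] at t5
  obtain ⟨T, s1, s2, s3, s4, s5⟩ := t1.ok'.s2 t2 t5 t3 t4
  have hST := t1.trans s1
  have hlb : ∀ (T2 : PSt) (c : ℤ), SEq T T2 → IsC T2.L T2.v c → β ≤ c :=
    fun T2 c k1 k2 => h.lb T2 c (hST.trans k1) k2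
  obtain ⟨T3, b1, r1, r2⟩ := exists_FM hST.ok' (hST.full.1 h.full) s2 s3 s5 hlb
  refine ⟨T3, b1, hST.trans r1, r2, ?_⟩
  -- the left area of `T3`
  obtain ⟨l3, p3, l3', p3', ad3⟩ := exists_Ad r2.ok
  have v1 := r1.vol s4 s5 ad3.isArea r2.ha'
  rw [s2, r2.hA] at v1
  have : cr p3 l3 = a' + i * β := by linarith
  rw [← this]
  exact ad3.isArea

end Pool.Agent.H4G
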