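import Pool.Agent.H4G.Cone.T10
import Pool.Agent.H4G.Ctwo.Main
import Pool.Agent.H4G.Arith.LMove
import Pool.Agent.H4G.Arith.ZNorm

/-!
# THE REDUCTION for all large `N`, chain form (helper96)
-/

set_option autoImplicit false

namespace Pool.Agent.H4G

open MatrixGroups

/-- every chain of large volume `N` leads to a state with `A = 1`, `d = 1` -/
theorem redK_all : ∃ N0 : ℕ, ∀ N : ℕ, N0 ≤ N → RedK N := by
  obtain ⟨N0, hN0⟩ := red_large_all
  refine ⟨N0, fun N hN c hc hs hv => ?_⟩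
  have hrep := isRep_stOf hc
  have hfull : (stOf c).Full := by
    unfold PSt.Full
    rw [← hrep.span]; exact hs
  obtain ⟨T, b, b', k1, k2⟩ := exists_ext ⟨c, hrep⟩
  have k1f := k1.full
  obtain ⟨d, d', m1, m2, m3⟩ := k1
  have k1 : SEq (stOf c) T := ⟨d, d', m1, m2, m3⟩
  obtain ⟨a, a', n1, n2, n3, n4⟩ := m2.areas
  have e2 : vol d' = N := by rw [m3.vol_eq, (hrep.ceq m1).vol_eq, hv]
  rw [e2] at n4
  have hb : b = 1 := hN0 N hN T b b' a a' (k1f.1 hfull) k2 n1 n2 n4.symm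
  subst hb
  have hA := k2.one
  obtain ⟨g, s1, s2, s3⟩ := exists_KS_all k2.ok hA
  have i1 := n1.act g
  have i2 := k2.hb.act g
  rw [s3] at i2
  obtain ⟨z, hz⟩ := IsC.exists_z i1 i2
  rw [hz] at s1
  exact ⟨a, z, a', _, k1.trans s1, n1.1, n2.act g, by rw [← hA]; exact n4.symm⟩

end Pool.Agent.H4G
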