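import Pool.Agent.H4G.Asym.R8
import Pool.Agent.H4G.Cone.Defs

/-!
# Row T0k: the `k`-fold exits (helper5, after helper65)

The same vector `x` can be used `k` times as long as `k (x × v) < u × x ≤ y × x`.
-/

set_option autoImplicit false

namespace Pool.Agent.H4G

/-- the move `u → u + v + x`, `k` times -/
theorem SEq.kPlus {x y u v : Z2} {L' : AddSubgroup Z2} (hok : PSt.Ok ⟨lat x y, u, v, L'⟩)
    (hA : 0 < cr u v) (hc : 0 ≤ cr x v) (h2 : cr u x ≤ cr y x) :
    ∀ k : ℕ, (k : ℤ) * cr x v < cr u x →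
      SEq ⟨lat x y, u, v, L'⟩ ⟨lat x (y + (k : ℤ) • v), u + (k : ℤ) • (v + x), v, L'⟩ := by
  intro k
  induction k with
  | zero =>
    intro _
    have e1 : y + ((0 : ℕ) : ℤ) • v = y := by simp
    have e2 : u + ((0 : ℕ) : ℤ) • (v + x) = u := by simp
    rw [e1, e2]
    exact hok.seq
  | succ k ih =>
    intro hk
    push_cast at hk
    have hk1 : (k : ℤ) * cr x v < cr u x := by linarith
    have h1 := ih hk1
    have hk0 : (0 : ℤ) ≤ (k : ℤ) * cr x v := mul_nonneg (by positivity) hc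
    have e1 : cr (u + (k : ℤ) • (v + x)) x = cr u x - k * cr x v := by
      rw [cr_add_left, cr_smul_left, cr_add_left, cr_self, cr_swap v x]; ring
    have e2 : cr (y + (k : ℤ) • v) x = cr y x - k * cr x v := by
      rw [cr_add_left, cr_smul_left, cr_swap v x]; ring
    have e3 : cr (u + (k : ℤ) • (v + x)) v = cr u v + k * cr x v := by
      rw [cr_add_left, cr_smul_left, cr_add_left, cr_self]; ring
    have h3 := SEq.mPlus h1.ok' (by rw [e1]; linarith) (by rw [e1, e2]; linarith)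
      (by rw [e3]; linarith) (by rw [e1]; linarith)
    have e4 : y + (k : ℤ) • v + v = y + ((k + 1 : ℕ) : ℤ) • v := by push_cast; module
    have e5 : u + (k : ℤ) • (v + x) + v + x = u + ((k + 1 : ℕ) : ℤ) • (v + x) := by
      push_cast; module
    rw [e4, e5] at h3
    exact h1.trans h3

/-- the move `u → u - v - x`, `k` times -/
theorem SEq.kMinus {x y u v : Z2} {L' : AddSubgroup Z2} (hok : PSt.Ok ⟨lat x y, u, v, L'⟩)
    (hA : 0 < cr u v) (hc : cr x v ≤ 0) (h2 : cr u x ≤ cr y x) :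
    ∀ k : ℕ, (k : ℤ) * (-cr x v) < cr u x →
      SEq ⟨lat x y, u, v, L'⟩ ⟨lat x (y - (k : ℤ) • v), u - (k : ℤ) • (v + x), v, L'⟩ := by
  intro k
  induction k with
  | zero =>
    intro _
    have e1 : y - ((0 : ℕ) : ℤ) • v = y := by simp
    have e2 : u - ((0 : ℕ) : ℤ) • (v + x) = u := by simp
    rw [e1, e2]
    exact hok.seq
  | succ k ih =>
    intro hk
    push_cast at hk
    have hk1 : (k : ℤ) * (-cr x v) < cr u x := by linarith
    have h1 := ih hk1
    have hk0 : (0 : ℤ) ≤ (k : ℤ) * (-cr x v) := mul_nonneg (by positivity) (by linarith)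
    have e1 : cr (u - (k : ℤ) • (v + x)) x = cr u x - k * (-cr x v) := by
      rw [cr_sub_left, cr_smul_left, cr_add_left, cr_self, cr_swap v x]; ring
    have e2 : cr (y - (k : ℤ) • v) x = cr y x - k * (-cr x v) := by
      rw [cr_sub_left, cr_smul_left, cr_swap v x]
    have e3 : cr (u - (k : ℤ) • (v + x)) v = cr u v + k * (-cr x v) := by
      rw [cr_sub_left, cr_smul_left, cr_add_left, cr_self]; ring
    have h3 := SEq.mMinus h1.ok' (by rw [e1]; linarith) (by rw [e1, e2]; linarith)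
      (by rw [e1]; linarith) (by rw [e3]; linarith)
    have e4 : y - (k : ℤ) • v - v = y - ((k + 1 : ℕ) : ℤ) • v := by push_cast; module
    have e5 : u - (k : ℤ) • (v + x) - v - x = u - ((k + 1 : ℕ) : ℤ) • (v + x) := by
      push_cast; module
    rw [e4, e5] at h3
    exact h1.trans h3

/-- the vector of a `k`-fold exit; `k = 1` is `XW` -/
def XWk (U V L P : Z2) (j t i o k : ℤ) : Z2 :=
  U - j • (V + L) + k • (o • V + t • L + i • (P - j • V))

theorem XWk_one (U V L P : Z2) (j t i o : ℤ) : XWk U V L P j t i o 1 = XW U V L P j t i o := by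
  rw [XWk, XW]; module

/-- THE `k`-FOLD EXIT, from `V_j T` -/
theorem Ad.exitK {T : PSt} {l p l' p' : Z2} (ad : Ad T l p l' p') (hok : T.Ok)
    (hA : cr T.u T.v ≤ cr p T.v) {j t i o k : ℤ} (ho : o = 1 ∨ o = -1) (hi : 0 ≤ i)
    (hco : IsCoprime t i) (hk : 1 ≤ k)
    (h1 : k * (i * cr p T.v) < o * XF (cr T.u T.v) (cr p T.v) (cr T.u l) (cr T.u p) (cr p l) j t i)
    (h2 : o * XF (cr T.u T.v) (cr p T.v) (cr T.u l) (cr T.u p) (cr p l) j t i ≤ cr p l) :
    ∃ T' : PSt, SEq T T' ∧ T'.v = T.v ∧ T'.L' = T.L' ∧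
      T'.u = T.u - j • (T.v + l) + k • (o • T.v + (t • l + i • (p - j • T.v))) ∧
      cr T'.u T'.v = cr T.u T.v + k * (i * cr p T.v) ∧ IsC T'.L T'.v (cr p T.v) ∧
      IsArea T'.L (cr p l - k * (i * cr p T.v)) := by
  have k1 := ad.twV hok hA j
  have hok1 := k1.ok'
  set F := XF (cr T.u T.v) (cr p T.v) (cr T.u l) (cr T.u p) (cr p l) j t i with hF
  set x0 : Z2 := t • l + i • (p - j • T.v) with hx0
  have q1 : cr (T.u - j • (T.v + l)) x0 = F := by
    rw [hx0, hF, XF]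
    simp only [cr_add_left, cr_add_right, cr_smul_left, cr_smul_right, cr_self, cr_sub_left,
      cr_sub_right, ad.h1, cr_swap T.v l, cr_swap T.v p, cr_swap l p]
    ring
  have q2 : cr x0 T.v = i * cr p T.v := by
    rw [hx0]
    simp only [cr_add_left, cr_add_right, cr_smul_left, cr_smul_right, cr_self, cr_sub_left,
      cr_sub_right, ad.h1]
    ring
  have q3 : cr (T.u - j • (T.v + l)) T.v = cr T.u T.v := by
    simp only [cr_add_left, cr_smul_left, cr_self, cr_sub_left, ad.h1]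
    ring
  have q4 : cr (p - j • T.v) l = cr p l := by
    rw [cr_sub_left, cr_smul_left, cr_swap T.v l, ad.h1]; ring
  obtain ⟨y, hy1, hy2⟩ := exists_basis (l := l) (p := p - j • T.v) hx0 hco
  rw [q4] at hy2
  have hb0 := ad.h3
  have hA0 := ad.hA
  have hib : 0 ≤ i * cr p T.v := mul_nonneg hi hb0.le
  have hkib : i * cr p T.v ≤ k * (i * cr p T.v) := le_mul_of_one_le_left hib hk
  -- the gap and the area of `V_j T`
  have hIC : IsC (lat x0 y) T.v (cr p T.v) := by
    rw [hy1]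
    have : cr (p - j • T.v) T.v = cr p T.v := by rw [cr_sub_left, cr_smul_left, cr_self]; ring
    rw [← this]
    exact isC_of_par ad.h1 (by rw [this]; exact hb0)
  obtain ⟨n, rfl⟩ : ∃ n : ℕ, k = (n : ℤ) := ⟨k.toNat, by omega⟩
  -- the gap does not change
  have hgap : ∀ c : ℤ, IsC (lat x0 (y + c • T.v)) T.v (cr p T.v) := by
    intro c
    obtain ⟨g1, g2, g3⟩ := hIC
    have hmx : x0 ∈ lat x0 (y + c • T.v) := mem_lat.2 ⟨1, 0, by module⟩
    refine ⟨g1, ?_, ?_⟩
    · intro w hw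
      obtain ⟨α, β, rfl⟩ := mem_lat.1 hw
      have := g2 (α • x0 + β • y) (mem_lat.2 ⟨α, β, rfl⟩)
      have e : cr T.v (α • x0 + β • (y + c • T.v)) = cr T.v (α • x0 + β • y) := by
        simp only [cr_add_right, cr_smul_right, cr_self]; ring
      rw [e]; exact this
    · obtain ⟨w, hw, e⟩ := g3
      obtain ⟨α, β, rfl⟩ := mem_lat.1 hw
      refine ⟨α • x0 + β • (y + c • T.v), mem_lat.2 ⟨α, β, rfl⟩, ?_⟩
      rw [← e]
      simp only [cr_add_right, cr_smul_right, cr_self]; ring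
  rcases ho with rfl | rfl
  · rw [one_mul] at h1 h2
    have hok2 : PSt.Ok ⟨lat x0 y, T.u - j • (T.v + l), T.v, T.L'⟩ := by rw [hy1]; exact hok1
    have m1 := SEq.kPlus hok2 (by rw [q3]; exact hA0) (by rw [q2]; exact hib)
      (by rw [q1, hy2]; exact h2) n (by rw [q1, q2]; linarith)
    rw [hy1] at m1
    refine ⟨_, k1.trans m1, rfl, rfl, ?_, ?_, hgap n, ?_⟩
    · dsimp only
      rw [one_smul]
    · dsimp only
      rw [cr_add_left, q3, cr_smul_left, cr_add_left, cr_self, q2]; ring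
    · have e : cr (y + (n : ℤ) • T.v) x0 = cr p l - (n : ℤ) * (i * cr p T.v) := by
        rw [cr_add_left, cr_smul_left, hy2, cr_swap T.v x0, q2]; ring
      rw [← e]
      exact ⟨by rw [e]; linarith, x0, _, rfl, rfl⟩
  · have hy3 : lat (-x0) (-y) = lat l (p - j • T.v) := by rw [lat_neg_left, lat_neg_right, hy1]
    have hok2 : PSt.Ok ⟨lat (-x0) (-y), T.u - j • (T.v + l), T.v, T.L'⟩ := by
      rw [hy3]; exact hok1
    have m1 := SEq.kMinus hok2 (by rw [q3]; exact hA0) (by rw [cr_neg_left, q2]; linarith)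
      (by rw [cr_neg_right, q1, cr_neg_right, cr_neg_left, hy2]; linarith) n (by
        rw [cr_neg_left, neg_neg, cr_neg_right, q1, q2]; linarith)
    rw [hy3] at m1
    have e0 : -y - (n : ℤ) • T.v = -(y + (n : ℤ) • T.v) := by module
    rw [e0, lat_neg_left, lat_neg_right] at m1
    refine ⟨_, k1.trans m1, rfl, rfl, ?_, ?_, hgap n, ?_⟩
    · dsimp only
      module
    · dsimp only
      rw [cr_sub_left, q3, cr_smul_left, cr_add_left, cr_self, cr_neg_left, q2]; ring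
    · have e : cr (y + (n : ℤ) • T.v) x0 = cr p l - (n : ℤ) * (i * cr p T.v) := by
        rw [cr_add_left, cr_smul_left, hy2, cr_swap T.v x0, q2]; ring
      rw [← e]
      exact ⟨by rw [e]; linarith, x0, _, rfl, rfl⟩

/-- the vector of the products of `x` with the basis `l', p'` -/
def pv (l' p' x : Z2) : Z2 := (cr l' x, cr p' x)

/-- `LX` for the content one, explicit vectors -/
theorem Ad.lx1 {T : PSt} {l p l' p' : Z2} (ad : Ad T l p l' p')
    (hA : cr T.u T.v ≤ cr p T.v) (hg : CT T 1) :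
    LX (cr T.u T.v) (cr p T.v) (cr T.u l) (cr T.u p) (cr p l) (cr l' p')
      (pv l' p' T.u) (pv l' p' T.v) (pv l' p' l) (pv l' p' p) := by
  have hD : cr l' p' = 1 ^ 2 * cr l' p' := by ring
  have h1 : ∀ x : Z2, cr l' x = 1 * (pv l' p' x).1 := fun x => by simp [pv]
  have h2 : ∀ x : Z2, cr p' x = 1 * (pv l' p' x).2 := fun x => by simp [pv]
  have hc : ∀ x y : Z2, cr (pv l' p' x) (pv l' p' y) = cr l' p' * cr x y := fun x y =>
    cr_prod one_pos hD (h1 x) (h2 x) (h1 y) (h2 y)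
  refine ⟨ad.hA, hA, ad.h2, ad.pos', ad.area, hc _ _, hc _ _, hc _ _, hc _ _, hc _ _, ?_, ?_⟩
  · rw [hc, ad.h1, mul_zero]
  · intro d dU dV dL dP
    apply hg.max
    rw [Cont.iff ad]
    refine ⟨?_, dV.1, dV.2, dL.1, dL.2, dP.1, dP.2⟩
    rw [cr_swap T.u p']
    exact (dvd_neg).2 dU.2

/-- T0k: the `k`-fold exits of a state with content `1`, with all their numbers -/
theorem exLXk {T : PSt} {l p l' p' : Z2} (hok : T.Ok) (ad : Ad T l p l' p')
    (hA : cr T.u T.v ≤ cr p T.v) {j t i o k : ℤ} (ho : o = 1 ∨ o = -1) (hi : 0 ≤ i)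
    (hco : IsCoprime t i) (hk : 1 ≤ k)
    (h1 : k * (i * cr p T.v) < o * XF (cr T.u T.v) (cr p T.v) (cr T.u l) (cr T.u p) (cr p l) j t i)
    (h2 : o * XF (cr T.u T.v) (cr p T.v) (cr T.u l) (cr T.u p) (cr p l) j t i ≤ cr p l) :
    ∃ T' : PSt, SEq T T' ∧ T'.v = T.v ∧ T'.L' = T.L' ∧
      cr T'.u T'.v = cr T.u T.v + k * (i * cr p T.v) ∧ IsC T'.L T'.v (cr p T.v) ∧
      IsArea T'.L (cr p l - k * (i * cr p T.v)) ∧
      IsC T'.L' T'.u (gcv (XWk (pv l' p' T.u) (pv l' p' T.v) (pv l' p' l) (pv l' p' p) j t i o k)) := by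
  obtain ⟨T', m1, m2, m3, m4, m5, m6, m7⟩ := ad.exitK hok hA ho hi hco hk h1 h2
  refine ⟨T', m1, m2, m3, m5, m6, m7, ?_⟩
  have hW : pv l' p' T'.u =
      XWk (pv l' p' T.u) (pv l' p' T.v) (pv l' p' l) (pv l' p' p) j t i o k := by
    rw [m4, XWk]
    ext
    · simp only [pv, cr_add_right, cr_smul_right, cr_sub_right, Prod.fst_add,
        Prod.fst_sub, Prod.smul_fst, smul_eq_mul]
      try ring
    · simp only [pv, cr_add_right, cr_smul_right, cr_sub_right, Prod.snd_add,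
        Prod.snd_sub, Prod.smul_snd, smul_eq_mul]
      try ring
  rw [← hW]
  have hib : 0 ≤ k * (i * cr p T.v) :=
    mul_nonneg (by omega) (mul_nonneg hi ad.h3.le)
  have hne : cr T'.u T.v ≠ 0 := by
    rw [← m2, m5]
    have := ad.hA
    omega
  have hne2 : cr T'.u l' ≠ 0 ∨ cr T'.u p' ≠ 0 := by
    by_contra hn
    push Not at hn
    have h := plucker l' p' T'.u T.v
    rw [cr_swap l' T'.u, cr_swap p' T'.u, hn.1, hn.2] at h
    simp only [neg_zero, zero_mul, sub_zero, mul_zero, add_zero] at h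
    rcases mul_eq_zero.1 h with h | h
    · exact ad.pos'.ne' h
    · exact hne h
  have hC := isC_lat hne2
  rw [← ad.hL', ← m3] at hC
  have e : (Int.gcd (cr T'.u l') (cr T'.u p') : ℤ) = gcv (pv l' p' T'.u) := by
    rw [cr_swap T'.u l', cr_swap T'.u p', Int.neg_gcd, Int.gcd_neg, gcv, pv]
  rwa [e] at hC

/-- the bound: all gaps of the class are at least `β` -/
theorem exLXk_le {S T : PSt} {β : ℤ} {l p l' p' : Z2}
    (lb : ∀ (T : PSt) (c : ℤ), SEq S T → IsC T.L T.v c → β ≤ c) (hST : SEq S T)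
    (ad : Ad T l p l' p') (hA : cr T.u T.v ≤ cr p T.v) {j t i o k : ℤ} (ho : o = 1 ∨ o = -1)
    (hi : 0 ≤ i) (hco : IsCoprime t i) (hk : 1 ≤ k)
    (h1 : k * (i * cr p T.v) < o * XF (cr T.u T.v) (cr p T.v) (cr T.u l) (cr T.u p) (cr p l) j t i)
    (h2 : o * XF (cr T.u T.v) (cr p T.v) (cr T.u l) (cr T.u p) (cr p l) j t i ≤ cr p l) :
    β ≤ gcv (XWk (pv l' p' T.u) (pv l' p' T.v) (pv l' p' l) (pv l' p' p) j t i o k) := by
  obtain ⟨T', m1, -, -, -, -, -, m7⟩ := exLXk hST.ok' ad hA ho hi hco hk h1 h2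
  have m2 := hST.trans m1
  exact lb _ _ (m2.trans (SEq.mirror m2.ok')) m7.neg

end Pool.Agent.H4G
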