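import Pool.Agent.H4G.Cone.T7

/-!
# THE REDUCTION to `b = 1` for all large `N` (helper96)
-/

set_option autoImplicit false

namespace Pool.Agent.H4G

/-- the case `A = b = β ≥ 2` is impossible -/
theorem caseB_all {N M J : ℕ} (hP : Par N M J) {S : PSt} {b b' a' : ℤ} (h : Ext S b b')
    (hF : S.Full) {l p l' p' : Z2} (ad : Ad S l p l' p')
    (hv : cr p l + cr S.u S.v + cr l' p' = N) (hA : cr S.u S.v = b) (h2 : 2 ≤ b)
    (ha' : IsArea S.L' a') : False := by
  obtain ⟨T, c, hST, hFM⟩ := exists_FM h.ok hF hA h.hb ha' h.min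
  obtain ⟨l1, p1, l1', p1', ad1⟩ := exists_Ad hFM.ok
  have hv1 : cr p1 l1 + cr T.u T.v + cr l1' p1' = N := by
    rw [← hv]; exact hST.vol ad.isArea ad.isArea' ad1.isArea ad1.isArea'
  exact hFM.false hP ad1 hv1 h2

/-- THE REDUCTION for all large `N` -/
theorem red_large_all : ∃ N0 : ℕ, ∀ N : ℕ, N0 ≤ N → ∀ (S : PSt) (b b' a a' : ℤ), S.Full →
    Ext S b b' → IsArea S.L a → IsArea S.L' a' → a + cr S.u S.v + a' = N → b = 1 := by
  obtain ⟨N0, hN0⟩ := exists_par
  refine ⟨N0, fun N hN S b b' a a' hF h ha ha' hv => ?_⟩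
  obtain ⟨M, J, hP⟩ := hN0 N hN
  obtain ⟨l, p, l', p', ad⟩ := exists_Ad h.ok
  have e1 : cr p l = a := ad.isArea.unique ha
  have e2 : cr l' p' = a' := ad.isArea'.unique ha'
  by_contra hb
  have hb0 := h.bpos
  have h2 : 2 ≤ b := by omega
  rcases lt_or_eq_of_le h.hA with hA | hA
  · -- `A < β`
    obtain ⟨T, c, c', hST, hPM⟩ := exists_PM h hA
    obtain ⟨l1, p1, l1', p1', ad1⟩ := exists_Ad hPM.ok
    have hFT := hST.full.1 hF
    have hvv : cr p1 l1 + cr T.u T.v + cr l1' p1' = N := by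
      rw [← hv, ← e1, ← e2]; exact hST.vol ad.isArea ad.isArea' ad1.isArea ad1.isArea'
    rcases le_total (cr l1' T.v) (cr T.u l1) with hee | hee
    · exact caseA hP hPM hFT ad1 hvv hee
    · have ad2 := ad1.mirror
      have hPM2 := hPM.mirror
      have hF2 : PSt.Full ⟨T.L', T.v, -T.u, T.L⟩ :=
        (SEq.mirror (L := T.L) (L' := T.L') (u := T.u) (v := T.v) hPM.ok).full.1 hFT
      refine caseA hP hPM2 hF2 ad2 ?_ ?_
      · have q1 : cr p1' (-l1') = cr l1' p1' := by rw [cr_neg_right, cr_swap p1' l1', neg_neg]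
        have q2 : cr T.v (-T.u) = cr T.u T.v := by rw [cr_neg_right, cr_swap T.v T.u, neg_neg]
        have q3 : cr l1 (-p1) = cr p1 l1 := by rw [cr_neg_right, cr_swap l1 p1, neg_neg]
        show cr p1' (-l1') + cr T.v (-T.u) + cr l1 (-p1) = N
        rw [q1, q2, q3]
        linarith
      · have q1 : cr l1 (-T.u) = cr T.u l1 := by rw [cr_neg_right, cr_swap l1 T.u, neg_neg]
        have q2 : cr T.v (-l1') = cr l1' T.v := by rw [cr_neg_right, cr_swap T.v l1', neg_neg]
        show cr l1 (-T.u) ≤ cr T.v (-l1')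
        rw [q1, q2]
        exact hee
  · exact caseB_all hP h hF ad (by rw [e1, e2]; exact hv) hA h2 ha'

end Pool.Agent.H4G
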