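import Pool.Agent.H4G.Cone.T1H
import Pool.Agent.H4G.Asym.R14

/-!
# Row T3, with the rigidity and the size of `b'` as hypotheses (helper46)
-/

set_option autoImplicit false

namespace Pool.Agent.H4G

/-- T3, the second half -/
theorem num_small2 {M N β e e' a a' b' : ℤ} (hM : 2 ^ 20 ≤ M) (hMN : M ^ 30 ≤ N)
    (hN : N = a + β + a') (hβ : 0 < β) (ha : a = e) (he' : 0 < e')
    (r' : a' * β = e' * b') (hb : β ≤ b') (hR : β * β * b' ≤ 4 * (β + e) * (β + e'))
    (hs : β + e' ≤ M ^ 5 * β) : M ^ 9 * β ≤ e := by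
  by_contra hcon
  push Not at hcon
  have hM0 : 0 < M := by linarith [show (0 : ℤ) < 2 ^ 20 by norm_num]
  have hM1 : (1048576 : ℤ) ≤ M := by linarith [show (1048576 : ℤ) = 2 ^ 20 by norm_num]
  have hb'0 : 0 < b' := by linarith
  have p9 : (1 : ℤ) ≤ M ^ 9 := one_le_pow₀ (by linarith)
  -- `b' ≤ 8 M ^ 14`
  have h1 : b' ≤ 8 * M ^ 14 := by
    have k0 : 0 < β + e' := by linarith
    have k1 : (β + e) * (β + e') ≤ ((2 * M ^ 9) * β) * (M ^ 5 * β) := by
      refine mul_le_mul ?_ hs k0.le (by positivity)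
      have : 1 * β ≤ M ^ 9 * β := mul_le_mul_of_nonneg_right p9 hβ.le
      linarith
    have k2 : (β * β) * b' ≤ (β * β) * (8 * M ^ 14) := by
      calc (β * β) * b' ≤ 4 * (β + e) * (β + e') := hR
        _ = 4 * ((β + e) * (β + e')) := by ring
        _ ≤ 4 * (((2 * M ^ 9) * β) * (M ^ 5 * β)) := by linarith
        _ = (β * β) * (8 * M ^ 14) := by ring
    exact le_of_mul_le_mul_left k2 (by positivity)
  have h2 : a' ≤ 8 * M ^ 19 := by
    have k1 : a' * β ≤ (8 * M ^ 19) * β := by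
      calc a' * β = e' * b' := r'
        _ ≤ (M ^ 5 * β) * (8 * M ^ 14) := mul_le_mul (by linarith) h1 hb'0.le (by positivity)
        _ = (8 * M ^ 19) * β := by ring
    exact le_of_mul_le_mul_right k1 hβ
  have h3 : e ≤ 8 * M ^ 23 := by
    calc e ≤ M ^ 9 * β := hcon.le
      _ ≤ M ^ 9 * (8 * M ^ 14) := mul_le_mul_of_nonneg_left (by linarith) (by positivity)
      _ = 8 * M ^ 23 := by ring
  have q1 : M ^ 14 ≤ M ^ 23 := pow_le_pow_right₀ (by linarith) (by norm_num)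
  have q2 : M ^ 19 ≤ M ^ 23 := pow_le_pow_right₀ (by linarith) (by norm_num)
  have q3 : M ^ 23 * 24 < M ^ 23 * M := mul_lt_mul_of_pos_left (by linarith) (by positivity)
  have q4 : M ^ 23 * M ≤ M ^ 30 := by
    calc M ^ 23 * M = M ^ 24 := by ring
      _ ≤ M ^ 30 := pow_le_pow_right₀ (by linarith) (by norm_num)
  rw [ha] at hN
  linarith

/-- T3, the first half -/
theorem num_small1 {K J M N β g R w eT e' : ℤ} (hK : 1 ≤ K) (hJ : 2 ^ 10 ≤ J)
    (hM : K * J ^ 10 ≤ M) (hN0 : 0 ≤ N) (hN : N < (M + 1) ^ 30) (hβ0 : 0 < β) (hg : 0 < g)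
    (hgβ : g ^ 2 ≤ β) (hw : w = 1 ∨ w = 2) (hweT : w * eT = e') (he' : 0 < e')
    (hthin : β + eT ≤ 256 * J ^ 3 * β ^ 2) (hβ : β ^ 100 ≤ (g * (K * J ^ 5)) ^ 100 * R)
    (hR : R ≤ N ^ 3) : β + e' ≤ M ^ 5 * β := by
  have h0 := num_M hK hJ hM
  have hM0 : 0 < M := by linarith [show (0 : ℤ) < 2 ^ 100 by norm_num]
  have hM1 : 1024 ≤ M := by linarith [show (1024 : ℤ) ≤ 2 ^ 100 by norm_num]
  have hJ0 : 0 < J := by linarith [show (0 : ℤ) < 2 ^ 10 by norm_num]
  have hJ1 : (1024 : ℤ) ≤ J := by linarith [show (1024 : ℤ) = 2 ^ 10 by norm_num]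
  obtain ⟨_, h1⟩ := num_root hK hJ hM hN0 hN hg (le_refl β) hβ hR
  have h2 : β * (β * J ^ 10) ≤ β * M ^ 4 := by
    calc β * (β * J ^ 10) = (β * J ^ 5) ^ 2 := by ring
      _ ≤ (g * M ^ 2) ^ 2 := pow_le_pow_left₀ (by positivity) h1 2
      _ = g ^ 2 * M ^ 4 := by ring
      _ ≤ β * M ^ 4 := mul_le_mul_of_nonneg_right hgβ (by positivity)
  have h3 : β * J ^ 10 ≤ M ^ 4 := le_of_mul_le_mul_left h2 hβ0
  have heT : β + e' ≤ 2 * (β + eT) := by
    rcases hw with rfl | rfl <;> linarith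
  have h4 : J ^ 3 * β ≤ J ^ 10 * β :=
    mul_le_mul_of_nonneg_right (pow_le_pow_right₀ (by linarith) (by norm_num)) hβ0.le
  have h5 : M ^ 4 * 512 ≤ M ^ 4 * M := mul_le_mul_of_nonneg_left (by linarith) (by positivity)
  calc β + e' ≤ 2 * (β + eT) := heT
    _ ≤ 2 * (256 * J ^ 3 * β ^ 2) := by linarith
    _ = (512 * (J ^ 3 * β)) * β := by ring
    _ ≤ (M ^ 4 * M) * β := by
      refine mul_le_mul_of_nonneg_right ?_ hβ0.le
      have : J ^ 10 * β = β * J ^ 10 := by ring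
      linarith
    _ = M ^ 5 * β := by ring

/-- T3, with the inputs as hypotheses -/
theorem FM.small_of {N M J : ℕ} (hP : Par N M J) {S : PSt} {β b' a' : ℤ} (h : FM S β b' a')
    {l p l' p' : Z2} (ad : Ad S l p l' p') (hv : cr p l + cr S.u S.v + cr l' p' = N) (h2 : 2 ≤ β)
    (hb : β < b') (hV1 : b' ∣ cr l' S.v + cr l' l) (hV2 : b' ∣ cr p' S.v + cr p' l)
    (hM : β * β * b' ∣ 4 * (β + cr S.u l) * (β + cr l' S.v)) :
    β + cr l' S.v ≤ (M : ℤ) ^ 5 * β ∧ (M : ℤ) ^ 9 * β ≤ cr S.u l := by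
  have eA := h.hA
  have eb : cr p S.v = β := ad.isC.unique h.hb
  have eb' : cr S.u p' = b' := ad.isC'.unique h.hb'
  have hβ0 : 0 < β := by linarith
  have hb'0 : 0 < b' := by linarith
  have he0 := ad.h2
  have he0' := ad.h5
  have ha0 := ad.pos
  have ha0' := ad.pos'
  have ea : cr p l = cr S.u l := by
    have h1 := ad.area
    rw [eA, eb] at h1
    exact mul_right_cancel₀ hβ0.ne' h1
  have r' := ad.area'
  rw [eA, eb'] at r'
  have hsz : β * β * b' ≤ 4 * (β + cr S.u l) * (β + cr l' S.v) :=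
    Int.le_of_dvd (by positivity) hM
  rw [eA] at hv
  have hM100 := hP.M100
  have hM0 : (0 : ℤ) < M := by linarith [show (0 : ℤ) < 2 ^ 100 by norm_num]
  have hJ0 : (0 : ℤ) < J := by linarith [hP.J1', show (0 : ℤ) < 2 ^ 10 by norm_num]
  obtain ⟨hJN, hJM⟩ := hP.JN
  -- the first half
  have hs : β + cr l' S.v ≤ (M : ℤ) ^ 5 * β := by
    obtain ⟨m', hm'⟩ := hV1
    obtain ⟨r0, hr0⟩ := hV2
    rcases le_or_gt (8192 * (J : ℤ) ^ 4 * β) (cr l' S.v) with hbig | hsm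
    · obtain ⟨j, T2, l2, p2, l3, p3, w2, g2, hST2, _, adT2, hw2, s1, s2, s3, s4, s5, s6, s7, _, _,
        hCT2, hgA2, hg22, hg23⟩ := vsel_full h.ok ad (by rw [eA, eb]) (by rw [eb']; exact hm')
        (by rw [eb']; exact hr0) h.full
      rw [eb'] at s1
      rw [eA] at s4 hgA2
      rw [eb] at hg23
      have hw20 : 1 ≤ w2 := by omega
      have hbw2 : b' ≤ w2 * b' := le_mul_of_one_le_left hb'0.le hw20
      obtain ⟨D2, U2, V2, L2, P2, hD2, hLX2, hex2⟩ := exLX h.lb hST2 adT2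
        (by rw [s4, s1]; linarith) hCT2 (by rw [s7]; exact hg22)
      rw [s4, s1, s3] at hLX2 hex2
      have heT20 : 0 < cr T2.u l2 := hLX2.e0
      have hD20 : 0 < D2 := hLX2.D0
      have heT2 : cr l' S.v ≤ 2 * cr T2.u l2 := by
        have : w2 * cr T2.u l2 ≤ 2 * cr T2.u l2 := mul_le_mul_of_nonneg_right (by omega) heT20.le
        linarith
      have hnT2 := adT2.nums
      rw [s4, s1, s3, s7] at hnT2
      obtain ⟨o1, o2, o3, o4, o5⟩ := hnT2.leN (N := N) (by linarith) (by linarith)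
      have hg20 := hCT2.pos
      have hD2N : D2 ≤ N := by
        have h1 : 1 * D2 ≤ g2 ^ 2 * D2 :=
          mul_le_mul_of_nonneg_right (one_le_pow₀ (by omega)) hD20.le
        rw [← hD2, s7] at h1
        linarith
      have hXT2 := num_X (N := N) (J := J) (D := D2) (e := cr T2.u l2) (a := cr l' p') hP.N16
        hJ0.le hJN hD20.le hD2N heT20.le o1 ha0'.le o2
      have hg2β : g2 ^ 2 ≤ β := Int.le_of_dvd hβ0 hg23
      have hg2lt : g2 < β := by
        by_contra hn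
        push Not at hn
        have k1 : β * 2 ≤ g2 ^ 2 := by
          calc β * 2 ≤ g2 * g2 := mul_le_mul hn (by linarith) (by norm_num) hg20.le
            _ = g2 ^ 2 := by ring
        linarith
      have big : 4096 * (J : ℤ) ^ 4 * β ≤ cr T2.u l2 := by linarith
      obtain ⟨r1, r2, r3⟩ := hLX2.tprop (J := J) (X := N ^ 6) (β := β) (g := g2) (by linarith)
        hP.J1 hP.cap (by push_cast; exact hXT2) big hg20 hg2lt hex2
      have hJ4 : (4 : ℤ) * J * β ≤ 4096 * J ^ 4 * β := by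
        apply mul_le_mul_of_nonneg_right _ hβ0.le
        have : (J : ℤ) ≤ J ^ 4 := le_self_pow₀ (by linarith) (by norm_num)
        linarith
      have hwbN : w2 * b' ≤ N := by linarith
      have hR3 := num_R (N := N) (D := D2) (e := cr T2.u l2) (a := cr l' p') (b := w2 * b') hP.N16
        hD20.le hD2N o1 o2 hwbN
      exact num_small1 (K := K0) K0_pos hP.J1' hP.KM' (by positivity) hP.hi' hβ0 hg20 hg2β hw2 s2
        he0' r2 r3 hR3
    · have j1 : (1 : ℤ) ≤ J := by linarith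
      have j2 : (8192 : ℤ) * J ^ 4 + 1 ≤ M ^ 5 := by
        have k1 : (J : ℤ) ^ 4 ≤ J ^ 10 := pow_le_pow_right₀ j1 (by norm_num)
        have k2 : (16384 : ℤ) * M ≤ M ^ 4 * M := by
          apply mul_le_mul_of_nonneg_right _ hM0.le
          have : (M : ℤ) ≤ M ^ 4 := le_self_pow₀ (by linarith) (by norm_num)
          linarith [show (16384 : ℤ) ≤ 2 ^ 100 by norm_num]
        have k3 : (M : ℤ) ^ 4 * M = M ^ 5 := by ring
        linarith
      have j3 : ((8192 : ℤ) * J ^ 4 + 1) * β ≤ M ^ 5 * β := mul_le_mul_of_nonneg_right j2 hβ0.le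
      linarith
  exact ⟨hs, num_small2 (by linarith [show (2 : ℤ) ^ 20 ≤ 2 ^ 100 by norm_num]) hP.lo'
    (by rw [← hv]) hβ0 ea he0' r' hb.le hsz hs⟩

end Pool.Agent.H4G
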