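import Pool.Agent.H4G.Cone.QXst

/-!
# Row T5: `A = b = β ≥ 2`, `b' > β` is impossible (helper96)
-/

set_option autoImplicit false

namespace Pool.Agent.H4G

/-! ## Parameters -/

theorem Par.n5 {N M J : ℕ} (h : Par N M J) : (8 * ((J : ℤ) + 1)) ^ 5 ≤ (M : ℤ) := by
  have h1 := h.J1'
  have h2 := h.KM'
  have hJ : (1 : ℤ) ≤ J := by linarith [show (1 : ℤ) ≤ 2 ^ 10 by norm_num]
  have h3 : 8 * ((J : ℤ) + 1) ≤ 16 * J := by linarith
  have h4 : (8 * ((J : ℤ) + 1)) ^ 5 ≤ (16 * (J : ℤ)) ^ 5 := pow_le_pow_left₀ (by positivity) h3 5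
  have h5 : (16 * (J : ℤ)) ^ 5 = 2 ^ 20 * (J : ℤ) ^ 5 := by ring
  have h6 : (J : ℤ) ^ 5 ≤ (J : ℤ) ^ 10 := pow_le_pow_right₀ hJ (by norm_num)
  have h7 : (2 : ℤ) ^ 20 ≤ (K0 : ℤ) := by
    have : 2 ^ 20 ≤ K0 := by
      unfold K0
      have h8 : 1 ≤ (Nat.factorial 100) ^ 2 := Nat.one_le_pow _ _ (Nat.factorial_pos _)
      calc 2 ^ 20 ≤ 2 ^ 43 * 1 := by norm_num
        _ ≤ 2 ^ 43 * (Nat.factorial 100) ^ 2 := Nat.mul_le_mul_left _ h8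
    exact_mod_cast this
  have h9 : (2 : ℤ) ^ 20 * (J : ℤ) ^ 5 ≤ (K0 : ℤ) * (J : ℤ) ^ 10 :=
    mul_le_mul h7 h6 (by positivity) (by linarith [show (0 : ℤ) ≤ 2 ^ 20 by norm_num])
  linarith

theorem Par.n3 {N M J : ℕ} (h : Par N M J) : (8 * ((J : ℤ) + 1)) ^ 3 ≤ (M : ℤ) := by
  have h1 : (1 : ℤ) ≤ 8 * ((J : ℤ) + 1) := by
    have : (0 : ℤ) ≤ J := by positivity
    linarith
  exact (pow_le_pow_right₀ h1 (by norm_num)).trans h.n5

theorem Par.n4 {N M J : ℕ} (h : Par N M J) : (8 * ((J : ℤ) + 1)) ^ 4 ≤ (M : ℤ) := by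
  have h1 : (1 : ℤ) ≤ 8 * ((J : ℤ) + 1) := by
    have : (0 : ℤ) ≤ J := by positivity
    linarith
  exact (pow_le_pow_right₀ h1 (by norm_num)).trans h.n5

theorem Par.n1 {N M J : ℕ} (h : Par N M J) : 8 * ((J : ℤ) + 1) ≤ (M : ℤ) := by
  have h1 : (1 : ℤ) ≤ 8 * ((J : ℤ) + 1) := by
    have : (0 : ℤ) ≤ J := by positivity
    linarith
  exact (le_self_pow₀ h1 (by norm_num)).trans h.n5

theorem Par.hX {N M J : ℕ} (h : Par N M J) {a' e : ℤ} (ha : a' ≤ N) (he0 : 0 ≤ e)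
    (he : e ≤ N) : 64 * a' * e ^ 4 ≤ ((N ^ 6 : ℕ) : ℤ) := by
  have h1 := h.N16
  push_cast
  have h2 : e ^ 4 ≤ (N : ℤ) ^ 4 := pow_le_pow_left₀ he0 he 4
  have h3 : a' * e ^ 4 ≤ N * (N : ℤ) ^ 4 := mul_le_mul ha h2 (by positivity) (by linarith)
  have h4 : 64 * (N * (N : ℤ) ^ 4) ≤ N * (N * (N : ℤ) ^ 4) :=
    mul_le_mul_of_nonneg_right (by linarith [show (64 : ℤ) ≤ 2 ^ 16 by norm_num]) (by positivity)
  calc 64 * a' * e ^ 4 = 64 * (a' * e ^ 4) := by ring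
    _ ≤ 64 * (N * (N : ℤ) ^ 4) := by linarith
    _ ≤ N * (N * (N : ℤ) ^ 4) := h4
    _ = (N : ℤ) ^ 6 := by ring

theorem Par.M2 {N M J : ℕ} (h : Par N M J) : (2 : ℤ) ≤ (M : ℤ) := by
  linarith [h.M100, show (2 : ℤ) ≤ 2 ^ 100 by norm_num]

/-- powers of `M` times `β` -/
theorem Par.pow_le {N M J : ℕ} (h : Par N M J) {s t : ℕ} (hst : s ≤ t) {β : ℤ} (hβ : 0 ≤ β) :
    (M : ℤ) ^ s * β ≤ (M : ℤ) ^ t * β :=
  mul_le_mul_of_nonneg_right (pow_le_pow_right₀ (by linarith [h.M2]) hst) hβ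

theorem QS.mono {h a0 e0 f0 : ℤ} {U Q : Z2} {c c' : ℤ} (hs : QS h a0 e0 f0 U Q c') (hc : c ≤ c') :
    QS h a0 e0 f0 U Q c := fun j t i o hq => hc.trans (hs j t i o hq)

/-- `u ∉ L`: the fraction `f / e` is not an integer, if `A = b` -/
theorem Ad.not_int {S : PSt} (hok : S.Ok) {l p l' p' : Z2} (ad : Ad S l p l' p')
    (hb : cr p S.v = cr S.u S.v) (k : ℤ) : cr S.u p ≠ k * cr S.u l := by
  intro h
  have hw : p - k • l - S.u = 0 := by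
    apply par_zero (U := S.u) (V := S.v) ad.hA.ne'
    · rw [cr_sub_right, cr_sub_right, cr_smul_right, cr_self, h]; ring
    · rw [cr_sub_left, cr_sub_left, cr_smul_left, ad.h1, hb]; ring
  have hm : S.u ∈ S.L := by
    rw [ad.hL]
    refine mem_lat.2 ⟨-k, 1, ?_⟩
    rw [one_smul, neg_smul]
    rw [sub_eq_zero] at hw
    rw [← hw]; abel
  exact PSt.Ok.not_mem (L := S.L) (L' := S.L') (u := S.u) (v := S.v) hok hm

/-- the case `s₁ = 0` is impossible -/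
theorem FM.zero_false {N M J : ℕ} (hP : Par N M J) {S : PSt} {β b' a' : ℤ} (h : FM S β b' a')
    {l p l' p' : Z2} (ad : Ad S l p l' p') (hv : cr p l + cr S.u S.v + cr l' p' = N) (h2 : 2 ≤ β)
    (hct : CT S 1) (he : (M : ℤ) ^ 4 * β ≤ cr S.u l) {i1 k0 : ℤ} (hi : 1 ≤ i1)
    (hi' : i1 < 8 * ((J : ℤ) + 1)) (hc : IsCoprime k0 i1)
    (h0 : i1 * cr S.u p - k0 * cr S.u l = 0) : False := by
  obtain ⟨n1, n2, n3, n4, n5, n6⟩ := h.num ad
  obtain ⟨g, a0, e0, f0, Q, qx, q1, q2, q3, qU, qs, qsk, qex⟩ := h.qx ad hct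
  have hg := qx.ph
  have hA := h.hA
  have hJ1 : 1 ≤ J := le_trans (by norm_num) hP.J1
  -- the fraction
  have e1 : i1 * f0 = k0 * e0 := by
    rw [q2, q3] at h0
    have : g * (i1 * f0 - k0 * e0) = 0 := by linear_combination h0
    rcases mul_eq_zero.1 this with h | h
    · omega
    · linarith
  obtain ⟨z0, hz0⟩ : i1 ∣ e0 := by
    have : i1 ∣ k0 * e0 := ⟨f0, e1.symm⟩
    exact hc.symm.dvd_of_dvd_mul_left this
  have hf0 : f0 = k0 * z0 := by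
    have : i1 * (f0 - k0 * z0) = 0 := by rw [hz0] at e1; linear_combination e1
    rcases mul_eq_zero.1 this with h | h
    · omega
    · linarith
  have hi2 : 2 ≤ i1 := by
    by_contra hn
    have : i1 = 1 := by omega
    subst this
    exact ad.not_int h.ok (by rw [n1, hA]) k0 (by linarith)
  have haN : a' ≤ N := by rw [n3] at hv; linarith [ad.pos, ad.hA]
  have heN : cr S.u l ≤ N := by rw [n4, n3] at hv; linarith [ad.hA, h.ha'.1]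
  have hX := hP.hX haN ad.h2.le heN
  have hsz : (8 * ((J : ℤ) + 1)) ^ 4 * (g * a0) ≤ g * e0 := by
    rw [← q1, ← q2]
    have k1 : (8 * ((J : ℤ) + 1)) ^ 4 * β ≤ (M : ℤ) ^ 1 * β := by
      rw [pow_one]; exact mul_le_mul_of_nonneg_right hP.n4 (by linarith)
    exact k1.trans ((hP.pow_le (by norm_num) (by linarith)).trans he)
  have := qx.szero_k (J := J) (X := N ^ 6) hJ1 hP.cap (by rw [← q2]; exact hX) qsk hz0 hf0 hc hi2
    hi' hsz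
  linarith

/-- the Dirichlet data of an equivalent state of the frame with content `1` -/
theorem FM.dir {N M J : ℕ} (hP : Par N M J) {S : PSt} {β b' a' : ℤ} (h : FM S β b' a')
    {l p l' p' : Z2} (ad : Ad S l p l' p') (hv : cr p l + cr S.u S.v + cr l' p' = N) (h2 : 2 ≤ β)
    (he : (M : ℤ) ^ 4 * β ≤ cr S.u l) : ∃ (q : ℤ) (T : PSt) (l1 p1 : Z2) (i1 k0 : ℤ), SEq S T ∧
      T = ⟨S.L, S.u, S.v + q • (S.u + l'), lat l' (p' + q • S.u)⟩ ∧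
      Ad T l1 p1 l' (p' + q • S.u) ∧ FM T β b' a' ∧ CT T 1 ∧ cr T.u l1 = cr S.u l ∧
      cr l' T.v = cr l' S.v ∧ cr p1 l1 + cr T.u T.v + cr l' (p' + q • S.u) = N ∧
      1 ≤ i1 ∧ i1 < 8 * ((J : ℤ) + 1) ∧ IsCoprime k0 i1 ∧
      |i1 * cr T.u p1 - k0 * cr T.u l1| < 8 * ((J : ℤ) + 1) * β := by
  have hβ0 : 0 ≤ β := by linarith
  obtain ⟨q, T, l1, p1, hST, hT, adT, hFM, hct, eT, eT'⟩ := h.content hP ad hv h2 he
  have hvT : cr p1 l1 + cr T.u T.v + cr l' (p' + q • S.u) = N := by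
    rw [← hv]; exact hST.vol ad.isArea ad.isArea' adT.isArea adT.isArea'
  obtain ⟨n1, n2, n3, n4, n5, n6⟩ := hFM.num adT
  obtain ⟨g, a0, e0, f0, Q, qx, q1, q2, q3, qU, qs, qsk, qex⟩ := hFM.qx adT hct
  have hJ1 : 1 ≤ J := le_trans (by norm_num) hP.J1
  have haN : a' ≤ N := by rw [n3] at hvT; linarith [adT.pos, adT.hA]
  have ha0 : 0 < a' := hFM.ha'.1
  have heN : cr T.u l1 ≤ N := by rw [n4, n3] at hvT; linarith [adT.hA]
  have he0 := adT.h2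
  have hX := hP.hX haN he0.le heN
  have heT4 : (M : ℤ) ^ 4 * β ≤ cr T.u l1 := by rw [eT]; exact he
  obtain ⟨i1, k0, j1, j2, j3, j4⟩ := qx.dir (J := J) (X := N ^ 6) hJ1 hP.cap
    (by rw [← q2]; exact hX) (qs.mono h2) (by
      rw [← q1, ← q2]
      have k1 : 8 * ((J : ℤ) + 1) * β ≤ (M : ℤ) ^ 1 * β := by
        rw [pow_one]; exact mul_le_mul_of_nonneg_right hP.n1 hβ0
      exact k1.trans ((hP.pow_le (by norm_num) hβ0).trans heT4))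
  rw [← q1, ← q2, ← q3] at j4
  exact ⟨q, T, l1, p1, i1, k0, hST, hT, adT, hFM, hct, eT, eT', hvT, j1, j2, j3, j4⟩

/-- ROW T5 -/
theorem FM.p1 {N M J : ℕ} (hP : Par N M J) {S : PSt} {β b' a' : ℤ} (h : FM S β b' a')
    {l p l' p' : Z2} (ad : Ad S l p l' p') (hv : cr p l + cr S.u S.v + cr l' p' = N) (h2 : 2 ≤ β) :
    b' = β := by
  obtain ⟨n1, n2, n3, n4, n5, n6⟩ := h.num ad
  by_contra hne
  have hb : β < b' := lt_of_le_of_ne n5 (Ne.symm hne)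
  obtain ⟨hK, hy⟩ := h.small hP ad hv h2 hb
  have hβ0 : 0 ≤ β := by linarith
  have he4 : (M : ℤ) ^ 4 * β ≤ cr S.u l := (hP.pow_le (by norm_num) hβ0).trans hy
  obtain ⟨q, T, l1, p1, i1, k0, hST, hT, adT, hFM, hct, eT, eT', hvT, j1, j2, j3, j4⟩ :=
    h.dir hP ad hv h2 he4
  have heT4 : (M : ℤ) ^ 4 * β ≤ cr T.u l1 := by rw [eT]; exact he4
  by_cases hs : i1 * cr T.u p1 - k0 * cr T.u l1 = 0
  · exact hFM.zero_false hP adT hvT h2 hct heT4 j1 j2 j3 hs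
  · refine hFM.Z hP adT hvT h2 hct ?_ j1 j2 j3 hs j4
    rw [eT', eT]
    have hM := hP.M2
    calc (M : ℤ) * (β + cr l' S.v) ≤ M * (M ^ 5 * β) :=
          mul_le_mul_of_nonneg_left hK (by linarith)
      _ = M ^ 6 * β := by ring
      _ ≤ M ^ 9 * β := hP.pow_le (by norm_num) hβ0
      _ ≤ cr S.u l := hy

end Pool.Agent.H4G
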