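import Pool.Agent.H4G.Cone.T5

/-!
# Row T7: `A = b = β ≥ 2` is impossible (helper96)
-/

set_option autoImplicit false

namespace Pool.Agent.H4G

/-- the mirror of a state of the frame with `b' = β` -/
theorem FM.mir {S : PSt} {β a' a : ℤ} (h : FM S β β a') (ha : IsArea S.L a) :
    FM S.mir β β a := by
  have m1 := SEq.mir h.ok
  refine ⟨m1.ok', m1.full.1 h.full, ?_, h.hb'.neg, h.hb, ha, fun T c k1 k2 => h.lb T c (m1.trans k1) k2,
    fun T c' k1 _ _ _ k5 => h.le' (m1.trans k1) k5⟩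
  show cr S.v (-S.u) = β
  rw [cr_neg_right, cr_swap S.v S.u, neg_neg]; exact h.hA

/-- the mirror of an adapted basis, with its numbers -/
theorem Ad.mirN {S : PSt} {l p l' p' : Z2} (ad : Ad S l p l' p') :
    Ad S.mir (-l') p' l (-p) ∧ cr p' (-l') = cr l' p' ∧ cr S.mir.u S.mir.v = cr S.u S.v ∧
      cr l (-p) = cr p l ∧ cr S.mir.u (-l') = cr l' S.v ∧ cr l S.mir.v = cr S.u l := by
  refine ⟨ad.mir, ?_, ?_, ?_, ?_, ?_⟩
  · rw [cr_neg_right, cr_swap p' l', neg_neg]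
  · show cr S.v (-S.u) = _
    rw [cr_neg_right, cr_swap S.v S.u, neg_neg]
  · rw [cr_neg_right, cr_swap l p, neg_neg]
  · show cr S.v (-l') = _
    rw [cr_neg_right, cr_swap S.v l', neg_neg]
  · show cr l (-S.u) = _
    rw [cr_neg_right, cr_swap l S.u, neg_neg]

/-- with `b' = β` the case `K'` small is impossible -/
theorem FM.noZ {N M J : ℕ} (hP : Par N M J) {S : PSt} {β a' : ℤ} (h : FM S β β a')
    {l p l' p' : Z2} (ad : Ad S l p l' p') (hv : cr p l + cr S.u S.v + cr l' p' = N) (h2 : 2 ≤ β)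
    (he : (M : ℤ) ^ 4 * β ≤ cr S.u l) (hK : (M : ℤ) * (β + cr l' S.v) ≤ cr S.u l) : False := by
  obtain ⟨q, T, l1, p1, i1, k0, hST, hT, adT, hFM, hct, eT, eT', hvT, j1, j2, j3, j4⟩ :=
    h.dir hP ad hv h2 he
  by_cases hs : i1 * cr T.u p1 - k0 * cr T.u l1 = 0
  · exact hFM.zero_false hP adT hvT h2 hct (by rw [eT]; exact he) j1 j2 j3 hs
  · exact hFM.Z hP adT hvT h2 hct (by rw [eT, eT']; exact hK) j1 j2 j3 hs j4

/-- `b' = β`: both sides are large -/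
theorem FM.big {N M J : ℕ} (hP : Par N M J) {S : PSt} {β a' : ℤ} (h : FM S β β a')
    {l p l' p' : Z2} (ad : Ad S l p l' p') (hv : cr p l + cr S.u S.v + cr l' p' = N)
    (h2 : 2 ≤ β) : (M : ℤ) ^ 4 * β ≤ cr S.u l := by
  by_contra hlt
  push Not at hlt
  obtain ⟨n1, n2, n3, n4, n5, n6⟩ := h.num ad
  have hA := h.hA
  have hM2 := hP.M2
  have hM0 : (0 : ℤ) ≤ M := by linarith
  have hmain := Int.le_of_dvd (by have := ad.h2; have := ad.h5; positivity) (h.main ad)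
  have har := ad.area'
  rw [n2, n3, hA] at har
  have hae : a' = cr l' S.v := mul_right_cancel₀ (by omega : β ≠ 0) har
  rw [n4, hA, n3, hae] at hv
  set e := cr S.u l with he
  set e' := cr l' S.v with he'
  have he0 : 0 < e := ad.h2
  have he0' : 0 < e' := ad.h5
  -- `M^10 β ≤ e'`
  have h10 : (M : ℤ) ^ 10 * β ≤ e' := by
    by_contra hn
    push Not at hn
    have hM10 : (1 : ℤ) ≤ (M : ℤ) ^ 10 := one_le_pow₀ (by linarith)
    have hM4 : (1 : ℤ) ≤ (M : ℤ) ^ 4 := one_le_pow₀ (by linarith)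
    have k1 : β + e ≤ (2 * (M : ℤ) ^ 4) * β := by
      have : 1 * β ≤ (M : ℤ) ^ 4 * β := mul_le_mul_of_nonneg_right hM4 n6.le
      linarith
    have k2 : β + e' ≤ (2 * (M : ℤ) ^ 10) * β := by
      have : 1 * β ≤ (M : ℤ) ^ 10 * β := mul_le_mul_of_nonneg_right hM10 n6.le
      linarith
    have k3 : β * β * β ≤ 4 * (2 * (M : ℤ) ^ 4 * β) * (2 * (M : ℤ) ^ 10 * β) := by
      refine hmain.trans ?_
      have : 4 * (β + e) ≤ 4 * (2 * (M : ℤ) ^ 4 * β) := by linarith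
      exact mul_le_mul this k2 (by linarith) (by positivity)
    have k4 : β ≤ 16 * (M : ℤ) ^ 14 := by
      have : β * β * β ≤ β * β * (16 * (M : ℤ) ^ 14) := by
        calc β * β * β ≤ 4 * (2 * (M : ℤ) ^ 4 * β) * (2 * (M : ℤ) ^ 10 * β) := k3
          _ = β * β * (16 * (M : ℤ) ^ 14) := by ring
      exact le_of_mul_le_mul_left this (by positivity)
    have k5 : (N : ℤ) ≤ (4 * (M : ℤ) ^ 10) * β := by
      have k6 : (M : ℤ) ^ 4 * β ≤ (M : ℤ) ^ 10 * β := hP.pow_le (by norm_num) n6.le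
      have : 1 * β ≤ (M : ℤ) ^ 10 * β := mul_le_mul_of_nonneg_right hM10 n6.le
      linarith
    have k6 : (4 * (M : ℤ) ^ 10) * β ≤ (4 * (M : ℤ) ^ 10) * (16 * (M : ℤ) ^ 14) :=
      mul_le_mul_of_nonneg_left k4 (by positivity)
    have k7 : (4 * (M : ℤ) ^ 10) * (16 * (M : ℤ) ^ 14) = 64 * (M : ℤ) ^ 24 := by ring
    have k8 : (64 : ℤ) * (M : ℤ) ^ 24 < (M : ℤ) ^ 30 := by
      have h1 := hP.M100
      have : (64 : ℤ) < (M : ℤ) ^ 6 := by
        have h3 : (M : ℤ) ≤ (M : ℤ) ^ 6 := le_self_pow₀ (by linarith) (by norm_num)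
        linarith [show (64 : ℤ) < 2 ^ 100 by norm_num]
      calc (64 : ℤ) * (M : ℤ) ^ 24 < (M : ℤ) ^ 6 * (M : ℤ) ^ 24 :=
            mul_lt_mul_of_pos_right this (by positivity)
        _ = (M : ℤ) ^ 30 := by ring
    have k9 := hP.lo'
    linarith
  -- the mirror
  obtain ⟨adm, t1, t2, t3, t4, t5⟩ := ad.mirN
  have hm := h.mir ad.isArea
  have hvm : cr p' (-l') + cr S.mir.u S.mir.v + cr l (-p) = N := by
    rw [t1, t2, t3, n3, hA, n4, hae]; linarith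
  refine hm.noZ hP adm hvm h2 ?_ ?_
  · rw [t4, ← he']; exact (hP.pow_le (by norm_num) n6.le).trans h10
  · rw [t4, t5, ← he', ← he]
    have hM4 : (1 : ℤ) ≤ (M : ℤ) ^ 4 := one_le_pow₀ (by linarith)
    have k1 : β + e ≤ (2 * (M : ℤ) ^ 4) * β := by
      have : 1 * β ≤ (M : ℤ) ^ 4 * β := mul_le_mul_of_nonneg_right hM4 n6.le
      linarith
    calc (M : ℤ) * (β + e) ≤ M * ((2 * (M : ℤ) ^ 4) * β) := mul_le_mul_of_nonneg_left k1 hM0
      _ = 2 * ((M : ℤ) ^ 5 * β) := by ring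
      _ ≤ M * ((M : ℤ) ^ 5 * β) := mul_le_mul_of_nonneg_right hM2 (by positivity)
      _ = (M : ℤ) ^ 6 * β := by ring
      _ ≤ (M : ℤ) ^ 10 * β := hP.pow_le (by norm_num) n6.le
      _ ≤ e' := h10

/-- `β ≥ 2`: strong induction on `N - a'` -/
theorem FM.ge2_aux {N M J : ℕ} (hP : Par N M J) {β : ℤ} (h2 : 2 ≤ β) (n : ℕ) :
    ∀ {S : PSt} {b' a' : ℤ}, FM S β b' a' → ∀ {l p l' p' : Z2}, Ad S l p l' p' →
      cr p l + cr S.u S.v + cr l' p' = N → ((N : ℤ) - a').toNat = n → False := by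
  induction n using Nat.strong_induction_on with
  | _ n ih =>
  intro S b' a' h l p l' p' ad hv hn
  obtain ⟨n1, n2, n3, n4, n5, n6⟩ := h.num ad
  have hA := h.hA
  have hb : b' = β := h.p1 hP ad hv h2
  subst hb
  have hbig := h.big hP ad hv h2
  obtain ⟨q, T, l1, p1, i1, k0, hST, hT, adT, hFM, hct, eT, eT', hvT, j1, j2, j3, j4⟩ :=
    h.dir hP ad hv h2 hbig
  obtain ⟨m1, m2, m3, m4, m5, m6⟩ := hFM.num adT
  have hbigT : (M : ℤ) ^ 4 * b' ≤ cr T.u l1 := by rw [eT]; exact hbig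
  by_cases hs : i1 * cr T.u p1 - k0 * cr T.u l1 = 0
  · exact hFM.zero_false hP adT hvT h2 hct hbigT j1 j2 j3 hs
  · obtain ⟨g, a0, e0, f0, Q, qx, q1, q2, q3, qU, qs, qsk, qex⟩ := hFM.qx adT hct
    have hJ1 : 1 ≤ J := le_trans (by norm_num) hP.J1
    have haN : a' ≤ N := by rw [m3] at hvT; linarith [adT.pos, adT.hA]
    have heN : cr T.u l1 ≤ N := by rw [m4, m3] at hvT; linarith [adT.hA, hFM.ha'.1]
    have hX := hP.hX haN adT.h2.le heN
    have hsz : (8 * ((J : ℤ) + 1)) ^ 3 * (g * a0) ≤ g * e0 := by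
      rw [← q1, ← q2]
      have k1 : (8 * ((J : ℤ) + 1)) ^ 3 * b' ≤ (M : ℤ) ^ 1 * b' := by
        rw [pow_one]; exact mul_le_mul_of_nonneg_right hP.n3 (by linarith)
      exact k1.trans ((hP.pow_le (by norm_num) (by linarith)).trans hbigT)
    rw [q2, q3] at hs
    rw [q2, q3, q1] at j4
    obtain ⟨j, t, i, o, w1, w2, w3, w4⟩ := qx.cEq (J := J) (X := N ^ 6) hJ1 hP.cap
      (by rw [← q2]; exact hX) (by rw [← q1]; exact qs) (by rw [← q1]; exact qU) j1 j2 j3 hs j4 hsz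
    rw [← q1, ← q2, ← q3] at w1
    rw [← q1] at w4
    obtain ⟨T2, b1, r1, r2, r3⟩ := hFM.exitS2 qex w1 w4
    obtain ⟨l2, p2, l2', p2', ad2⟩ := exists_Ad r2.ok
    have hv2 : cr p2 l2 + cr T2.u T2.v + cr l2' p2' = N := by
      rw [← hvT]; exact r1.vol adT.isArea adT.isArea' ad2.isArea ad2.isArea'
    obtain ⟨x1, x2, x3, x4, x5, x6⟩ := r2.num ad2
    have hb1 : b1 = b' := r2.p1 hP ad2 hv2 h2
    subst hb1
    have hm := r2.mir r3
    obtain ⟨adm, t1, t2, t3, t4, t5⟩ := ad2.mirN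
    refine ih _ ?_ hm adm (by rw [t1, t2, t3]; linarith) rfl
    have hi : 0 < i * b1 := mul_pos w2 m6
    have haN' : a' < N := by rw [m3] at hvT; linarith [adT.pos, adT.hA]
    omega

/-- ROW T7 -/
theorem FM.false {N M J : ℕ} (hP : Par N M J) {S : PSt} {β b' a' : ℤ} (h : FM S β b' a')
    {l p l' p' : Z2} (ad : Ad S l p l' p') (hv : cr p l + cr S.u S.v + cr l' p' = N)
    (h2 : 2 ≤ β) : False := FM.ge2_aux hP h2 _ h ad hv rfl

end Pool.Agent.H4G
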