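import Pool.Agent.H4G.Cone.Core
import Pool.Agent.H4G.Cone.T1

/-!
# The case `s1 = 0` with k-fold exits (helper65)
-/

set_option autoImplicit false

namespace Pool.Agent.H4G

/-- the reduced data of a state of the frame with content `1`, k-fold exits -/
theorem FM.qxk {S : PSt} {β b' a' : ℤ} (h : FM S β b' a') {l p l' p' : Z2}
    (ad : Ad S l p l' p') (hct : CT S 1) : ∃ (g a0 e0 f0 : ℤ) (U Q : Z2),
      QX g a0 e0 f0 a' U Q ∧ β = g * a0 ∧ cr S.u l = g * e0 ∧ cr S.u p = g * f0 ∧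
      (gcv U : ℤ) = b' ∧ QSk g a0 e0 f0 U Q β := by
  obtain ⟨n1, n2, n3, n4, n5, n6⟩ := h.num ad
  obtain ⟨D, U, V, L, P, d1, hLX, dU, hex⟩ := exLXK h.lb h.ok.seq ad (by rw [h.hA, n1]) hct
    (by rw [one_pow]; exact one_dvd _)
  rw [one_pow, one_mul, n3] at d1
  subst d1
  rw [one_mul, n2] at dU
  rw [h.hA, n1, n4] at hLX hex
  obtain ⟨g, a0, e0, f0, Q, q, q1, q2, q3, q4, q5, q6, q7⟩ := hLX.toQX
  refine ⟨g, a0, e0, f0, U, Q, q, q1, q2, q3, dU.symm, ?_⟩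
  have hβ0 : 0 < β := by rw [← h.hA]; exact ad.hA
  refine qsk_of hβ0 q1 q2 q3 q4 q5 q6 (fun j t i o k hx => ?_)
  have := hex j t i o k hx
  rwa [one_mul] at this

end Pool.Agent.H4G
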